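import Pool.Agent.H85.UMC.Transfer

/-!
Assembly: from the flow statement on the finite uniform space of cells to Talagrand's matching
statement for uniform points in the unit square.
-/

open Finset MeasureTheory

namespace Pool.UMC

/-- The uniform distribution on the unit square `[0,1]²`. -/
noncomputable def unifSq : Measure (ℝ × ℝ) :=
  volume.restrict (Set.Icc (0 : ℝ) 1 ×ˢ Set.Icc (0 : ℝ) 1)

/-- The cost `M_n(σ)` of a permutation `σ` for the points `x i` and `y i`. -/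
noncomputable def cost (α₁ α₂ C : ℝ) (n : ℕ) (x y : Fin n → ℝ × ℝ)
    (σ : Equiv.Perm (Fin n)) : ℝ :=
  max (∑ i, Real.exp ((1 / C * √((n : ℝ) / Real.log n) * |(x i).1 - (y (σ i)).1|) ^ α₁))
      (∑ i, Real.exp ((1 / C * √((n : ℝ) / Real.log n) * |(x i).2 - (y (σ i)).2|) ^ α₂))

/-- Number of points in the cell `(a, b)`. -/
def cnt {n m : ℕ} (c : Fin n → Fin m × Fin m) (a b : ℕ) : ℕ :=
  (univ.filter fun i => ((c i).1 : ℕ) = a ∧ ((c i).2 : ℕ) = b).card

/-- `f₁, f₂` is a flow on the `m × m` grid with zero flux through the boundary and divergence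
`cnt cx - cnt cy`. -/
def IsFlow {n m : ℕ} (cx cy : Fin n → Fin m × Fin m) (f₁ f₂ : ℕ → ℕ → ℝ) : Prop :=
  (∀ b < m, f₁ 0 b = 0 ∧ f₁ m b = 0) ∧ (∀ a < m, f₂ a 0 = 0 ∧ f₂ a m = 0) ∧
    ∀ a < m, ∀ b < m, (f₁ (a + 1) b - f₁ a b) + (f₂ a (b + 1) - f₂ a b) =
      (cnt cx a b : ℝ) - cnt cy a b

/-- There is a flow with bounded exponential functional; `L` is the scale (`L = C₀ log n`). -/
def GoodFlow (α₁ α₂ L C : ℝ) {n m : ℕ} (cx cy : Fin n → Fin m × Fin m) : Prop :=
  ∃ f₁ f₂ : ℕ → ℕ → ℝ, IsFlow cx cy f₁ f₂ ∧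
    ∑ a ∈ range (m + 1), ∑ b ∈ range m, Real.exp ((|f₁ a b| / L) ^ α₁) ≤ C * (m : ℝ) ^ 2 ∧
    ∑ a ∈ range m, ∑ b ∈ range (m + 1), Real.exp ((|f₂ a b| / L) ^ α₂) ≤ C * (m : ℝ) ^ 2

open Classical in
/-- Fraction of the pairs `(cx, cy)` of `n`-tuples of cells with the property `E`. -/
noncomputable def frac (n m : ℕ) (E : (Fin n → Fin m × Fin m) → (Fin n → Fin m × Fin m) → Prop) :
    ℝ :=
  ((univ.filter fun w : (Fin n → Fin m × Fin m) × (Fin n → Fin m × Fin m) =>
    E w.1 w.2).card : ℝ) / ((m : ℝ) ^ 2) ^ (2 * n)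

/-- THE FLOW STATEMENT. -/
def S_FLOW (α₁ α₂ c₀ : ℝ) (err : ℕ → ℝ) : Prop :=
  ∃ C₀ : ℝ, 0 < C₀ ∧ ∃ C : ℝ, 0 < C ∧ ∀ n k : ℕ, 2 ≤ n → c₀ * Real.log n ≤ n / 4 ^ k →
    (n : ℝ) / 4 ^ k ≤ 4 * c₀ * Real.log n →
    frac n (2 ^ k) (fun cx cy => ¬ GoodFlow α₁ α₂ (C₀ * Real.log n) C cx cy) ≤ err n

/-! ### Counts -/

theorem sum_exp_count {n : ℕ} {Q : Type*} [Fintype Q] [DecidableEq Q] (q : Q) (s : ℝ) :
    ∑ c : Fin n → Q, Real.exp (s * ((univ.filter fun i => c i = q).card : ℝ)) =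
      ((Fintype.card Q : ℝ) - 1 + Real.exp s) ^ n := by
  have e1 : ∀ c : Fin n → Q, Real.exp (s * ((univ.filter fun i => c i = q).card : ℝ)) =
      ∏ i, (if c i = q then Real.exp s else 1) := by
    intro c
    rw [Finset.prod_ite, Finset.prod_const, Finset.prod_const_one, mul_one, ← Real.exp_nat_mul,
      mul_comm]
  rw [Finset.sum_congr rfl fun c _ => e1 c]
  have e2 := (Finset.prod_univ_sum (fun _ : Fin n => (univ : Finset Q))
    (fun _ x => if x = q then Real.exp s else 1)).symm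
  rw [Fintype.piFinset_univ] at e2
  rw [e2, Finset.prod_const, Finset.card_univ, Fintype.card_fin]
  congr 1
  rw [Finset.sum_ite, Finset.sum_const, Finset.sum_const]
  have : (univ.filter fun x : Q => x = q) = {q} := by
    ext x
    simp
  rw [this]
  have h2 : ((univ.filter fun x : Q => ¬ x = q).card : ℝ) = (Fintype.card Q : ℝ) - 1 := by
    have h3 := Finset.card_filter_add_card_filter_not (s := (univ : Finset Q)) (fun x => x = q)
    rw [this, Finset.card_singleton, Finset.card_univ] at h3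
    rw [← h3]
    push_cast
    ring
  rw [nsmul_eq_mul, nsmul_eq_mul, h2]
  simp
  ring

theorem chernoff {n : ℕ} {Q : Type*} [Fintype Q] [DecidableEq Q] [Nonempty Q] (q : Q) :
    ((univ.filter fun c : Fin n → Q => ¬ (3 / 4 * ((n : ℝ) / Fintype.card Q) ≤
      ((univ.filter fun i => c i = q).card : ℝ) ∧ ((univ.filter fun i => c i = q).card : ℝ) ≤
        5 / 4 * ((n : ℝ) / Fintype.card Q))).card : ℝ) ≤
      2 * Real.exp (-((n : ℝ) / Fintype.card Q) / 64) * (Fintype.card Q : ℝ) ^ n := by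
  set N : ℝ := (Fintype.card Q : ℝ) with hN
  have hNpos : 0 < N := by
    rw [hN]
    exact_mod_cast Fintype.card_pos
  set lam : ℝ := (n : ℝ) / N with hlam
  have hexp : ∀ s : ℝ, |s| ≤ 1 → Real.exp s ≤ 1 + s + s ^ 2 := by
    intro s hs
    have := Real.abs_exp_sub_one_sub_id_le hs
    have := (abs_le.1 this).2
    linarith
  have key : ∀ s : ℝ, |s| ≤ 1 → ∑ c : Fin n → Q,
      Real.exp (s * ((univ.filter fun i => c i = q).card : ℝ)) ≤
      Real.exp (lam * (s + s ^ 2)) * N ^ n := by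
    intro s hs
    rw [sum_exp_count]
    have h1 : N - 1 + Real.exp s ≤ N * Real.exp ((s + s ^ 2) / N) := by
      have h2 := Real.add_one_le_exp ((s + s ^ 2) / N)
      have h3 : N * ((s + s ^ 2) / N + 1) = s + s ^ 2 + N := by
        field_simp
      nlinarith [hexp s hs, mul_le_mul_of_nonneg_left h2 hNpos.le]
    have h4 : 0 ≤ N - 1 + Real.exp s := by
      have : 1 ≤ N := by
        rw [hN]
        exact_mod_cast Fintype.card_pos
      have := Real.exp_pos s
      linarith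
    calc (N - 1 + Real.exp s) ^ n ≤ (N * Real.exp ((s + s ^ 2) / N)) ^ n := pow_le_pow_left₀ h4 h1 n
      _ = Real.exp (lam * (s + s ^ 2)) * N ^ n := by
          rw [mul_pow, ← Real.exp_nat_mul, mul_comm]
          congr 2
          rw [hlam]
          ring
  have up : ((univ.filter fun c : Fin n → Q =>
      5 / 4 * lam < ((univ.filter fun i => c i = q).card : ℝ)).card : ℝ) ≤
      Real.exp (-lam / 64) * N ^ n := by
    have h1 := key (1 / 8) (by rw [abs_of_pos] <;> norm_num)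
    have h2 : ((univ.filter fun c : Fin n → Q =>
        5 / 4 * lam < ((univ.filter fun i => c i = q).card : ℝ)).card : ℝ) *
        Real.exp (1 / 8 * (5 / 4 * lam)) ≤ ∑ c : Fin n → Q,
        Real.exp (1 / 8 * ((univ.filter fun i => c i = q).card : ℝ)) := by
      calc ((univ.filter fun c : Fin n → Q =>
          5 / 4 * lam < ((univ.filter fun i => c i = q).card : ℝ)).card : ℝ) *
          Real.exp (1 / 8 * (5 / 4 * lam)) = ∑ c ∈ univ.filter fun c : Fin n → Q =>
          5 / 4 * lam < ((univ.filter fun i => c i = q).card : ℝ),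
          Real.exp (1 / 8 * (5 / 4 * lam)) := by
            rw [Finset.sum_const, nsmul_eq_mul]
        _ ≤ ∑ c ∈ univ.filter fun c : Fin n → Q =>
          5 / 4 * lam < ((univ.filter fun i => c i = q).card : ℝ),
          Real.exp (1 / 8 * ((univ.filter fun i => c i = q).card : ℝ)) := by
            refine Finset.sum_le_sum fun c hc => ?_
            have := (Finset.mem_filter.1 hc).2
            exact Real.exp_le_exp.2 (by linarith)
        _ ≤ _ := Finset.sum_le_sum_of_subset_of_nonneg (Finset.filter_subset _ _)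
            fun c _ _ => (Real.exp_pos _).le
    have h3 := h2.trans h1
    rw [← le_div_iff₀ (Real.exp_pos _)] at h3
    refine h3.trans (le_of_eq ?_)
    rw [mul_div_right_comm, ← Real.exp_sub]
    congr 2
    ring
  have low : ((univ.filter fun c : Fin n → Q =>
      ((univ.filter fun i => c i = q).card : ℝ) < 3 / 4 * lam).card : ℝ) ≤
      Real.exp (-lam / 64) * N ^ n := by
    have h1 := key (-(1 / 8)) (by rw [abs_neg, abs_of_pos] <;> norm_num)
    have h2 : ((univ.filter fun c : Fin n → Q =>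
        ((univ.filter fun i => c i = q).card : ℝ) < 3 / 4 * lam).card : ℝ) *
        Real.exp (-(1 / 8) * (3 / 4 * lam)) ≤ ∑ c : Fin n → Q,
        Real.exp (-(1 / 8) * ((univ.filter fun i => c i = q).card : ℝ)) := by
      calc ((univ.filter fun c : Fin n → Q =>
          ((univ.filter fun i => c i = q).card : ℝ) < 3 / 4 * lam).card : ℝ) *
          Real.exp (-(1 / 8) * (3 / 4 * lam)) = ∑ c ∈ univ.filter fun c : Fin n → Q =>
          ((univ.filter fun i => c i = q).card : ℝ) < 3 / 4 * lam,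
          Real.exp (-(1 / 8) * (3 / 4 * lam)) := by
            rw [Finset.sum_const, nsmul_eq_mul]
        _ ≤ ∑ c ∈ univ.filter fun c : Fin n → Q =>
          ((univ.filter fun i => c i = q).card : ℝ) < 3 / 4 * lam,
          Real.exp (-(1 / 8) * ((univ.filter fun i => c i = q).card : ℝ)) := by
            refine Finset.sum_le_sum fun c hc => ?_
            have := (Finset.mem_filter.1 hc).2
            exact Real.exp_le_exp.2 (by linarith)
        _ ≤ _ := Finset.sum_le_sum_of_subset_of_nonneg (Finset.filter_subset _ _)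
            fun c _ _ => (Real.exp_pos _).le
    have h3 := h2.trans h1
    rw [← le_div_iff₀ (Real.exp_pos _)] at h3
    refine h3.trans (le_of_eq ?_)
    rw [mul_div_right_comm, ← Real.exp_sub]
    congr 2
    ring
  calc ((univ.filter fun c : Fin n → Q => ¬ (3 / 4 * lam ≤
        ((univ.filter fun i => c i = q).card : ℝ) ∧ ((univ.filter fun i => c i = q).card : ℝ) ≤
          5 / 4 * lam)).card : ℝ)
      ≤ (((univ.filter fun c : Fin n → Q =>
          5 / 4 * lam < ((univ.filter fun i => c i = q).card : ℝ)) ∪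
          (univ.filter fun c : Fin n → Q =>
          ((univ.filter fun i => c i = q).card : ℝ) < 3 / 4 * lam)).card : ℝ) := by
        refine Nat.cast_le.2 (Finset.card_le_card ?_)
        intro c hc
        simp only [Finset.mem_filter, Finset.mem_univ, true_and, Finset.mem_union, not_and,
          not_le] at hc ⊢
        by_cases h : 3 / 4 * lam ≤ ((univ.filter fun i => c i = q).card : ℝ)
        · exact Or.inl (hc h)
        · exact Or.inr (not_le.1 h)
    _ ≤ Real.exp (-lam / 64) * N ^ n + Real.exp (-lam / 64) * N ^ n := by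
        refine le_trans ?_ (add_le_add up low)
        exact_mod_cast Finset.card_union_le _ _
    _ = _ := by ring

/-! ### The deterministic implication -/

theorem convexOn_g {κ α : ℝ} (hκ : 0 ≤ κ) (hα : 1 ≤ α) :
    ConvexOn ℝ (Set.Ici 0) (fun u => Real.exp ((κ * u) ^ α)) := by
  refine ⟨convex_Ici 0, ?_⟩
  intro x hx y hy a b ha hb hab
  have hx' : (0 : ℝ) ≤ x := hx
  have hy' : (0 : ℝ) ≤ y := hy
  have h1 := (convexOn_rpow hα).2 (show (0 : ℝ) ≤ κ * x by positivity)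
    (show (0 : ℝ) ≤ κ * y by positivity) ha hb hab
  have h2 := convexOn_exp.2 (Set.mem_univ ((κ * x) ^ α)) (Set.mem_univ ((κ * y) ^ α)) ha hb hab
  simp only [smul_eq_mul] at h1 h2 ⊢
  refine le_trans (Real.exp_le_exp.2 ?_) h2
  have e : κ * (a * x + b * y) = a * (κ * x) + b * (κ * y) := by ring
  rw [e]
  exact h1

theorem monotoneOn_g {κ α : ℝ} (hκ : 0 ≤ κ) (hα : 0 ≤ α) :
    MonotoneOn (fun u => Real.exp ((κ * u) ^ α)) (Set.Ici 0) := by
  intro x hx y hy hxy
  have hx' : (0 : ℝ) ≤ x := hx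
  exact Real.exp_le_exp.2 (Real.rpow_le_rpow (by positivity)
    (mul_le_mul_of_nonneg_left hxy hκ) hα)

/-- `exp (v ^ α) ≤ e exp (t ^ α)` if `v ≤ max 1 t`. -/
theorem exp_rpow_le {v t α : ℝ} (hv : 0 ≤ v) (ht : 0 ≤ t) (hα : 0 ≤ α) (h : v ≤ max 1 t) :
    Real.exp (v ^ α) ≤ Real.exp 1 * Real.exp (t ^ α) := by
  rw [← Real.exp_add]
  refine Real.exp_le_exp.2 ?_
  have h1 : v ^ α ≤ (max 1 t) ^ α := Real.rpow_le_rpow hv h hα
  have h2 : (max 1 t) ^ α ≤ 1 + t ^ α := by
    rcases le_total 1 t with h3 | h3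
    · rw [max_eq_right h3]
      linarith
    · rw [max_eq_left h3, Real.one_rpow]
      have : 0 ≤ t ^ α := Real.rpow_nonneg ht α
      linarith
  exact h1.trans h2

theorem exp_max_le {x y L α : ℝ} :
    Real.exp ((max |x| |y| / L) ^ α) ≤
      Real.exp ((|x| / L) ^ α) + Real.exp ((|y| / L) ^ α) := by
  rcases le_total |x| |y| with h | h
  · rw [max_eq_right h]
    have := Real.exp_pos ((|x| / L) ^ α)
    linarith
  · rw [max_eq_left h]
    have := Real.exp_pos ((|y| / L) ^ α)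
    linarith

/-- One term: `g (3 + 2 F / λ) ≤ e (exp (..) + exp (..))`. -/
theorem g_term {κ α lam L x y : ℝ} (hκ : 0 ≤ κ) (hκ1 : 3 * κ ≤ 1 / 2) (hα : 0 ≤ α)
    (hlam : 0 < lam) (hL : 0 < L) (hκ2 : 2 * κ / lam ≤ 1 / (2 * L)) :
    Real.exp ((κ * (3 + 2 * max |x| |y| / lam)) ^ α) ≤
      Real.exp 1 * (Real.exp ((|x| / L) ^ α) + Real.exp ((|y| / L) ^ α)) := by
  have hF : 0 ≤ max |x| |y| := (abs_nonneg x).trans (le_max_left _ _)
  refine (exp_rpow_le (t := max |x| |y| / L) (by positivity) (by positivity) hα ?_).trans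
    (mul_le_mul_of_nonneg_left exp_max_le (Real.exp_pos 1).le)
  have h1 : κ * (3 + 2 * max |x| |y| / lam) = 3 * κ + (2 * κ / lam) * max |x| |y| := by ring
  rw [h1]
  have h2 : (2 * κ / lam) * max |x| |y| ≤ 1 / (2 * L) * max |x| |y| :=
    mul_le_mul_of_nonneg_right hκ2 hF
  have h3 : 1 / (2 * L) * max |x| |y| = 1 / 2 * (max |x| |y| / L) := by
    field_simp
  rw [h3] at h2
  have h4 := le_max_left 1 (max |x| |y| / L)
  have h5 := le_max_right 1 (max |x| |y| / L)
  linarith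

/-- The cell of a point of the unit square. -/
noncomputable def dig (m : ℕ) [NeZero m] (x : ℝ) : Fin m :=
  ⟨min ⌊(m : ℝ) * x⌋₊ (m - 1), by
    have := NeZero.pos m
    omega⟩

theorem dig_bound {m : ℕ} [NeZero m] {x : ℝ} (h0 : 0 ≤ x) (h1 : x ≤ 1) :
    ((dig m x : ℕ) : ℝ) ≤ m * x ∧ m * x ≤ (dig m x : ℕ) + 1 := by
  have hm := NeZero.pos m
  have hm' : (0 : ℝ) < m := by exact_mod_cast hm
  have hx : 0 ≤ (m : ℝ) * x := by positivity
  have f1 := Nat.floor_le hx
  have f2 := Nat.lt_floor_add_one ((m : ℝ) * x)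
  unfold dig
  simp only
  constructor
  · refine le_trans ?_ f1
    exact_mod_cast min_le_left _ _
  · rcases le_total ⌊(m : ℝ) * x⌋₊ (m - 1) with h | h
    · rw [min_eq_left h]
      exact f2.le
    · rw [min_eq_right h, Nat.cast_sub (show 1 ≤ m by omega)]
      push_cast
      nlinarith

/-- Cells of a family of points. -/
noncomputable def digs (m : ℕ) [NeZero m] {n : ℕ} (x : Fin n → ℝ × ℝ) : Fin n → Fin m × Fin m :=
  fun i => (dig m (x i).1, dig m (x i).2)

/-- Good counts. -/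
def GoodCount {n m : ℕ} (lam : ℝ) (c : Fin n → Fin m × Fin m) : Prop :=
  ∀ a < m, ∀ b < m, 3 / 4 * lam ≤ (cnt c a b : ℝ) ∧ (cnt c a b : ℝ) ≤ 5 / 4 * lam

theorem sum_edges1 (m : ℕ) (e : ℕ → ℕ → ℝ) (he : ∀ a b, 0 ≤ e a b) :
    ∑ a ∈ range m, ∑ b ∈ range m, (e a b + e (a + 1) b) ≤
      2 * ∑ a ∈ range (m + 1), ∑ b ∈ range m, e a b := by
  have h1 : ∑ a ∈ range m, ∑ b ∈ range m, e a b ≤ ∑ a ∈ range (m + 1), ∑ b ∈ range m, e a b := by
    rw [Finset.sum_range_succ]
    have : 0 ≤ ∑ b ∈ range m, e m b := Finset.sum_nonneg fun b _ => he m b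
    linarith
  have h2 : ∑ a ∈ range m, ∑ b ∈ range m, e (a + 1) b ≤
      ∑ a ∈ range (m + 1), ∑ b ∈ range m, e a b := by
    rw [Finset.sum_range_succ' _ m]
    have : 0 ≤ ∑ b ∈ range m, e 0 b := Finset.sum_nonneg fun b _ => he 0 b
    linarith
  simp only [Finset.sum_add_distrib]
  linarith

theorem sum_edges2 (m : ℕ) (e : ℕ → ℕ → ℝ) (he : ∀ a b, 0 ≤ e a b) :
    ∑ a ∈ range m, ∑ b ∈ range m, (e a b + e a (b + 1)) ≤
      2 * ∑ a ∈ range m, ∑ b ∈ range (m + 1), e a b := by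
  have h1 : ∀ a, ∑ b ∈ range m, (e a b + e a (b + 1)) ≤ 2 * ∑ b ∈ range (m + 1), e a b := by
    intro a
    have h1 : ∑ b ∈ range m, e a b ≤ ∑ b ∈ range (m + 1), e a b := by
      rw [Finset.sum_range_succ]
      linarith [he a m]
    have h2 : ∑ b ∈ range m, e a (b + 1) ≤ ∑ b ∈ range (m + 1), e a b := by
      rw [Finset.sum_range_succ' _ m]
      linarith [he a 0]
    rw [Finset.sum_add_distrib]
    linarith
  rw [Finset.mul_sum]
  exact Finset.sum_le_sum fun a _ => h1 a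

/-- The deterministic implication. -/
theorem det_impl {α₁ α₂ : ℝ} (hα₁ : 1 ≤ α₁) (hα₂ : 1 ≤ α₂) {c₀ C₀ C C₁ : ℝ} (hc₀ : 0 < c₀)
    (hC₀ : 0 < C₀) (hC1 : 6 * √(4 * c₀) ≤ C₁)
    (hC2 : 4 * C₀ / c₀ * √(4 * c₀) ≤ C₁) (hC3 : 6 * Real.exp 1 * C ≤ C₁)
    {n m : ℕ} [NeZero m] (hn : 2 ≤ n) (h1 : c₀ * Real.log n ≤ (n : ℝ) / (m : ℝ) ^ 2)
    (h2 : (n : ℝ) / (m : ℝ) ^ 2 ≤ 4 * c₀ * Real.log n) (x y : Fin n → ℝ × ℝ)
    (hx : ∀ i, x i ∈ Set.Icc (0 : ℝ) 1 ×ˢ Set.Icc (0 : ℝ) 1)
    (hy : ∀ i, y i ∈ Set.Icc (0 : ℝ) 1 ×ˢ Set.Icc (0 : ℝ) 1)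
    (hgx : GoodCount ((n : ℝ) / (m : ℝ) ^ 2) (digs m x))
    (hgy : GoodCount ((n : ℝ) / (m : ℝ) ^ 2) (digs m y))
    (hflow : GoodFlow α₁ α₂ (C₀ * Real.log n) C (digs m x) (digs m y)) :
    ∃ σ : Equiv.Perm (Fin n), cost α₁ α₂ C₁ n x y σ ≤ C₁ * n := by
  obtain ⟨f₁, f₂, ⟨hb1, hb2, hdiv⟩, hs1, hs2⟩ := hflow
  have hm := NeZero.pos m
  have hm' : (0 : ℝ) < m := by exact_mod_cast hm
  have hn' : (2 : ℝ) ≤ n := by exact_mod_cast hn
  have hlog : 0 < Real.log n := Real.log_pos (by linarith)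
  set lam : ℝ := (n : ℝ) / (m : ℝ) ^ 2 with hlam
  have hlampos : 0 < lam := by positivity
  set s : ℝ := √(4 * c₀) with hs
  have hspos : 0 < s := Real.sqrt_pos.2 (by positivity)
  have hC₁ : 0 < C₁ := lt_of_lt_of_le (by positivity) hC1
  set κ : ℝ := s / C₁ with hκdef
  have hκ : 0 < κ := by positivity
  have hκ1 : 3 * κ ≤ 1 / 2 := by
    rw [hκdef, ← mul_div_assoc, div_le_iff₀ hC₁]
    linarith
  have hL : 0 < C₀ * Real.log n := by positivity
  have hκ2 : 2 * κ / lam ≤ 1 / (2 * (C₀ * Real.log n)) := by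
    rw [div_le_div_iff₀ hlampos (by positivity)]
    have e1 : κ * (4 * C₀) ≤ c₀ := by
      rw [hκdef, div_mul_eq_mul_div, div_le_iff₀ hC₁]
      have : 4 * C₀ / c₀ * s * c₀ ≤ C₁ * c₀ := mul_le_mul_of_nonneg_right hC2 hc₀.le
      have e : 4 * C₀ / c₀ * s * c₀ = s * (4 * C₀) := by
        field_simp
      linarith
    calc 2 * κ * (2 * (C₀ * Real.log n)) = κ * (4 * C₀) * Real.log n := by ring
      _ ≤ c₀ * Real.log n := mul_le_mul_of_nonneg_right e1 hlog.le
      _ ≤ 1 * lam := by rw [one_mul]; exact h1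
  -- scale of a displacement
  have hscale : ∀ u v : ℝ, 0 ≤ u → u ≤ 1 → 0 ≤ v → v ≤ 1 →
      1 / C₁ * √((n : ℝ) / Real.log n) * |u - v| ≤
        κ * (1 + |((dig m u : ℕ) : ℝ) - (dig m v : ℕ)|) := by
    intro u v hu0 hu1 hv0 hv1
    have d1 := dig_bound (m := m) hu0 hu1
    have d2 := dig_bound (m := m) hv0 hv1
    have e1 : (m : ℝ) * |u - v| ≤ 1 + |((dig m u : ℕ) : ℝ) - (dig m v : ℕ)| := by
      have e0 : (m : ℝ) * |u - v| = |(m : ℝ) * (u - v)| := by
        rw [abs_mul, abs_of_pos hm']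
      rw [e0, mul_sub, abs_le]
      have a1 := le_abs_self (((dig m u : ℕ) : ℝ) - (dig m v : ℕ))
      have a2 := neg_abs_le (((dig m u : ℕ) : ℝ) - (dig m v : ℕ))
      constructor <;> linarith [d1.1, d1.2, d2.1, d2.2]
    have e2 : √((n : ℝ) / Real.log n) ≤ s * m := by
      rw [hs, Real.sqrt_le_left (by positivity)]
      rw [mul_pow, Real.sq_sqrt (by positivity), div_le_iff₀ hlog]
      rw [div_le_iff₀ (by positivity)] at h2
      linarith
    calc 1 / C₁ * √((n : ℝ) / Real.log n) * |u - v| ≤ 1 / C₁ * (s * m) * |u - v| := by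
          refine mul_le_mul_of_nonneg_right (mul_le_mul_of_nonneg_left e2 (by positivity))
            (abs_nonneg _)
      _ = κ * (m * |u - v|) := by
          rw [hκdef]
          ring
      _ ≤ _ := mul_le_mul_of_nonneg_left e1 hκ.le
  obtain ⟨σ, hσ⟩ := transfer (m := m) (n := n) hlampos
    (fun i => (((digs m x i).1 : ℕ), ((digs m x i).2 : ℕ)))
    (fun i => (((digs m y i).1 : ℕ), ((digs m y i).2 : ℕ)))
    (by
      intro a ha b hb
      have := hgx a ha b hb
      simpa [cnt, Prod.ext_iff] using this)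
    (by
      intro a ha b hb
      have := hgy a ha b hb
      simpa [cnt, Prod.ext_iff] using this)
    (fun i => ⟨(digs m x i).1.2, (digs m x i).2.2⟩)
    (fun i => ⟨(digs m y i).1.2, (digs m y i).2.2⟩)
    f₁ f₂ hb1 hb2
    (by
      intro a ha b hb
      have := hdiv a ha b hb
      simpa [cnt, Prod.ext_iff] using this)
    (fun u => Real.exp ((κ * u) ^ α₁)) (fun u => Real.exp ((κ * u) ^ α₂))
    (convexOn_g hκ.le hα₁) (convexOn_g hκ.le hα₂)
    (monotoneOn_g hκ.le (by linarith)) (monotoneOn_g hκ.le (by linarith))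
    (Real.exp_pos _).le (Real.exp_pos _).le
    (fun i j => Real.exp ((1 / C₁ * √((n : ℝ) / Real.log n) * |(x i).1 - (y j).1|) ^ α₁) +
      Real.exp ((1 / C₁ * √((n : ℝ) / Real.log n) * |(x i).2 - (y j).2|) ^ α₂))
    (by
      intro i j
      have hxi := hx i
      have hyj := hy j
      refine add_le_add (Real.exp_le_exp.2 (Real.rpow_le_rpow (by positivity) ?_ (by linarith)))
        (Real.exp_le_exp.2 (Real.rpow_le_rpow (by positivity) ?_ (by linarith)))
      · exact hscale _ _ hxi.1.1 hxi.1.2 hyj.1.1 hyj.1.2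
      · exact hscale _ _ hxi.2.1 hxi.2.2 hyj.2.1 hyj.2.2)
  refine ⟨σ, ?_⟩
  have hsplit : cost α₁ α₂ C₁ n x y σ ≤ ∑ i,
      (Real.exp ((1 / C₁ * √((n : ℝ) / Real.log n) * |(x i).1 - (y (σ i)).1|) ^ α₁) +
      Real.exp ((1 / C₁ * √((n : ℝ) / Real.log n) * |(x i).2 - (y (σ i)).2|) ^ α₂)) := by
    unfold cost
    rw [Finset.sum_add_distrib]
    refine max_le ?_ ?_
    · have : 0 ≤ ∑ i, Real.exp ((1 / C₁ * √((n : ℝ) / Real.log n) *
        |(x i).2 - (y (σ i)).2|) ^ α₂) := Finset.sum_nonneg fun i _ => (Real.exp_pos _).le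
      linarith
    · have : 0 ≤ ∑ i, Real.exp ((1 / C₁ * √((n : ℝ) / Real.log n) *
        |(x i).1 - (y (σ i)).1|) ^ α₁) := Finset.sum_nonneg fun i _ => (Real.exp_pos _).le
      linarith
  refine hsplit.trans (hσ.trans ?_)
  have hterm : ∑ a ∈ range m, ∑ b ∈ range m,
      (Real.exp ((κ * (3 + 2 * max |f₁ a b| |f₁ (a + 1) b| / lam)) ^ α₁) +
        Real.exp ((κ * (3 + 2 * max |f₂ a b| |f₂ a (b + 1)| / lam)) ^ α₂)) ≤
      Real.exp 1 * (2 * (C * (m : ℝ) ^ 2)) + Real.exp 1 * (2 * (C * (m : ℝ) ^ 2)) := by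
    calc _ ≤ ∑ a ∈ range m, ∑ b ∈ range m,
          (Real.exp 1 * (Real.exp ((|f₁ a b| / (C₀ * Real.log n)) ^ α₁) +
            Real.exp ((|f₁ (a + 1) b| / (C₀ * Real.log n)) ^ α₁)) +
          Real.exp 1 * (Real.exp ((|f₂ a b| / (C₀ * Real.log n)) ^ α₂) +
            Real.exp ((|f₂ a (b + 1)| / (C₀ * Real.log n)) ^ α₂))) :=
          Finset.sum_le_sum fun a _ => Finset.sum_le_sum fun b _ =>
            add_le_add (g_term hκ.le hκ1 (by linarith) hlampos hL hκ2)
              (g_term hκ.le hκ1 (by linarith) hlampos hL hκ2)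
      _ = Real.exp 1 * (∑ a ∈ range m, ∑ b ∈ range m,
          (Real.exp ((|f₁ a b| / (C₀ * Real.log n)) ^ α₁) +
            Real.exp ((|f₁ (a + 1) b| / (C₀ * Real.log n)) ^ α₁))) +
          Real.exp 1 * (∑ a ∈ range m, ∑ b ∈ range m,
          (Real.exp ((|f₂ a b| / (C₀ * Real.log n)) ^ α₂) +
            Real.exp ((|f₂ a (b + 1)| / (C₀ * Real.log n)) ^ α₂))) := by
          rw [Finset.mul_sum, Finset.mul_sum, ← Finset.sum_add_distrib]
          refine Finset.sum_congr rfl fun a _ => ?_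
          rw [Finset.mul_sum, Finset.mul_sum, ← Finset.sum_add_distrib]
      _ ≤ _ := by
          refine add_le_add (mul_le_mul_of_nonneg_left ?_ (Real.exp_pos 1).le)
            (mul_le_mul_of_nonneg_left ?_ (Real.exp_pos 1).le)
          · refine (sum_edges1 m (fun a b => Real.exp ((|f₁ a b| / (C₀ * Real.log n)) ^ α₁))
              (fun a b => (Real.exp_pos _).le)).trans ?_
            linarith
          · refine (sum_edges2 m (fun a b => Real.exp ((|f₂ a b| / (C₀ * Real.log n)) ^ α₂))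
              (fun a b => (Real.exp_pos _).le)).trans ?_
            linarith
  have hlm : lam * (m : ℝ) ^ 2 = n := by
    rw [hlam]
    field_simp
  calc 3 / 2 * lam * ∑ a ∈ range m, ∑ b ∈ range m,
      (Real.exp ((κ * (3 + 2 * max |f₁ a b| |f₁ (a + 1) b| / lam)) ^ α₁) +
        Real.exp ((κ * (3 + 2 * max |f₂ a b| |f₂ a (b + 1)| / lam)) ^ α₂))
      ≤ 3 / 2 * lam * (Real.exp 1 * (2 * (C * (m : ℝ) ^ 2)) +
          Real.exp 1 * (2 * (C * (m : ℝ) ^ 2))) :=
        mul_le_mul_of_nonneg_left hterm (by positivity)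
    _ = 6 * Real.exp 1 * C * (lam * (m : ℝ) ^ 2) := by ring
    _ = 6 * Real.exp 1 * C * n := by rw [hlm]
    _ ≤ C₁ * n := mul_le_mul_of_nonneg_right hC3 (by positivity)

/-! ### From uniform points to uniform cells -/

instance : IsProbabilityMeasure unifSq := by
  constructor
  unfold unifSq
  rw [Measure.restrict_apply MeasurableSet.univ, Set.univ_inter, Measure.volume_eq_prod,
    Measure.prod_prod]
  simp

theorem unifSq_cell {m : ℕ} [NeZero m] (a b : Fin m) :
    unifSq {p | (dig m p.1, dig m p.2) = (a, b)} ≤ ENNReal.ofReal (1 / (m : ℝ) ^ 2) := by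
  have hm := NeZero.pos m
  have hm' : (0 : ℝ) < m := by exact_mod_cast hm
  unfold unifSq
  rw [Measure.restrict_apply' (measurableSet_Icc.prod measurableSet_Icc)]
  have hsub : {p : ℝ × ℝ | (dig m p.1, dig m p.2) = (a, b)} ∩ Set.Icc (0 : ℝ) 1 ×ˢ Set.Icc (0 : ℝ) 1 ⊆
      Set.Icc (((a : ℕ) : ℝ) / m) ((((a : ℕ) : ℝ) + 1) / m) ×ˢ
        Set.Icc (((b : ℕ) : ℝ) / m) ((((b : ℕ) : ℝ) + 1) / m) := by
    rintro ⟨x, y⟩ ⟨h, hx, hy⟩
    simp only [Set.mem_ofPred_eq, Prod.mk.injEq] at h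
    have d1 := dig_bound (m := m) hx.1 hx.2
    have d2 := dig_bound (m := m) hy.1 hy.2
    simp only at d1 d2
    rw [h.1] at d1
    rw [h.2] at d2
    refine ⟨⟨?_, ?_⟩, ⟨?_, ?_⟩⟩
    · rw [div_le_iff₀ hm']; linarith [d1.1]
    · rw [le_div_iff₀ hm']; linarith [d1.2]
    · rw [div_le_iff₀ hm']; linarith [d2.1]
    · rw [le_div_iff₀ hm']; linarith [d2.2]
  refine (measure_mono hsub).trans ?_
  rw [Measure.volume_eq_prod, Measure.prod_prod, Real.volume_Icc, Real.volume_Icc,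
    ← ENNReal.ofReal_mul]
  · refine le_of_eq ?_
    congr 1
    field_simp
    ring
  · rw [← sub_div]
    have : ((a : ℕ) : ℝ) + 1 - ((a : ℕ) : ℝ) = 1 := by ring
    rw [this]
    positivity

theorem digs_measure {n m : ℕ} [NeZero m]
    (E : (Fin n → Fin m × Fin m) → (Fin n → Fin m × Fin m) → Prop) :
    ((Measure.pi fun _ : Fin n => unifSq).prod (Measure.pi fun _ : Fin n => unifSq))
      {z | E (digs m z.1) (digs m z.2)} ≤ ENNReal.ofReal (frac n m E) := by
  classical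
  have hm := NeZero.pos m
  have hm' : (0 : ℝ) < m := by exact_mod_cast hm
  set μ := (Measure.pi fun _ : Fin n => unifSq).prod (Measure.pi fun _ : Fin n => unifSq) with hμ
  set B := univ.filter fun w : (Fin n → Fin m × Fin m) × (Fin n → Fin m × Fin m) => E w.1 w.2
    with hB
  have hsub : {z : (Fin n → ℝ × ℝ) × (Fin n → ℝ × ℝ) | E (digs m z.1) (digs m z.2)} ⊆
      ⋃ w ∈ B, (Set.univ.pi fun i => {p : ℝ × ℝ | (dig m p.1, dig m p.2) = w.1 i}) ×ˢ
        (Set.univ.pi fun i => {p : ℝ × ℝ | (dig m p.1, dig m p.2) = w.2 i}) := by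
    intro z hz
    rw [Set.mem_iUnion₂]
    refine ⟨(digs m z.1, digs m z.2), ?_, ?_⟩
    · rw [hB]
      simpa using hz
    · refine ⟨?_, ?_⟩
      · rw [Set.mem_univ_pi]
        intro i
        rfl
      · rw [Set.mem_univ_pi]
        intro i
        rfl
  have hcell : ∀ w : (Fin n → Fin m × Fin m) × (Fin n → Fin m × Fin m),
      μ ((Set.univ.pi fun i => {p : ℝ × ℝ | (dig m p.1, dig m p.2) = w.1 i}) ×ˢ
        (Set.univ.pi fun i => {p : ℝ × ℝ | (dig m p.1, dig m p.2) = w.2 i})) ≤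
      ENNReal.ofReal (1 / (m : ℝ) ^ 2) ^ (2 * n) := by
    intro w
    rw [hμ, Measure.prod_prod, Measure.pi_pi, Measure.pi_pi, two_mul, pow_add]
    refine mul_le_mul' ?_ ?_
    · calc ∏ i, unifSq {p : ℝ × ℝ | (dig m p.1, dig m p.2) = w.1 i} ≤
          ∏ _i : Fin n, ENNReal.ofReal (1 / (m : ℝ) ^ 2) :=
            Finset.prod_le_prod' fun i _ => unifSq_cell (w.1 i).1 (w.1 i).2
        _ = _ := by rw [Finset.prod_const, Finset.card_univ, Fintype.card_fin]
    · calc ∏ i, unifSq {p : ℝ × ℝ | (dig m p.1, dig m p.2) = w.2 i} ≤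
          ∏ _i : Fin n, ENNReal.ofReal (1 / (m : ℝ) ^ 2) :=
            Finset.prod_le_prod' fun i _ => unifSq_cell (w.2 i).1 (w.2 i).2
        _ = _ := by rw [Finset.prod_const, Finset.card_univ, Fintype.card_fin]
  calc μ _ ≤ μ (⋃ w ∈ B, (Set.univ.pi fun i => {p : ℝ × ℝ | (dig m p.1, dig m p.2) = w.1 i}) ×ˢ
        (Set.univ.pi fun i => {p : ℝ × ℝ | (dig m p.1, dig m p.2) = w.2 i})) := measure_mono hsub
    _ ≤ ∑ w ∈ B, μ ((Set.univ.pi fun i => {p : ℝ × ℝ | (dig m p.1, dig m p.2) = w.1 i}) ×ˢ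
        (Set.univ.pi fun i => {p : ℝ × ℝ | (dig m p.1, dig m p.2) = w.2 i})) :=
        measure_biUnion_finset_le _ _
    _ ≤ ∑ w ∈ B, ENNReal.ofReal (1 / (m : ℝ) ^ 2) ^ (2 * n) :=
        Finset.sum_le_sum fun w _ => hcell w
    _ = ENNReal.ofReal (frac n m E) := by
        rw [Finset.sum_const, nsmul_eq_mul, ← ENNReal.ofReal_pow (by positivity),
          ← ENNReal.ofReal_natCast, ← ENNReal.ofReal_mul (by positivity)]
        congr 1
        unfold frac
        rw [one_div, inv_pow]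
        rfl

theorem cnt_eq {n m : ℕ} (c : Fin n → Fin m × Fin m) (a b : Fin m) :
    cnt c a b = (univ.filter fun i => c i = (a, b)).card := by
  unfold cnt
  congr 1
  ext i
  simp [Prod.ext_iff, Fin.ext_iff]

/-- Bad counts have small probability. -/
theorem frac_count {n m : ℕ} [NeZero m] :
    frac n m (fun cx cy => ¬ GoodCount ((n : ℝ) / (m : ℝ) ^ 2) cx ∨
      ¬ GoodCount ((n : ℝ) / (m : ℝ) ^ 2) cy) ≤
      4 * (m : ℝ) ^ 2 * Real.exp (-((n : ℝ) / (m : ℝ) ^ 2) / 64) := by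
  classical
  have hm := NeZero.pos m
  have hm' : (0 : ℝ) < m := by exact_mod_cast hm
  set N : ℝ := (m : ℝ) ^ 2 with hN
  have hcardQ : (Fintype.card (Fin m × Fin m) : ℝ) = N := by
    rw [Fintype.card_prod, Fintype.card_fin, hN]
    push_cast
    ring
  have hcard : ((univ : Finset (Fin n → Fin m × Fin m)).card : ℝ) = N ^ n := by
    rw [Finset.card_univ, Fintype.card_fun, Fintype.card_fin]
    push_cast
    rw [hcardQ]
  set A := univ.filter fun c : Fin n → Fin m × Fin m => ¬ GoodCount ((n : ℝ) / N) c with hA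
  have hAle : (A.card : ℝ) ≤ N * (2 * Real.exp (-((n : ℝ) / N) / 64) * N ^ n) := by
    have hsub : A ⊆ univ.biUnion fun q : Fin m × Fin m =>
        univ.filter fun c : Fin n → Fin m × Fin m => ¬ (3 / 4 * ((n : ℝ) / Fintype.card (Fin m × Fin m)) ≤
      ((univ.filter fun i => c i = q).card : ℝ) ∧ ((univ.filter fun i => c i = q).card : ℝ) ≤
        5 / 4 * ((n : ℝ) / Fintype.card (Fin m × Fin m))) := by
      intro c hc
      rw [hA, Finset.mem_filter] at hc
      have h1 := hc.2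
      unfold GoodCount at h1
      push Not at h1
      obtain ⟨a, ha, b, hb, h2⟩ := h1
      rw [Finset.mem_biUnion]
      refine ⟨(⟨a, ha⟩, ⟨b, hb⟩), Finset.mem_univ _, ?_⟩
      rw [Finset.mem_filter]
      refine ⟨Finset.mem_univ _, ?_⟩
      rw [hcardQ, ← cnt_eq c ⟨a, ha⟩ ⟨b, hb⟩]
      intro h3
      exact absurd h3.2 (not_le.2 (h2 h3.1))
    calc (A.card : ℝ) ≤ _ := Nat.cast_le.2 (Finset.card_le_card hsub)
      _ ≤ _ := Nat.cast_le.2 Finset.card_biUnion_le
      _ = ∑ q : Fin m × Fin m, (_ : ℝ) := by push_cast; rfl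
      _ ≤ ∑ _q : Fin m × Fin m, (2 * Real.exp (-((n : ℝ) / N) / 64) * N ^ n) := by
          refine Finset.sum_le_sum fun q _ => ?_
          have := chernoff (n := n) q
          rw [hcardQ] at this
          rw [hcardQ]
          exact this
      _ = _ := by rw [Finset.sum_const, Finset.card_univ, nsmul_eq_mul, hcardQ]
  unfold frac
  rw [div_le_iff₀ (by positivity)]
  have hsub2 : (univ.filter fun w : (Fin n → Fin m × Fin m) × (Fin n → Fin m × Fin m) =>
      ¬ GoodCount ((n : ℝ) / N) w.1 ∨ ¬ GoodCount ((n : ℝ) / N) w.2) ⊆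
      A ×ˢ (univ : Finset (Fin n → Fin m × Fin m)) ∪
        (univ : Finset (Fin n → Fin m × Fin m)) ×ˢ A := by
    intro w hw
    rw [Finset.mem_filter] at hw
    rw [Finset.mem_union, Finset.mem_product, Finset.mem_product, hA]
    simp only [Finset.mem_filter, Finset.mem_univ, true_and, and_true]
    exact hw.2
  have hsub3 := Nat.cast_le (α := ℝ).2 (Finset.card_le_card hsub2)
  suffices key : ((A ×ˢ (univ : Finset (Fin n → Fin m × Fin m)) ∪
        (univ : Finset (Fin n → Fin m × Fin m)) ×ˢ A).card : ℝ) ≤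
        4 * N * Real.exp (-((n : ℝ) / N) / 64) * N ^ (2 * n) by
    have h9 := hsub3.trans key
    convert h9
    rfl
  calc ((A ×ˢ (univ : Finset (Fin n → Fin m × Fin m)) ∪
        (univ : Finset (Fin n → Fin m × Fin m)) ×ˢ A).card : ℝ)
      ≤ ((A.card * (univ : Finset (Fin n → Fin m × Fin m)).card +
        (univ : Finset (Fin n → Fin m × Fin m)).card * A.card : ℕ) : ℝ) := by
        refine Nat.cast_le.2 ((Finset.card_union_le _ _).trans ?_)
        rw [Finset.card_product, Finset.card_product]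
    _ = 2 * (A.card * N ^ n) := by
        push_cast
        rw [hcard]
        ring
    _ ≤ 2 * ((N * (2 * Real.exp (-((n : ℝ) / N) / 64) * N ^ n)) * N ^ n) := by
        refine mul_le_mul_of_nonneg_left (mul_le_mul_of_nonneg_right hAle (by positivity))
          (by norm_num)
    _ = 4 * N * Real.exp (-((n : ℝ) / N) / 64) * N ^ (2 * n) := by
        rw [two_mul n, pow_add]
        ring

/-- MAIN ASSEMBLY: the flow statement implies the matching statement with high probability. -/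
theorem matching_of_flow {α₁ α₂ : ℝ} (hα₁ : 1 ≤ α₁) (hα₂ : 1 ≤ α₂) {p : ℕ} {c₀ : ℝ}
    (hc₀ : 64 * ((p : ℝ) + 3) ≤ c₀) {err : ℕ → ℝ} (hflow : S_FLOW α₁ α₂ c₀ err) :
    ∃ C : ℝ, 0 < C ∧ ∀ n : ℕ, 2 ≤ n →
      ((Measure.pi fun _ : Fin n => unifSq).prod (Measure.pi fun _ : Fin n => unifSq))
        {z | ¬ ∃ σ : Equiv.Perm (Fin n), cost α₁ α₂ C n z.1 z.2 σ ≤ C * n} ≤
      ENNReal.ofReal (err n) + ENNReal.ofReal (1 / (n : ℝ) ^ p) := by
  obtain ⟨C₀, hC₀, C, hC, hF⟩ := hflow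
  have hc₀pos : 0 < c₀ := by
    have : (0 : ℝ) ≤ p := by positivity
    linarith
  obtain ⟨n₀, hn₀⟩ : ∃ n₀ : ℕ, ∀ n : ℕ, n₀ ≤ n → c₀ * Real.log n ≤ n := by
    have h1 := Real.isLittleO_log_id_atTop.bound (show 0 < 1 / c₀ by positivity)
    rw [Filter.eventually_atTop] at h1
    obtain ⟨x₀, hx₀⟩ := h1
    refine ⟨max 1 ⌈x₀⌉₊, ?_⟩
    intro n hn
    have hn1 : 1 ≤ n := (le_max_left _ _).trans hn
    have hn2 : x₀ ≤ n := (Nat.le_ceil x₀).trans (by exact_mod_cast (le_max_right _ _).trans hn)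
    have := hx₀ n hn2
    have hn3 : (1 : ℝ) ≤ n := by exact_mod_cast hn1
    rw [Real.norm_of_nonneg (Real.log_nonneg hn3), id, Real.norm_of_nonneg (by linarith)] at this
    calc c₀ * Real.log n ≤ c₀ * (1 / c₀ * n) := mul_le_mul_of_nonneg_left this hc₀pos.le
      _ = n := by field_simp
  set C₁ : ℝ := max (max (6 * √(4 * c₀)) (4 * C₀ / c₀ * √(4 * c₀)))
    (max (max (6 * Real.exp 1 * C) (Real.exp 1)) (√((n₀ : ℝ) / Real.log 2))) with hC₁
  have b1 : 6 * √(4 * c₀) ≤ C₁ := (le_max_left _ _).trans (le_max_left _ _)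
  have b2 : 4 * C₀ / c₀ * √(4 * c₀) ≤ C₁ := (le_max_right _ _).trans (le_max_left _ _)
  have b3 : 6 * Real.exp 1 * C ≤ C₁ :=
    ((le_max_left _ _).trans (le_max_left _ _)).trans (le_max_right _ _)
  have b4 : Real.exp 1 ≤ C₁ :=
    ((le_max_right _ _).trans (le_max_left _ _)).trans (le_max_right _ _)
  have b5 : √((n₀ : ℝ) / Real.log 2) ≤ C₁ := (le_max_right _ _).trans (le_max_right _ _)
  have hC₁pos : 0 < C₁ := lt_of_lt_of_le (Real.exp_pos 1) b4
  refine ⟨C₁, hC₁pos, ?_⟩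
  intro n hn
  have hn' : (2 : ℝ) ≤ n := by exact_mod_cast hn
  have hlog : 0 < Real.log n := Real.log_pos (by linarith)
  set μ := (Measure.pi fun _ : Fin n => unifSq).prod (Measure.pi fun _ : Fin n => unifSq) with hμ
  have hsq : ∀ᵐ z ∂μ, (∀ i, z.1 i ∈ Set.Icc (0 : ℝ) 1 ×ˢ Set.Icc (0 : ℝ) 1) ∧
      ∀ i, z.2 i ∈ Set.Icc (0 : ℝ) 1 ×ˢ Set.Icc (0 : ℝ) 1 := by
    have h0 : ∀ᵐ p ∂unifSq, p ∈ Set.Icc (0 : ℝ) 1 ×ˢ Set.Icc (0 : ℝ) 1 :=
      ae_restrict_mem (measurableSet_Icc.prod measurableSet_Icc)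
    have h1 : ∀ᵐ x ∂(Measure.pi fun _ : Fin n => unifSq),
        ∀ i, x i ∈ Set.Icc (0 : ℝ) 1 ×ˢ Set.Icc (0 : ℝ) 1 := by
      rw [ae_all_iff]
      intro i
      exact (Measure.quasiMeasurePreserving_eval (μ := fun _ : Fin n => unifSq) i).ae h0
    refine Filter.Eventually.and ?_ ?_
    · exact Measure.quasiMeasurePreserving_fst.ae h1
    · exact Measure.quasiMeasurePreserving_snd.ae h1
  rcases Nat.lt_or_ge n n₀ with hsmall | hlarge
  · -- small n
    have hzero : μ {z | ¬ ∃ σ : Equiv.Perm (Fin n), cost α₁ α₂ C₁ n z.1 z.2 σ ≤ C₁ * n} = 0 := by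
      have : ∀ᵐ z ∂μ, ∃ σ : Equiv.Perm (Fin n), cost α₁ α₂ C₁ n z.1 z.2 σ ≤ C₁ * n := by
        filter_upwards [hsq] with z hz
        refine ⟨1, ?_⟩
        have hterm : ∀ u v α : ℝ, 0 ≤ α → 0 ≤ u → u ≤ 1 → 0 ≤ v → v ≤ 1 →
            Real.exp ((1 / C₁ * √((n : ℝ) / Real.log n) * |u - v|) ^ α) ≤ Real.exp 1 := by
          intro u v α hα hu0 hu1 hv0 hv1
          refine Real.exp_le_exp.2 ?_
          have habs : |u - v| ≤ 1 := by
            rw [abs_le]
            constructor <;> linarith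
          have hs : √((n : ℝ) / Real.log n) ≤ C₁ := by
            refine le_trans (Real.sqrt_le_sqrt ?_) b5
            have hl2 : 0 < Real.log 2 := Real.log_pos (by norm_num)
            have : Real.log 2 ≤ Real.log n := Real.log_le_log (by norm_num) hn'
            have hnn : (n : ℝ) ≤ n₀ := by exact_mod_cast hsmall.le
            exact div_le_div₀ (by positivity) hnn hl2 this
          have h1 : 1 / C₁ * √((n : ℝ) / Real.log n) * |u - v| ≤ 1 := by
            calc 1 / C₁ * √((n : ℝ) / Real.log n) * |u - v| ≤ 1 / C₁ * C₁ * 1 := by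
                  refine mul_le_mul (mul_le_mul_of_nonneg_left hs (by positivity)) habs
                    (abs_nonneg _) (by positivity)
              _ = 1 := by field_simp
          exact Real.rpow_le_one (by positivity) h1 hα
        unfold cost
        have hn0 : (0 : ℝ) ≤ n := by positivity
        refine max_le ?_ ?_
        · calc _ ≤ ∑ _i : Fin n, Real.exp 1 := Finset.sum_le_sum fun i _ =>
                hterm _ _ _ (by linarith) (hz.1 i).1.1 (hz.1 i).1.2 (hz.2 _).1.1 (hz.2 _).1.2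
            _ = n * Real.exp 1 := by
                rw [Finset.sum_const, Finset.card_univ, Fintype.card_fin, nsmul_eq_mul]
            _ ≤ C₁ * n := by
                rw [mul_comm]
                exact mul_le_mul_of_nonneg_right b4 hn0
        · calc _ ≤ ∑ _i : Fin n, Real.exp 1 := Finset.sum_le_sum fun i _ =>
                hterm _ _ _ (by linarith) (hz.1 i).2.1 (hz.1 i).2.2 (hz.2 _).2.1 (hz.2 _).2.2
            _ = n * Real.exp 1 := by
                rw [Finset.sum_const, Finset.card_univ, Fintype.card_fin, nsmul_eq_mul]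
            _ ≤ C₁ * n := by
                rw [mul_comm]
                exact mul_le_mul_of_nonneg_right b4 hn0
      exact this
    rw [hzero]
    exact bot_le
  · -- large n
    have hx1 : (1 : ℝ) ≤ n / (c₀ * Real.log n) := by
      rw [le_div_iff₀ (by positivity), one_mul]
      exact hn₀ n hlarge
    obtain ⟨k, hk1, hk2⟩ := exists_nat_pow_near hx1 (show (1 : ℝ) < 4 by norm_num)
    have h4 : (0 : ℝ) < 4 ^ k := by positivity
    have hL1 : c₀ * Real.log n ≤ (n : ℝ) / 4 ^ k := by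
      rw [le_div_iff₀ (by positivity)] at hk1 ⊢
      linarith
    have hL2 : (n : ℝ) / 4 ^ k ≤ 4 * c₀ * Real.log n := by
      rw [div_lt_iff₀ (by positivity)] at hk2
      rw [div_le_iff₀ h4]
      rw [pow_succ] at hk2
      linarith
    set m : ℕ := 2 ^ k with hm
    have : NeZero m := ⟨by rw [hm]; positivity⟩
    have hm2 : ((m : ℝ)) ^ 2 = 4 ^ k := by
      rw [hm]
      push_cast
      rw [← pow_mul, mul_comm k 2, pow_mul]
      norm_num
    rw [← hm2] at hL1 hL2 h4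
    have hFn := hF n k hn (by rw [← hm2]; exact hL1) (by rw [← hm2]; exact hL2)
    have hcov : {z : (Fin n → ℝ × ℝ) × (Fin n → ℝ × ℝ) |
        ¬ ∃ σ : Equiv.Perm (Fin n), cost α₁ α₂ C₁ n z.1 z.2 σ ≤ C₁ * n} ≤ᵐ[μ]
        ({z | ¬ GoodFlow α₁ α₂ (C₀ * Real.log n) C (digs m z.1) (digs m z.2)} ∪
        {z | ¬ GoodCount ((n : ℝ) / (m : ℝ) ^ 2) (digs m z.1) ∨
          ¬ GoodCount ((n : ℝ) / (m : ℝ) ^ 2) (digs m z.2)} :
          Set ((Fin n → ℝ × ℝ) × (Fin n → ℝ × ℝ))) := by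
      filter_upwards [hsq] with z hz hbad
      by_contra hgood
      have hg : ¬ (z ∈ {z : (Fin n → ℝ × ℝ) × (Fin n → ℝ × ℝ) |
          ¬ GoodFlow α₁ α₂ (C₀ * Real.log n) C (digs m z.1) (digs m z.2)} ∪
        {z | ¬ GoodCount ((n : ℝ) / (m : ℝ) ^ 2) (digs m z.1) ∨
          ¬ GoodCount ((n : ℝ) / (m : ℝ) ^ 2) (digs m z.2)}) := hgood
      rw [Set.mem_union, Set.mem_ofPred_eq, Set.mem_ofPred_eq] at hg
      push Not at hg
      exact hbad (det_impl hα₁ hα₂ hc₀pos hC₀ b1 b2 b3 hn hL1 hL2 z.1 z.2 hz.1 hz.2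
        hg.2.1 hg.2.2 hg.1)
    have hcount : frac n m (fun cx cy => ¬ GoodCount ((n : ℝ) / (m : ℝ) ^ 2) cx ∨
        ¬ GoodCount ((n : ℝ) / (m : ℝ) ^ 2) cy) ≤ 1 / (n : ℝ) ^ p := by
      refine frac_count.trans ?_
      have hln2 : (1 : ℝ) / 2 ≤ Real.log 2 := by
        have := Real.log_two_gt_d9
        linarith
      have hlogn : Real.log 2 ≤ Real.log n := Real.log_le_log (by norm_num) hn'
      have hmn : (m : ℝ) ^ 2 ≤ n := by
        rw [le_div_iff₀ h4] at hL1
        have : (1 : ℝ) ≤ c₀ * Real.log n := by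
          have hp : (0 : ℝ) ≤ p := by positivity
          nlinarith
        nlinarith
      have hexp : Real.exp (-((n : ℝ) / (m : ℝ) ^ 2) / 64) ≤ 1 / (n : ℝ) ^ (p + 3) := by
        have h1 : -((n : ℝ) / (m : ℝ) ^ 2) / 64 ≤ -(((p + 3 : ℕ) : ℝ) * Real.log n) := by
          have h2 : 64 * ((p : ℝ) + 3) * Real.log n ≤ (n : ℝ) / (m : ℝ) ^ 2 :=
            (mul_le_mul_of_nonneg_right hc₀ hlog.le).trans hL1
          push_cast
          linarith
        calc Real.exp (-((n : ℝ) / (m : ℝ) ^ 2) / 64) ≤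
            Real.exp (-(((p + 3 : ℕ) : ℝ) * Real.log n)) := Real.exp_le_exp.2 h1
          _ = 1 / (n : ℝ) ^ (p + 3) := by
              rw [Real.exp_neg, Real.exp_nat_mul, Real.exp_log (by linarith), one_div]
      calc 4 * (m : ℝ) ^ 2 * Real.exp (-((n : ℝ) / (m : ℝ) ^ 2) / 64)
          ≤ 4 * n * (1 / (n : ℝ) ^ (p + 3)) :=
            mul_le_mul (by linarith) hexp (Real.exp_pos _).le (by positivity)
        _ ≤ 1 / (n : ℝ) ^ p := by
            rw [mul_one_div, div_le_div_iff₀ (by positivity) (by positivity), one_mul, pow_add]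
            have hp : (0 : ℝ) < (n : ℝ) ^ p := by positivity
            have h8 : 4 * (n : ℝ) ≤ (n : ℝ) ^ 3 := by nlinarith [mul_self_nonneg ((n : ℝ) - 2)]
            nlinarith
    calc μ _ ≤ _ := measure_mono_ae hcov
      _ ≤ _ := measure_union_le _ _
      _ ≤ ENNReal.ofReal (err n) + ENNReal.ofReal (1 / (n : ℝ) ^ p) := by
          refine add_le_add ?_ ?_
          · exact (digs_measure (fun cx cy => ¬ GoodFlow α₁ α₂ (C₀ * Real.log n) C cx cy)).trans
              (ENNReal.ofReal_le_ofReal hFn)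
          · exact (digs_measure (fun cx cy => ¬ GoodCount ((n : ℝ) / (m : ℝ) ^ 2) cx ∨
              ¬ GoodCount ((n : ℝ) / (m : ℝ) ^ 2) cy)).trans (ENNReal.ofReal_le_ofReal hcount)

end Pool.UMC
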