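import Pool.Agent.H85.UMC.Dual
import Pool.Agent.H85.UMC.Final

/-!
Grid version of the passage from the dual inequality to a flow.
-/

open Finset

namespace Pool.UMC

theorem phi_neg (b s : ℝ) : phi b (-s) = phi b s := by
  unfold phi
  rw [abs_neg, neg_sq]

theorem phi_nonneg (b s : ℝ) : 0 ≤ phi b s :=
  mul_nonneg (abs_nonneg _) (Real.rpow_nonneg (by linarith [ell_one_le s]) _)

/-- The dual inequality for the cell function `w` on the `m × m` grid. -/
def DualIneq (β₁ β₂ A N : ℝ) (m : ℕ) (w : ℕ → ℕ → ℝ) : Prop :=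
  ∀ F : ℕ → ℕ → ℝ, ∑ a ∈ range m, ∑ b ∈ range m, w a b * F a b ≤
    A * (∑ a ∈ range (m - 1), ∑ b ∈ range m, phi β₁ (F (a + 1) b - F a b) +
      ∑ a ∈ range m, ∑ b ∈ range (m - 1), phi β₂ (F a (b + 1) - F a b) + N)

/-- Abel summation in one direction. -/
theorem abel1 (m : ℕ) (f F : ℕ → ℝ) (h0 : f 0 = 0) (hm : f m = 0) :
    ∑ a ∈ range m, (f (a + 1) - f a) * F a =
      ∑ a ∈ range (m - 1), f (a + 1) * (F a - F (a + 1)) := by
  rcases m with _ | m
  · simp
  · rw [Nat.add_sub_cancel]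
    have key : ∀ k, ∑ a ∈ range (k + 1), (f (a + 1) - f a) * F a =
        f (k + 1) * F k + ∑ a ∈ range k, f (a + 1) * (F a - F (a + 1)) := by
      intro k
      induction k with
      | zero => simp [h0]
      | succ k ih =>
        rw [Finset.sum_range_succ, ih, Finset.sum_range_succ _ k]
        ring
    rw [key m, hm]
    ring

/-- Paths in the grid: the value at any cell is controlled by the value at the origin. -/
theorem grid_conn {m : ℕ} (F : ℕ → ℕ → ℝ) {a b : ℕ} (ha : a < m) (hb : b < m) :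
    |F a b| ≤ |F 0 0| + (∑ x ∈ range (m - 1), ∑ y ∈ range m, |F (x + 1) y - F x y| +
      ∑ x ∈ range m, ∑ y ∈ range (m - 1), |F x (y + 1) - F x y|) := by
  have h1 : |F a b| ≤ |F 0 b| + ∑ x ∈ range (m - 1), |F (x + 1) b - F x b| := by
    have e : F a b = F 0 b + ∑ x ∈ range a, (F (x + 1) b - F x b) := by
      rw [Finset.sum_range_sub (fun x => F x b)]
      ring
    calc |F a b| ≤ |F 0 b| + |∑ x ∈ range a, (F (x + 1) b - F x b)| := by
          rw [e]
          exact (abs_add_le _ _)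
      _ ≤ |F 0 b| + ∑ x ∈ range a, |F (x + 1) b - F x b| := by
          have := Finset.abs_sum_le_sum_abs (fun x => F (x + 1) b - F x b) (range a)
          linarith
      _ ≤ _ := by
          have : ∑ x ∈ range a, |F (x + 1) b - F x b| ≤
              ∑ x ∈ range (m - 1), |F (x + 1) b - F x b| :=
            Finset.sum_le_sum_of_subset_of_nonneg (Finset.range_subset_range.2 (by omega))
              fun x _ _ => abs_nonneg _
          linarith
  have h2 : |F 0 b| ≤ |F 0 0| + ∑ y ∈ range (m - 1), |F 0 (y + 1) - F 0 y| := by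
    have e : F 0 b = F 0 0 + ∑ y ∈ range b, (F 0 (y + 1) - F 0 y) := by
      rw [Finset.sum_range_sub (fun y => F 0 y)]
      ring
    calc |F 0 b| ≤ |F 0 0| + |∑ y ∈ range b, (F 0 (y + 1) - F 0 y)| := by
          rw [e]
          exact (abs_add_le _ _)
      _ ≤ |F 0 0| + ∑ y ∈ range b, |F 0 (y + 1) - F 0 y| := by
          have := Finset.abs_sum_le_sum_abs (fun y => F 0 (y + 1) - F 0 y) (range b)
          linarith
      _ ≤ _ := by
          have : ∑ y ∈ range b, |F 0 (y + 1) - F 0 y| ≤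
              ∑ y ∈ range (m - 1), |F 0 (y + 1) - F 0 y| :=
            Finset.sum_le_sum_of_subset_of_nonneg (Finset.range_subset_range.2 (by omega))
              fun x _ _ => abs_nonneg _
          linarith
  have h3 : ∑ x ∈ range (m - 1), |F (x + 1) b - F x b| ≤
      ∑ x ∈ range (m - 1), ∑ y ∈ range m, |F (x + 1) y - F x y| := by
    refine Finset.sum_le_sum fun x _ => ?_
    exact Finset.single_le_sum (f := fun y => |F (x + 1) y - F x y|) (fun y _ => abs_nonneg _)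
      (Finset.mem_range.2 hb)
  have h4 : ∑ y ∈ range (m - 1), |F 0 (y + 1) - F 0 y| ≤
      ∑ x ∈ range m, ∑ y ∈ range (m - 1), |F x (y + 1) - F x y| :=
    Finset.single_le_sum (f := fun x => ∑ y ∈ range (m - 1), |F x (y + 1) - F x y|)
      (fun x _ => Finset.sum_nonneg fun y _ => abs_nonneg _) (Finset.mem_range.2 (by omega))
  linarith

section

variable (m : ℕ)

/-- Edges of the grid. -/
abbrev GE := (Fin (m - 1) × Fin m) ⊕ (Fin m × Fin (m - 1))

/-- First end of an edge. -/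
def gsrc : GE m → Fin m × Fin m
  | Sum.inl e => (⟨e.1, by have := e.1.2; omega⟩, e.2)
  | Sum.inr e => (e.1, ⟨e.2, by have := e.2.2; omega⟩)

/-- Second end of an edge. -/
def gtgt : GE m → Fin m × Fin m
  | Sum.inl e => (⟨e.1 + 1, by have := e.1.2; omega⟩, e.2)
  | Sum.inr e => (e.1, ⟨e.2 + 1, by have := e.2.2; omega⟩)

variable {m}

/-- Extension of a function on the grid to `ℕ × ℕ`. -/
noncomputable def ext (F : Fin m × Fin m → ℝ) (a b : ℕ) : ℝ :=
  if h : a < m ∧ b < m then F (⟨a, h.1⟩, ⟨b, h.2⟩) else 0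

theorem ext_apply (F : Fin m × Fin m → ℝ) (v : Fin m × Fin m) : ext F v.1 v.2 = F v := by
  unfold ext
  rw [dif_pos ⟨v.1.2, v.2.2⟩]

theorem sum_ext (g : ℕ → ℕ → ℝ) :
    ∑ v : Fin m × Fin m, g v.1 v.2 = ∑ a ∈ range m, ∑ b ∈ range m, g a b := by
  rw [Fintype.sum_prod_type, Finset.sum_range]
  refine Finset.sum_congr rfl fun a _ => ?_
  rw [Finset.sum_range]

theorem sum_GE (g₁ g₂ : ℕ → ℕ → ℝ) :
    ∑ e : GE m, (match e with
      | Sum.inl e => g₁ e.1 e.2
      | Sum.inr e => g₂ e.1 e.2) =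
      ∑ a ∈ range (m - 1), ∑ b ∈ range m, g₁ a b + ∑ a ∈ range m, ∑ b ∈ range (m - 1), g₂ a b := by
  rw [Fintype.sum_sum_type]
  congr 1
  · rw [Fintype.sum_prod_type, Finset.sum_range]
    refine Finset.sum_congr rfl fun a _ => ?_
    rw [Finset.sum_range]
  · rw [Fintype.sum_prod_type, Finset.sum_range]
    refine Finset.sum_congr rfl fun a _ => ?_
    rw [Finset.sum_range]

/-- DUAL INEQUALITY TO FLOW on the grid. -/
theorem grid_flow {α₁ α₂ : ℝ} (hα₁ : 1 ≤ α₁) (hα₂ : 1 ≤ α₂) (hm : 0 < m) (w : ℕ → ℕ → ℝ)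
    {A N : ℝ} (hA : 0 < A) (h : DualIneq (1 / α₁) (1 / α₂) A N m w) :
    ∃ f₁ f₂ : ℕ → ℕ → ℝ, (∀ b < m, f₁ 0 b = 0 ∧ f₁ m b = 0) ∧
      (∀ a < m, f₂ a 0 = 0 ∧ f₂ a m = 0) ∧
      (∀ a < m, ∀ b < m, (f₁ (a + 1) b - f₁ a b) + (f₂ a (b + 1) - f₂ a b) = w a b) ∧
      ∑ a ∈ range (m - 1), ∑ b ∈ range m, Real.exp ((|f₁ (a + 1) b| / (12 * A)) ^ α₁) +
      ∑ a ∈ range m, ∑ b ∈ range (m - 1), Real.exp ((|f₂ a (b + 1)| / (12 * A)) ^ α₂) ≤
        17 * (N + 2 * (m : ℝ) ^ 2) := by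
  classical
  have hconn : ∀ (F : Fin m × Fin m → ℝ) (v : Fin m × Fin m),
      |F v| ≤ |F (⟨0, hm⟩, ⟨0, hm⟩)| + ∑ e : GE m, |F (gsrc m e) - F (gtgt m e)| := by
    intro F v
    have h1 := grid_conn (m := m) (ext F) v.1.2 v.2.2
    rw [ext_apply] at h1
    have h2 : ext F 0 0 = F (⟨0, hm⟩, ⟨0, hm⟩) := by
      unfold ext
      rw [dif_pos ⟨hm, hm⟩]
    rw [h2] at h1
    have h3 : ∑ e : GE m, |F (gsrc m e) - F (gtgt m e)| =
        ∑ x ∈ range (m - 1), ∑ y ∈ range m, |ext F (x + 1) y - ext F x y| +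
        ∑ x ∈ range m, ∑ y ∈ range (m - 1), |ext F x (y + 1) - ext F x y| := by
      rw [← sum_GE (m := m) (fun x y => |ext F (x + 1) y - ext F x y|)
        (fun x y => |ext F x (y + 1) - ext F x y|)]
      refine Finset.sum_congr rfl fun e _ => ?_
      rcases e with e | e
      · simp only [gsrc, gtgt]
        rw [← ext_apply F, ← ext_apply F (_, _), abs_sub_comm]
      · simp only [gsrc, gtgt]
        rw [← ext_apply F, ← ext_apply F (_, _), abs_sub_comm]
    rw [h3]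
    exact h1
  set α : GE m → ℝ := fun e => match e with
    | Sum.inl _ => α₁
    | Sum.inr _ => α₂ with hα
  have hα1 : ∀ e, 1 ≤ α e := by
    intro e
    rcases e with e | e
    · exact hα₁
    · exact hα₂
  obtain ⟨f, hf, hf2⟩ := graph_flow (gsrc m) (gtgt m) (⟨0, hm⟩, ⟨0, hm⟩) hconn α hα1
    (fun v => w v.1 v.2) (N := N) hA (by
      intro F
      have h1 := h (ext F)
      have e1 : ∑ v : Fin m × Fin m, w v.1 v.2 * F v =
          ∑ a ∈ range m, ∑ b ∈ range m, w a b * ext F a b := by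
        rw [← sum_ext (m := m) (fun a b => w a b * ext F a b)]
        refine Finset.sum_congr rfl fun v _ => ?_
        rw [ext_apply]
      have e2 : ∑ e : GE m, phi (1 / α e) (F (gsrc m e) - F (gtgt m e)) =
          ∑ a ∈ range (m - 1), ∑ b ∈ range m, phi (1 / α₁) (ext F (a + 1) b - ext F a b) +
          ∑ a ∈ range m, ∑ b ∈ range (m - 1), phi (1 / α₂) (ext F a (b + 1) - ext F a b) := by
        rw [← sum_GE (m := m) (fun a b => phi (1 / α₁) (ext F (a + 1) b - ext F a b))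
          (fun a b => phi (1 / α₂) (ext F a (b + 1) - ext F a b))]
        refine Finset.sum_congr rfl fun e _ => ?_
        rcases e with e | e
        · simp only [gsrc, gtgt, hα]
          rw [← ext_apply F, ← ext_apply F (_, _), ← phi_neg, neg_sub]
        · simp only [gsrc, gtgt, hα]
          rw [← ext_apply F, ← ext_apply F (_, _), ← phi_neg, neg_sub]
      rw [e1, e2]
      exact h1)
  -- the two components of the flow
  set f₁ : ℕ → ℕ → ℝ := fun a b => if h : 0 < a ∧ a < m ∧ b < m then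
    f (Sum.inl (⟨a - 1, by omega⟩, ⟨b, h.2.2⟩)) else 0 with hf₁
  set f₂ : ℕ → ℕ → ℝ := fun a b => if h : 0 < b ∧ b < m ∧ a < m then
    f (Sum.inr (⟨a, h.2.2⟩, ⟨b - 1, by omega⟩)) else 0 with hf₂
  have hf₁' : ∀ e : Fin (m - 1) × Fin m, f₁ (e.1 + 1) e.2 = f (Sum.inl e) := by
    intro e
    have h1 := e.1.2
    have h2 := e.2.2
    simp only [hf₁]
    rw [dif_pos ⟨by omega, by omega, h2⟩]
    rfl
  have hf₂' : ∀ e : Fin m × Fin (m - 1), f₂ e.1 (e.2 + 1) = f (Sum.inr e) := by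
    intro e
    have h1 := e.1.2
    have h2 := e.2.2
    simp only [hf₂]
    rw [dif_pos ⟨by omega, by omega, h1⟩]
    rfl
  have b1 : ∀ b, f₁ 0 b = 0 ∧ f₁ m b = 0 := by
    intro b
    simp [hf₁]
  have b2 : ∀ a, f₂ a 0 = 0 ∧ f₂ a m = 0 := by
    intro a
    simp [hf₂]
  refine ⟨f₁, f₂, fun b _ => b1 b, fun a _ => b2 a, ?_, ?_⟩
  · intro a ha b hb
    -- test with an indicator function
    set F : ℕ → ℕ → ℝ := fun x y => if x = a ∧ y = b then 1 else 0 with hF
    have h1 := hf (fun v => F v.1 v.2)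
    have e1 : ∑ v : Fin m × Fin m, w v.1 v.2 * F v.1 v.2 = w a b := by
      rw [sum_ext (m := m) (fun x y => w x y * F x y), Finset.sum_eq_single a,
        Finset.sum_eq_single b]
      · simp [hF]
      · intro y _ hy
        simp [hF, hy]
      · intro hy
        exact absurd (Finset.mem_range.2 hb) hy
      · intro x _ hx
        refine Finset.sum_eq_zero fun y _ => ?_
        simp [hF, hx]
      · intro hx
        exact absurd (Finset.mem_range.2 ha) hx
    have e2 : ∑ e : GE m, f e * (F (gsrc m e).1 (gsrc m e).2 - F (gtgt m e).1 (gtgt m e).2) =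
        ∑ x ∈ range (m - 1), ∑ y ∈ range m, f₁ (x + 1) y * (F x y - F (x + 1) y) +
        ∑ x ∈ range m, ∑ y ∈ range (m - 1), f₂ x (y + 1) * (F x y - F x (y + 1)) := by
      rw [← sum_GE (m := m) (fun x y => f₁ (x + 1) y * (F x y - F (x + 1) y))
        (fun x y => f₂ x (y + 1) * (F x y - F x (y + 1)))]
      refine Finset.sum_congr rfl fun e _ => ?_
      rcases e with e | e
      · simp only [gsrc, gtgt]
        rw [hf₁']
      · simp only [gsrc, gtgt]
        rw [hf₂']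
    have e3 : ∑ x ∈ range (m - 1), ∑ y ∈ range m, f₁ (x + 1) y * (F x y - F (x + 1) y) =
        ∑ x ∈ range m, ∑ y ∈ range m, (f₁ (x + 1) y - f₁ x y) * F x y := by
      conv_lhs => rw [Finset.sum_comm]
      conv_rhs => rw [Finset.sum_comm]
      refine Finset.sum_congr rfl fun y _ => ?_
      exact (abel1 m (fun x => f₁ x y) (fun x => F x y) (b1 y).1 (b1 y).2).symm
    have e4 : ∑ x ∈ range m, ∑ y ∈ range (m - 1), f₂ x (y + 1) * (F x y - F x (y + 1)) =
        ∑ x ∈ range m, ∑ y ∈ range m, (f₂ x (y + 1) - f₂ x y) * F x y := by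
      refine Finset.sum_congr rfl fun x _ => ?_
      exact (abel1 m (fun y => f₂ x y) (fun y => F x y) (b2 x).1 (b2 x).2).symm
    have e5 : ∀ g : ℕ → ℕ → ℝ, ∑ x ∈ range m, ∑ y ∈ range m, g x y * F x y = g a b := by
      intro g
      rw [Finset.sum_eq_single a, Finset.sum_eq_single b]
      · simp [hF]
      · intro y _ hy
        simp [hF, hy]
      · intro hy
        exact absurd (Finset.mem_range.2 hb) hy
      · intro x _ hx
        refine Finset.sum_eq_zero fun y _ => ?_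
        simp [hF, hx]
      · intro hx
        exact absurd (Finset.mem_range.2 ha) hx
    rw [e1, e2, e3, e4, e5, e5] at h1
    exact h1.symm
  · have e1 : ∑ e : GE m, Real.exp ((|f e| / (12 * A)) ^ α e) =
        ∑ a ∈ range (m - 1), ∑ b ∈ range m, Real.exp ((|f₁ (a + 1) b| / (12 * A)) ^ α₁) +
        ∑ a ∈ range m, ∑ b ∈ range (m - 1), Real.exp ((|f₂ a (b + 1)| / (12 * A)) ^ α₂) := by
      rw [← sum_GE (m := m) (fun a b => Real.exp ((|f₁ (a + 1) b| / (12 * A)) ^ α₁))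
        (fun a b => Real.exp ((|f₂ a (b + 1)| / (12 * A)) ^ α₂))]
      refine Finset.sum_congr rfl fun e _ => ?_
      rcases e with e | e
      · simp only [hα]
        rw [hf₁']
      · simp only [hα]
        rw [hf₂']
    rw [← e1]
    refine hf2.trans ?_
    have hcard : (Fintype.card (GE m) : ℝ) ≤ 2 * (m : ℝ) ^ 2 := by
      rw [Fintype.card_sum, Fintype.card_prod, Fintype.card_prod, Fintype.card_fin,
        Fintype.card_fin]
      have : (m - 1) * m + m * (m - 1) ≤ 2 * m ^ 2 := by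
        have h1 : (m - 1) * m ≤ m * m := Nat.mul_le_mul_right m (Nat.sub_le m 1)
        have h2 : m * (m - 1) ≤ m * m := Nat.mul_le_mul_left m (Nat.sub_le m 1)
        nlinarith
      exact_mod_cast this
    linarith

end

/-- The dual inequality gives a good flow. -/
theorem goodFlow_of_dual {α₁ α₂ : ℝ} (hα₁ : 1 ≤ α₁) (hα₂ : 1 ≤ α₂) {n m : ℕ} (hm : 0 < m)
    (cx cy : Fin n → Fin m × Fin m) {A N₀ : ℝ} (hA : 0 < A)
    (h : DualIneq (1 / α₁) (1 / α₂) A (N₀ * (m : ℝ) ^ 2) m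
      (fun a b => (cnt cx a b : ℝ) - cnt cy a b)) :
    GoodFlow α₁ α₂ (12 * A) (17 * (N₀ + 2) + 2) cx cy := by
  obtain ⟨f₁, f₂, b1, b2, hdiv, hsum⟩ := grid_flow hα₁ hα₂ hm _ hA h
  have hm1 : (1 : ℝ) ≤ m := by exact_mod_cast hm
  have p1 : 0 ≤ ∑ a ∈ range (m - 1), ∑ b ∈ range m,
      Real.exp ((|f₁ (a + 1) b| / (12 * A)) ^ α₁) :=
    Finset.sum_nonneg fun a _ => Finset.sum_nonneg fun b _ => (Real.exp_pos _).le
  have p2 : 0 ≤ ∑ a ∈ range m, ∑ b ∈ range (m - 1),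
      Real.exp ((|f₂ a (b + 1)| / (12 * A)) ^ α₂) :=
    Finset.sum_nonneg fun a _ => Finset.sum_nonneg fun b _ => (Real.exp_pos _).le
  have z1 : ∀ α : ℝ, 1 ≤ α → Real.exp ((|(0 : ℝ)| / (12 * A)) ^ α) = 1 := by
    intro α hα
    rw [abs_zero, zero_div, Real.zero_rpow (by linarith), Real.exp_zero]
  have hmm : 2 * (m : ℝ) ≤ 2 * (m : ℝ) ^ 2 := by nlinarith
  refine ⟨f₁, f₂, ⟨b1, b2, hdiv⟩, ?_, ?_⟩
  · have e : ∑ a ∈ range (m + 1), ∑ b ∈ range m, Real.exp ((|f₁ a b| / (12 * A)) ^ α₁) =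
        ∑ a ∈ range (m - 1), ∑ b ∈ range m, Real.exp ((|f₁ (a + 1) b| / (12 * A)) ^ α₁) +
          2 * m := by
      have hmm : m + 1 = (m - 1) + 1 + 1 := by omega
      have hmm2 : m - 1 + 1 = m := by omega
      rw [hmm, Finset.sum_range_succ, Finset.sum_range_succ' _ (m - 1), hmm2]
      have s0 : ∑ b ∈ range m, Real.exp ((|f₁ 0 b| / (12 * A)) ^ α₁) = m := by
        rw [Finset.sum_congr rfl fun b hb => by rw [(b1 b (Finset.mem_range.1 hb)).1, z1 _ hα₁]]
        simp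
      have s1 : ∑ b ∈ range m, Real.exp ((|f₁ m b| / (12 * A)) ^ α₁) = m := by
        rw [Finset.sum_congr rfl fun b hb => by rw [(b1 b (Finset.mem_range.1 hb)).2, z1 _ hα₁]]
        simp
      rw [s0, s1]
      ring
    rw [e]
    nlinarith
  · have e : ∑ a ∈ range m, ∑ b ∈ range (m + 1), Real.exp ((|f₂ a b| / (12 * A)) ^ α₂) =
        ∑ a ∈ range m, ∑ b ∈ range (m - 1), Real.exp ((|f₂ a (b + 1)| / (12 * A)) ^ α₂) +
          2 * m := by
      have hmm : m + 1 = (m - 1) + 1 + 1 := by omega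
      have hmm2 : m - 1 + 1 = m := by omega
      have hrow : ∀ a ∈ range m, ∑ b ∈ range (m + 1), Real.exp ((|f₂ a b| / (12 * A)) ^ α₂) =
          ∑ b ∈ range (m - 1), Real.exp ((|f₂ a (b + 1)| / (12 * A)) ^ α₂) + 2 := by
        intro a ha
        rw [hmm, Finset.sum_range_succ, Finset.sum_range_succ' _ (m - 1), hmm2,
          (b2 a (Finset.mem_range.1 ha)).1, (b2 a (Finset.mem_range.1 ha)).2, z1 _ hα₂]
        ring
      rw [Finset.sum_congr rfl hrow, Finset.sum_add_distrib, Finset.sum_const, Finset.card_range,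
        nsmul_eq_mul]
      ring
    rw [e]
    nlinarith

/-- THE DUAL STATEMENT. -/
def S_DUAL (α₁ α₂ c₀ : ℝ) (err : ℕ → ℝ) : Prop :=
  ∃ A₀ : ℝ, 0 < A₀ ∧ ∃ N₀ : ℝ, 0 < N₀ ∧ ∀ n k : ℕ, 2 ≤ n → c₀ * Real.log n ≤ n / 4 ^ k →
    (n : ℝ) / 4 ^ k ≤ 4 * c₀ * Real.log n →
    frac n (2 ^ k) (fun cx cy => ¬ DualIneq (1 / α₁) (1 / α₂) (A₀ * Real.log n)
      (N₀ * ((2 ^ k : ℕ) : ℝ) ^ 2) (2 ^ k) (fun a b => (cnt cx a b : ℝ) - cnt cy a b)) ≤ err n

theorem frac_mono {n m : ℕ} {E E' : (Fin n → Fin m × Fin m) → (Fin n → Fin m × Fin m) → Prop}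
    (h : ∀ cx cy, E cx cy → E' cx cy) : frac n m E ≤ frac n m E' := by
  classical
  unfold frac
  refine div_le_div_of_nonneg_right ?_ (by positivity)
  refine Nat.cast_le.2 (Finset.card_le_card ?_)
  intro w hw
  rw [Finset.mem_filter] at hw ⊢
  exact ⟨hw.1, h _ _ hw.2⟩

theorem flow_of_dual {α₁ α₂ : ℝ} (hα₁ : 1 ≤ α₁) (hα₂ : 1 ≤ α₂) {c₀ : ℝ} {err : ℕ → ℝ}
    (h : S_DUAL α₁ α₂ c₀ err) : S_FLOW α₁ α₂ c₀ err := by
  obtain ⟨A₀, hA₀, N₀, hN₀, h⟩ := h
  refine ⟨12 * A₀, by linarith, 17 * (N₀ + 2) + 2, by linarith, ?_⟩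
  intro n k hn h1 h2
  have hlog : 0 < Real.log n := Real.log_pos (by exact_mod_cast hn)
  have hA : 0 < A₀ * Real.log n := mul_pos hA₀ hlog
  have h3 := h n k hn h1 h2
  have hk : 0 < 2 ^ k := Nat.pow_pos (by norm_num)
  generalize 2 ^ k = m at h3 hk ⊢
  refine le_trans (frac_mono ?_) h3
  intro cx cy hbad hdual
  apply hbad
  have h4 := goodFlow_of_dual hα₁ hα₂ hk cx cy hA hdual
  rw [← mul_assoc] at h4
  exact h4

/-- The dual statement gives the matching statement. -/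
theorem matching_of_dual {α₁ α₂ : ℝ} (hα₁ : 1 ≤ α₁) (hα₂ : 1 ≤ α₂) {p : ℕ} {c₀ : ℝ}
    (hc₀ : 64 * ((p : ℝ) + 3) ≤ c₀) {err : ℕ → ℝ} (h : S_DUAL α₁ α₂ c₀ err) :
    ∃ C : ℝ, 0 < C ∧ ∀ n : ℕ, 2 ≤ n →
      ((MeasureTheory.Measure.pi fun _ : Fin n => unifSq).prod
        (MeasureTheory.Measure.pi fun _ : Fin n => unifSq))
        {z | ¬ ∃ σ : Equiv.Perm (Fin n), cost α₁ α₂ C n z.1 z.2 σ ≤ C * n} ≤
      ENNReal.ofReal (err n) + ENNReal.ofReal (1 / (n : ℝ) ^ p) :=
  matching_of_flow hα₁ hα₂ hc₀ (flow_of_dual hα₁ hα₂ h)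

end Pool.UMC
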