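import Pool.Agent.H37.UMD.Stmts2
import Pool.Agent.H85.UMC.Grid

/-!
FLW: the dual statement `SDua` implies the flow statement and the matching theorem.
-/

set_option autoImplicit false

open MeasureTheory Finset

namespace Pool.UMD

theorem FLW_dual (h : SDua) {α₁ α₂ : ℝ} (h1 : 0 < α₁) (h2 : 0 < α₂)
    (h12 : 1 / α₁ + 1 / α₂ = 1 / 2) (p : ℕ) : ∃ c₁ : ℝ, 0 < c₁ ∧ ∀ c₀ : ℝ, c₁ ≤ c₀ →
      Pool.UMC.S_DUAL α₁ α₂ c₀ (fun n => 1 / (n : ℝ) ^ p) := by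
  obtain ⟨c₁, hc₁, H⟩ := h (1 / α₁) (1 / α₂) (by positivity) (by positivity) h12 p
  refine ⟨c₁, hc₁, fun c₀ hc₀ => ?_⟩
  obtain ⟨C, hC, H⟩ := H c₀ hc₀
  refine ⟨C, hC, 1, one_pos, fun n k hn a1 a2 => ?_⟩
  refine le_trans (Pool.UMC.frac_mono ?_) (H n k hn a1 a2)
  intro cx cy hbad hdual
  apply hbad
  intro F
  have h3 := hdual F
  have e : ((2 ^ k : ℕ) : ℝ) ^ 2 = (4 : ℝ) ^ k := by
    push_cast
    rw [← pow_mul, mul_comm k 2, pow_mul]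
    norm_num
  rw [e, one_mul]
  refine h3.trans (le_of_eq ?_)
  unfold Ed1 Ed2 psi Pool.UMC.phi
  ring

/-- FLW: the flow statement. -/
theorem FLW_flow (h : SDua) {α₁ α₂ : ℝ} (h1 : 0 < α₁) (h2 : 0 < α₂)
    (h12 : 1 / α₁ + 1 / α₂ = 1 / 2) (p : ℕ) : ∃ c₁ : ℝ, 0 < c₁ ∧ ∀ c₀ : ℝ, c₁ ≤ c₀ →
      Pool.UMC.S_FLOW α₁ α₂ c₀ (fun n => 1 / (n : ℝ) ^ p) := by
  have hα₁ : 1 ≤ α₁ := by
    by_contra hc
    push Not at hc
    have : 1 < 1 / α₁ := by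
      rw [lt_div_iff₀ h1]
      linarith
    have : 0 < 1 / α₂ := by positivity
    linarith
  have hα₂ : 1 ≤ α₂ := by
    by_contra hc
    push Not at hc
    have : 1 < 1 / α₂ := by
      rw [lt_div_iff₀ h2]
      linarith
    have : 0 < 1 / α₁ := by positivity
    linarith
  obtain ⟨c₁, hc₁, H⟩ := FLW_dual h h1 h2 h12 p
  exact ⟨c₁, hc₁, fun c₀ hc₀ => Pool.UMC.flow_of_dual hα₁ hα₂ (H c₀ hc₀)⟩

/-- THE ULTIMATE MATCHING THEOREM in dimension two, with high probability. -/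
theorem ultimate (h : SDua) {α₁ α₂ : ℝ} (h1 : 0 < α₁) (h2 : 0 < α₂)
    (h12 : 1 / α₁ + 1 / α₂ = 1 / 2) (p : ℕ) : ∃ C : ℝ, 0 < C ∧ ∀ n : ℕ, 2 ≤ n →
      ((Measure.pi fun _ : Fin n => Pool.UMC.unifSq).prod
        (Measure.pi fun _ : Fin n => Pool.UMC.unifSq))
        {z | ¬ ∃ σ : Equiv.Perm (Fin n), Pool.UMC.cost α₁ α₂ C n z.1 z.2 σ ≤ C * n} ≤
      ENNReal.ofReal (1 / (n : ℝ) ^ p) := by
  have hα₁ : 1 ≤ α₁ := by
    by_contra hc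
    push Not at hc
    have : 1 < 1 / α₁ := by
      rw [lt_div_iff₀ h1]
      linarith
    have : 0 < 1 / α₂ := by positivity
    linarith
  have hα₂ : 1 ≤ α₂ := by
    by_contra hc
    push Not at hc
    have : 1 < 1 / α₂ := by
      rw [lt_div_iff₀ h2]
      linarith
    have : 0 < 1 / α₁ := by positivity
    linarith
  obtain ⟨c₁, hc₁, H⟩ := FLW_flow h h1 h2 h12 (p + 1)
  set c₀ : ℝ := max c₁ (64 * (((p + 1 : ℕ) : ℝ) + 3)) with hc₀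
  obtain ⟨C, hC, hfin⟩ := Pool.UMC.matching_of_flow hα₁ hα₂ (p := p + 1) (c₀ := c₀)
    (le_max_right _ _) (H c₀ (le_max_left _ _))
  refine ⟨C, hC, fun n hn => (hfin n hn).trans ?_⟩
  have hn' : (2 : ℝ) ≤ n := by exact_mod_cast hn
  rw [← ENNReal.ofReal_add (by positivity) (by positivity)]
  refine ENNReal.ofReal_le_ofReal ?_
  have hpos : (0 : ℝ) < (n : ℝ) ^ p := by positivity
  rw [← add_div, div_le_div_iff₀ (by positivity) hpos, pow_succ]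
  nlinarith

end Pool.UMD
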