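import Pool.Agent.H85.UMC.Mono

/-!
Iteration of couplings and Jensen's inequality along the chain.
-/

open Finset

namespace Pool.UMC

/-- The coupling of `ρ 0` and `ρ k` obtained by composing `k` double steps. -/
noncomputable def chain {V : Type*} [DecidableEq V] (S : Finset V) (ρ ρ' : ℕ → V → ℝ)
    (h v : ℕ → V → V → ℝ) : ℕ → V → V → ℝ
  | 0 => diag (ρ 0)
  | k + 1 => comp S (ρ' k) (comp S (ρ k) (chain S ρ ρ' h v k) (h k)) (v k)

section

variable {V : Type*} [DecidableEq V] {S : Finset V} {ρ ρ' : ℕ → V → ℝ} {h v : ℕ → V → V → ℝ}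
  {T : ℕ}

theorem chain_cpl (h0 : ∀ x ∈ S, 0 ≤ ρ 0 x) (hρ : ∀ k < T, ∀ x ∈ S, 0 < ρ k x)
    (hρ' : ∀ k < T, ∀ x ∈ S, 0 < ρ' k x) (hh : ∀ k < T, IsCpl S (ρ k) (ρ' k) (h k))
    (hv : ∀ k < T, IsCpl S (ρ' k) (ρ (k + 1)) (v k)) :
    ∀ k ≤ T, IsCpl S (ρ 0) (ρ k) (chain S ρ ρ' h v k) := by
  intro k
  induction k with
  | zero => intro _; exact isCpl_diag h0
  | succ k ih =>
    intro hk
    exact ((ih (by omega)).comp (hh k (by omega)) (hρ k (by omega))).comp (hv k (by omega))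
      (hρ' k (by omega))

theorem convex_step {G : ℝ → ℝ} (hG : ConvexOn ℝ (Set.Ici 0) G) (hm : MonotoneOn G (Set.Ici 0))
    {k : ℕ} (hk : 1 ≤ k) {d c t : ℝ} (hd : 0 ≤ d) (hc : 0 ≤ c) (ht0 : 0 ≤ t) (ht : t ≤ d + c) :
    G t ≤ (k : ℝ) / (k + 1) * G (((k : ℝ) + 1) / k * d) + 1 / ((k : ℝ) + 1) * G (((k : ℝ) + 1) * c) := by
  have hk0 : (0 : ℝ) < k := by exact_mod_cast hk
  have h1 : G t ≤ G (d + c) := hm ht0 (show (0 : ℝ) ≤ d + c by positivity) ht
  have h2 : d + c = (k : ℝ) / (k + 1) * (((k : ℝ) + 1) / k * d) +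
      1 / ((k : ℝ) + 1) * (((k : ℝ) + 1) * c) := by
    field_simp
  have h3 := hG.2 (show (0 : ℝ) ≤ ((k : ℝ) + 1) / k * d by positivity)
    (show (0 : ℝ) ≤ ((k : ℝ) + 1) * c by positivity)
    (show (0 : ℝ) ≤ (k : ℝ) / (k + 1) by positivity)
    (show (0 : ℝ) ≤ 1 / ((k : ℝ) + 1) by positivity) (by field_simp)
  simp only [smul_eq_mul] at h3
  rw [← h2] at h3
  exact h1.trans h3

theorem chain_cost1 (h0 : ∀ x ∈ S, 0 ≤ ρ 0 x) (hρ : ∀ k < T, ∀ x ∈ S, 0 < ρ k x)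
    (hρ' : ∀ k < T, ∀ x ∈ S, 0 < ρ' k x) (hh : ∀ k < T, IsCpl S (ρ k) (ρ' k) (h k))
    (hv : ∀ k < T, IsCpl S (ρ' k) (ρ (k + 1)) (v k)) (φ : V → ℝ) (c : V → ℝ)
    (hc : ∀ z ∈ S, 0 ≤ c z)
    (h1 : ∀ k < T, ∀ z ∈ S, ∀ y ∈ S, h k z y ≠ 0 → |φ z - φ y| ≤ c z)
    (h2 : ∀ k < T, ∀ z ∈ S, ∀ y ∈ S, v k z y ≠ 0 → φ z = φ y) :
    ∀ k, 1 ≤ k → k ≤ T → ∀ G : ℝ → ℝ, ConvexOn ℝ (Set.Ici 0) G → MonotoneOn G (Set.Ici 0) →
      ∑ x ∈ S, ∑ y ∈ S, chain S ρ ρ' h v k x y * G |φ x - φ y| ≤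
        1 / (k : ℝ) * ∑ j ∈ range k, ∑ z ∈ S, ρ j z * G (k * c z) := by
  have hcpl := chain_cpl h0 hρ hρ' hh hv
  intro k hk1
  induction k, hk1 using Nat.le_induction with
  | base =>
    intro hT G hG hm
    have a1 : ∑ x ∈ S, ∑ y ∈ S, chain S ρ ρ' h v 1 x y * G |φ x - φ y| ≤
        ∑ x ∈ S, ∑ z ∈ S, comp S (ρ 0) (chain S ρ ρ' h v 0) (h 0) x z * G |φ x - φ z| +
          ∑ z ∈ S, ρ' 0 z * 0 := by
      refine comp_cost ((hcpl 0 (by omega)).comp (hh 0 hT) (hρ 0 hT)) (hv 0 hT) (hρ' 0 hT)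
        _ _ _ ?_
      intro x _ z hz y hy _ hvz
      rw [h2 0 hT z hz y hy hvz]
      simp
    have a2 : ∑ x ∈ S, ∑ z ∈ S, comp S (ρ 0) (chain S ρ ρ' h v 0) (h 0) x z * G |φ x - φ z| ≤
        ∑ x ∈ S, ∑ z ∈ S, chain S ρ ρ' h v 0 x z * 0 + ∑ z ∈ S, ρ 0 z * G (c z) := by
      refine comp_cost (hcpl 0 (by omega)) (hh 0 hT) (hρ 0 hT) _ _ _ ?_
      intro x _ z hz y hy hP hhz
      have hxz : x = z := by
        by_contra hne
        exact hP (by simp [chain, diag, hne])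
      subst hxz
      rw [zero_add]
      exact hm (show (0 : ℝ) ≤ |φ x - φ y| from abs_nonneg _) (hc x hz) (h1 0 hT x hz y hy hhz)
    simp only [mul_zero, Finset.sum_const_zero, add_zero, zero_add] at a1 a2
    refine (a1.trans a2).trans (le_of_eq ?_)
    simp
  | succ k hk ih =>
    intro hT G hG hm
    have hk0 : (0 : ℝ) < k := by exact_mod_cast hk
    have a1 : ∑ x ∈ S, ∑ y ∈ S, chain S ρ ρ' h v (k + 1) x y * G |φ x - φ y| ≤
        ∑ x ∈ S, ∑ z ∈ S, comp S (ρ k) (chain S ρ ρ' h v k) (h k) x z * G |φ x - φ z| +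
          ∑ z ∈ S, ρ' k z * 0 := by
      refine comp_cost ((hcpl k (by omega)).comp (hh k (by omega)) (hρ k (by omega)))
        (hv k (by omega)) (hρ' k (by omega)) _ _ _ ?_
      intro x _ z hz y hy _ hvz
      rw [h2 k (by omega) z hz y hy hvz]
      simp
    have a2 : ∑ x ∈ S, ∑ z ∈ S, comp S (ρ k) (chain S ρ ρ' h v k) (h k) x z * G |φ x - φ z| ≤
        ∑ x ∈ S, ∑ z ∈ S, chain S ρ ρ' h v k x z *
          ((k : ℝ) / (k + 1) * G (((k : ℝ) + 1) / k * |φ x - φ z|)) +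
        ∑ z ∈ S, ρ k z * (1 / ((k : ℝ) + 1) * G (((k : ℝ) + 1) * c z)) := by
      refine comp_cost (hcpl k (by omega)) (hh k (by omega)) (hρ k (by omega)) _ _ _ ?_
      intro x _ z hz y hy _ hhz
      refine convex_step hG hm hk (abs_nonneg _) (hc z hz) (abs_nonneg _) ?_
      have := h1 k (by omega) z hz y hy hhz
      calc |φ x - φ y| = |(φ x - φ z) + (φ z - φ y)| := by ring_nf
        _ ≤ |φ x - φ z| + |φ z - φ y| := abs_add_le _ _
        _ ≤ _ := by linarith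
    have a3 := ih (by omega) (fun u => G (((k : ℝ) + 1) / k * u))
      (by
        refine ⟨convex_Ici 0, ?_⟩
        intro x hx y hy a b ha hb hab
        have hx' : (0 : ℝ) ≤ x := hx
        have hy' : (0 : ℝ) ≤ y := hy
        have := hG.2 (show (0 : ℝ) ≤ ((k : ℝ) + 1) / k * x by positivity)
          (show (0 : ℝ) ≤ ((k : ℝ) + 1) / k * y by positivity) ha hb hab
        simp only [smul_eq_mul] at this ⊢
        calc G (((k : ℝ) + 1) / k * (a * x + b * y)) =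
            G (a * (((k : ℝ) + 1) / k * x) + b * (((k : ℝ) + 1) / k * y)) := by ring_nf
          _ ≤ _ := this)
      (by
        intro x hx y hy hxy
        have hx' : (0 : ℝ) ≤ x := hx
        have hy' : (0 : ℝ) ≤ y := hy
        exact hm (show (0 : ℝ) ≤ ((k : ℝ) + 1) / k * x by positivity)
          (show (0 : ℝ) ≤ ((k : ℝ) + 1) / k * y by positivity)
          (mul_le_mul_of_nonneg_left hxy (by positivity)))
    have a4 : ∑ x ∈ S, ∑ z ∈ S, chain S ρ ρ' h v k x z *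
          ((k : ℝ) / (k + 1) * G (((k : ℝ) + 1) / k * |φ x - φ z|)) =
        (k : ℝ) / (k + 1) * ∑ x ∈ S, ∑ z ∈ S, chain S ρ ρ' h v k x z *
          G (((k : ℝ) + 1) / k * |φ x - φ z|) := by
      rw [Finset.mul_sum]
      refine Finset.sum_congr rfl fun x _ => ?_
      rw [Finset.mul_sum]
      refine Finset.sum_congr rfl fun z _ => ?_
      ring
    have a5 : (k : ℝ) / (k + 1) * ∑ x ∈ S, ∑ z ∈ S, chain S ρ ρ' h v k x z *
          G (((k : ℝ) + 1) / k * |φ x - φ z|) ≤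
        (k : ℝ) / (k + 1) * (1 / (k : ℝ) * ∑ j ∈ range k, ∑ z ∈ S, ρ j z *
          G (((k : ℝ) + 1) / k * (k * c z))) :=
      mul_le_mul_of_nonneg_left a3 (by positivity)
    have a6 : ∀ z, ((k : ℝ) + 1) / k * (k * c z) = ((k : ℝ) + 1) * c z := by
      intro z
      field_simp
    simp only [a6] at a5
    simp only [mul_zero, Finset.sum_const_zero, add_zero] at a1
    push_cast
    rw [Finset.sum_range_succ, mul_add]
    have a7 : (k : ℝ) / (k + 1) * (1 / (k : ℝ) * ∑ j ∈ range k, ∑ z ∈ S, ρ j z *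
          G (((k : ℝ) + 1) * c z)) = 1 / ((k : ℝ) + 1) * ∑ j ∈ range k, ∑ z ∈ S, ρ j z *
          G (((k : ℝ) + 1) * c z) := by
      field_simp
    have a8 : ∑ z ∈ S, ρ k z * (1 / ((k : ℝ) + 1) * G (((k : ℝ) + 1) * c z)) =
        1 / ((k : ℝ) + 1) * ∑ z ∈ S, ρ k z * G (((k : ℝ) + 1) * c z) := by
      rw [Finset.mul_sum]
      refine Finset.sum_congr rfl fun z _ => ?_
      ring
    rw [a4, a8] at a2
    linarith

theorem chain_cost2 (h0 : ∀ x ∈ S, 0 ≤ ρ 0 x) (hρ : ∀ k < T, ∀ x ∈ S, 0 < ρ k x)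
    (hρ' : ∀ k < T, ∀ x ∈ S, 0 < ρ' k x) (hh : ∀ k < T, IsCpl S (ρ k) (ρ' k) (h k))
    (hv : ∀ k < T, IsCpl S (ρ' k) (ρ (k + 1)) (v k)) (φ : V → ℝ) (c : V → ℝ)
    (hc : ∀ z ∈ S, 0 ≤ c z)
    (h1 : ∀ k < T, ∀ z ∈ S, ∀ y ∈ S, h k z y ≠ 0 → φ z = φ y)
    (h2 : ∀ k < T, ∀ z ∈ S, ∀ y ∈ S, v k z y ≠ 0 → |φ z - φ y| ≤ c z) :
    ∀ k, 1 ≤ k → k ≤ T → ∀ G : ℝ → ℝ, ConvexOn ℝ (Set.Ici 0) G → MonotoneOn G (Set.Ici 0) →
      ∑ x ∈ S, ∑ y ∈ S, chain S ρ ρ' h v k x y * G |φ x - φ y| ≤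
        1 / (k : ℝ) * ∑ j ∈ range k, ∑ z ∈ S, ρ' j z * G (k * c z) := by
  have hcpl := chain_cpl h0 hρ hρ' hh hv
  intro k hk1
  induction k, hk1 using Nat.le_induction with
  | base =>
    intro hT G hG hm
    have a1 : ∑ x ∈ S, ∑ y ∈ S, chain S ρ ρ' h v 1 x y * G |φ x - φ y| ≤
        ∑ x ∈ S, ∑ z ∈ S, comp S (ρ 0) (chain S ρ ρ' h v 0) (h 0) x z * 0 +
          ∑ z ∈ S, ρ' 0 z * G (c z) := by
      refine comp_cost ((hcpl 0 (by omega)).comp (hh 0 hT) (hρ 0 hT)) (hv 0 hT) (hρ' 0 hT)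
        _ _ _ ?_
      intro x hx z hz y hy hP hvz
      have hxz : φ x = φ z := by
        by_contra hne
        apply hP
        unfold comp
        refine Finset.sum_eq_zero fun w hw => ?_
        by_cases hxw : x = w
        · subst hxw
          have : h 0 x z = 0 := by
            by_contra hne2
            exact hne (h1 0 hT x hx z hz hne2)
          simp [this]
        · simp [chain, diag, hxw]
      rw [zero_add, hxz]
      exact hm (show (0 : ℝ) ≤ |φ z - φ y| from abs_nonneg _) (hc z hz) (h2 0 hT z hz y hy hvz)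
    simp only [mul_zero, Finset.sum_const_zero, zero_add] at a1
    refine a1.trans (le_of_eq ?_)
    simp
  | succ k hk ih =>
    intro hT G hG hm
    have hk0 : (0 : ℝ) < k := by exact_mod_cast hk
    have a1 : ∑ x ∈ S, ∑ y ∈ S, chain S ρ ρ' h v (k + 1) x y * G |φ x - φ y| ≤
        ∑ x ∈ S, ∑ z ∈ S, comp S (ρ k) (chain S ρ ρ' h v k) (h k) x z *
          ((k : ℝ) / (k + 1) * G (((k : ℝ) + 1) / k * |φ x - φ z|)) +
        ∑ z ∈ S, ρ' k z * (1 / ((k : ℝ) + 1) * G (((k : ℝ) + 1) * c z)) := by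
      refine comp_cost ((hcpl k (by omega)).comp (hh k (by omega)) (hρ k (by omega)))
        (hv k (by omega)) (hρ' k (by omega)) _ _ _ ?_
      intro x _ z hz y hy _ hvz
      refine convex_step hG hm hk (abs_nonneg _) (hc z hz) (abs_nonneg _) ?_
      have := h2 k (by omega) z hz y hy hvz
      calc |φ x - φ y| = |(φ x - φ z) + (φ z - φ y)| := by ring_nf
        _ ≤ |φ x - φ z| + |φ z - φ y| := abs_add_le _ _
        _ ≤ _ := by linarith
    have a2 : ∑ x ∈ S, ∑ z ∈ S, comp S (ρ k) (chain S ρ ρ' h v k) (h k) x z *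
          ((k : ℝ) / (k + 1) * G (((k : ℝ) + 1) / k * |φ x - φ z|)) ≤
        ∑ x ∈ S, ∑ z ∈ S, chain S ρ ρ' h v k x z *
          ((k : ℝ) / (k + 1) * G (((k : ℝ) + 1) / k * |φ x - φ z|)) +
        ∑ z ∈ S, ρ k z * 0 := by
      refine comp_cost (hcpl k (by omega)) (hh k (by omega)) (hρ k (by omega)) _ _ _ ?_
      intro x _ z hz y hy _ hhz
      rw [h1 k (by omega) z hz y hy hhz]
      simp
    have a3 := ih (by omega) (fun u => G (((k : ℝ) + 1) / k * u))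
      (by
        refine ⟨convex_Ici 0, ?_⟩
        intro x hx y hy a b ha hb hab
        have hx' : (0 : ℝ) ≤ x := hx
        have hy' : (0 : ℝ) ≤ y := hy
        have := hG.2 (show (0 : ℝ) ≤ ((k : ℝ) + 1) / k * x by positivity)
          (show (0 : ℝ) ≤ ((k : ℝ) + 1) / k * y by positivity) ha hb hab
        simp only [smul_eq_mul] at this ⊢
        calc G (((k : ℝ) + 1) / k * (a * x + b * y)) =
            G (a * (((k : ℝ) + 1) / k * x) + b * (((k : ℝ) + 1) / k * y)) := by ring_nf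
          _ ≤ _ := this)
      (by
        intro x hx y hy hxy
        have hx' : (0 : ℝ) ≤ x := hx
        have hy' : (0 : ℝ) ≤ y := hy
        exact hm (show (0 : ℝ) ≤ ((k : ℝ) + 1) / k * x by positivity)
          (show (0 : ℝ) ≤ ((k : ℝ) + 1) / k * y by positivity)
          (mul_le_mul_of_nonneg_left hxy (by positivity)))
    have a4 : ∑ x ∈ S, ∑ z ∈ S, chain S ρ ρ' h v k x z *
          ((k : ℝ) / (k + 1) * G (((k : ℝ) + 1) / k * |φ x - φ z|)) =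
        (k : ℝ) / (k + 1) * ∑ x ∈ S, ∑ z ∈ S, chain S ρ ρ' h v k x z *
          G (((k : ℝ) + 1) / k * |φ x - φ z|) := by
      rw [Finset.mul_sum]
      refine Finset.sum_congr rfl fun x _ => ?_
      rw [Finset.mul_sum]
      refine Finset.sum_congr rfl fun z _ => ?_
      ring
    have a5 : (k : ℝ) / (k + 1) * ∑ x ∈ S, ∑ z ∈ S, chain S ρ ρ' h v k x z *
          G (((k : ℝ) + 1) / k * |φ x - φ z|) ≤
        (k : ℝ) / (k + 1) * (1 / (k : ℝ) * ∑ j ∈ range k, ∑ z ∈ S, ρ' j z *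
          G (((k : ℝ) + 1) / k * (k * c z))) :=
      mul_le_mul_of_nonneg_left a3 (by positivity)
    have a6 : ∀ z, ((k : ℝ) + 1) / k * (k * c z) = ((k : ℝ) + 1) * c z := by
      intro z
      field_simp
    simp only [a6] at a5
    simp only [mul_zero, Finset.sum_const_zero, add_zero] at a2
    push_cast
    rw [Finset.sum_range_succ, mul_add]
    have a7 : (k : ℝ) / (k + 1) * (1 / (k : ℝ) * ∑ j ∈ range k, ∑ z ∈ S, ρ' j z *
          G (((k : ℝ) + 1) * c z)) = 1 / ((k : ℝ) + 1) * ∑ j ∈ range k, ∑ z ∈ S, ρ' j z *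
          G (((k : ℝ) + 1) * c z) := by
      field_simp
    have a8 : ∑ z ∈ S, ρ' k z * (1 / ((k : ℝ) + 1) * G (((k : ℝ) + 1) * c z)) =
        1 / ((k : ℝ) + 1) * ∑ z ∈ S, ρ' k z * G (((k : ℝ) + 1) * c z) := by
      rw [Finset.mul_sum]
      refine Finset.sum_congr rfl fun z _ => ?_
      ring
    rw [a8] at a1
    rw [a4] at a2
    linarith

end

end Pool.UMC
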