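import Mathlib

/-!
From the dual inequality to a flow on a finite connected graph.
-/

open Finset

namespace Pool.UMC

/-- `|s| (1 + log (1 + s²)) ^ b`. -/
noncomputable def phi (b s : ℝ) : ℝ := |s| * (1 + Real.log (1 + s ^ 2)) ^ b

/-- Smooth majorant of `2 phi`. -/
noncomputable def Phi (b s : ℝ) : ℝ := 2 * (√(1 + s ^ 2) * (1 + Real.log (1 + s ^ 2)) ^ b)

/-- Derivative of `Phi`. -/
noncomputable def dPhi (b s : ℝ) : ℝ :=
  2 * (s / √(1 + s ^ 2) * ((1 + Real.log (1 + s ^ 2)) ^ b +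
    2 * b * (1 + Real.log (1 + s ^ 2)) ^ (b - 1)))

theorem ell_one_le (s : ℝ) : 1 ≤ 1 + Real.log (1 + s ^ 2) := by
  have : 0 ≤ Real.log (1 + s ^ 2) := Real.log_nonneg (by nlinarith [sq_nonneg s])
  linarith

theorem hasDerivAt_Phi (b s : ℝ) : HasDerivAt (Phi b) (dPhi b s) s := by
  have h0 : (0 : ℝ) < 1 + s ^ 2 := by positivity
  have h1 : HasDerivAt (fun s : ℝ => 1 + s ^ 2) (2 * s) s := by
    have := (hasDerivAt_pow 2 s).const_add 1
    simpa using this
  have h2 : HasDerivAt (fun s : ℝ => √(1 + s ^ 2)) (2 * s / (2 * √(1 + s ^ 2))) s :=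
    h1.sqrt h0.ne'
  have h3 : HasDerivAt (fun s : ℝ => 1 + Real.log (1 + s ^ 2)) (2 * s / (1 + s ^ 2)) s :=
    (h1.log h0.ne').const_add 1
  have hl := ell_one_le s
  have h4 : HasDerivAt (fun s : ℝ => (1 + Real.log (1 + s ^ 2)) ^ b)
      (2 * s / (1 + s ^ 2) * b * (1 + Real.log (1 + s ^ 2)) ^ (b - 1)) s :=
    h3.rpow_const (Or.inl (by linarith))
  have h5 := (h2.mul h4).const_mul 2
  unfold Phi
  refine h5.congr_deriv ?_
  unfold dPhi
  have hs : 0 < √(1 + s ^ 2) := Real.sqrt_pos.2 h0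
  have e1 : √(1 + s ^ 2) * (2 * s / (1 + s ^ 2) * b * (1 + Real.log (1 + s ^ 2)) ^ (b - 1)) =
      s / √(1 + s ^ 2) * (2 * b * (1 + Real.log (1 + s ^ 2)) ^ (b - 1)) := by
    have e0 : 2 * s / (1 + s ^ 2) = 2 * s / (√(1 + s ^ 2) * √(1 + s ^ 2)) := by
      rw [Real.mul_self_sqrt h0.le]
    rw [e0]
    generalize (1 + Real.log (1 + s ^ 2)) ^ (b - 1) = z
    generalize √(1 + s ^ 2) = r at hs ⊢
    field_simp
  rw [e1]
  generalize (1 + Real.log (1 + s ^ 2)) ^ (b - 1) = z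
  generalize (1 + Real.log (1 + s ^ 2)) ^ b = y
  generalize √(1 + s ^ 2) = r at hs ⊢
  field_simp

theorem phi_le_Phi (b s : ℝ) : 2 * phi b s ≤ Phi b s := by
  unfold phi Phi
  have h1 : |s| ≤ √(1 + s ^ 2) := by
    rw [← Real.sqrt_sq_eq_abs]
    exact Real.sqrt_le_sqrt (by linarith)
  have h2 : 0 ≤ (1 + Real.log (1 + s ^ 2)) ^ b :=
    Real.rpow_nonneg (by linarith [ell_one_le s]) _
  have := mul_le_mul_of_nonneg_right h1 h2
  linarith

theorem abs_le_phi {b : ℝ} (hb : 0 ≤ b) (s : ℝ) : |s| ≤ phi b s := by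
  unfold phi
  have : 1 ≤ (1 + Real.log (1 + s ^ 2)) ^ b := Real.one_le_rpow (ell_one_le s) hb
  nlinarith [abs_nonneg s]

theorem phi_zero (b : ℝ) : phi b 0 = 0 := by simp [phi]

theorem abs_dPhi_le {b : ℝ} (hb : 0 ≤ b) (hb1 : b ≤ 1) (s : ℝ) :
    |dPhi b s| ≤ 6 * (1 + Real.log (1 + s ^ 2)) ^ b := by
  have hl := ell_one_le s
  have h0 : (0 : ℝ) < 1 + s ^ 2 := by positivity
  have hs : 0 < √(1 + s ^ 2) := Real.sqrt_pos.2 h0
  have h1 : |s / √(1 + s ^ 2)| ≤ 1 := by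
    rw [abs_div, abs_of_pos hs, div_le_one hs, ← Real.sqrt_sq_eq_abs]
    exact Real.sqrt_le_sqrt (by linarith)
  have h2 : (1 + Real.log (1 + s ^ 2)) ^ (b - 1) ≤ (1 + Real.log (1 + s ^ 2)) ^ b :=
    Real.rpow_le_rpow_of_exponent_le hl (by linarith)
  have h3 : 0 ≤ (1 + Real.log (1 + s ^ 2)) ^ (b - 1) := Real.rpow_nonneg (by linarith) _
  have h4 : 0 ≤ (1 + Real.log (1 + s ^ 2)) ^ b := Real.rpow_nonneg (by linarith) _
  unfold dPhi
  rw [abs_mul, abs_mul, abs_of_pos (show (0 : ℝ) < 2 by norm_num),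
    abs_of_nonneg (show 0 ≤ (1 + Real.log (1 + s ^ 2)) ^ b +
      2 * b * (1 + Real.log (1 + s ^ 2)) ^ (b - 1) by positivity)]
  have h5 : (1 + Real.log (1 + s ^ 2)) ^ b + 2 * b * (1 + Real.log (1 + s ^ 2)) ^ (b - 1) ≤
      3 * (1 + Real.log (1 + s ^ 2)) ^ b := by
    nlinarith [mul_le_mul hb1 h2 h3 (by norm_num)]
  calc 2 * (|s / √(1 + s ^ 2)| * ((1 + Real.log (1 + s ^ 2)) ^ b +
      2 * b * (1 + Real.log (1 + s ^ 2)) ^ (b - 1))) ≤
      2 * (1 * (3 * (1 + Real.log (1 + s ^ 2)) ^ b)) := by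
        refine mul_le_mul_of_nonneg_left (mul_le_mul h1 h5 (by positivity) (by norm_num))
          (by norm_num)
    _ = _ := by ring

theorem mul_dPhi_ge {b : ℝ} (hb : 0 ≤ b) (hb1 : b ≤ 1) (s : ℝ) :
    2 / 5 * |s| - 3 ≤ s * dPhi b s - phi b s := by
  have hl := ell_one_le s
  have h0 : (0 : ℝ) < 1 + s ^ 2 := by positivity
  have hs : 0 < √(1 + s ^ 2) := Real.sqrt_pos.2 h0
  set ℓ := 1 + Real.log (1 + s ^ 2) with hℓ
  have h3 : 0 ≤ ℓ ^ (b - 1) := Real.rpow_nonneg (by linarith) _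
  have h4 : 1 ≤ ℓ ^ b := Real.one_le_rpow hl hb
  have h6 : s * dPhi b s ≥ 2 * (s ^ 2 / √(1 + s ^ 2)) * ℓ ^ b := by
    unfold dPhi
    rw [← hℓ]
    have e : s * (2 * (s / √(1 + s ^ 2) * (ℓ ^ b + 2 * b * ℓ ^ (b - 1)))) =
        2 * (s ^ 2 / √(1 + s ^ 2)) * ℓ ^ b + 2 * (s ^ 2 / √(1 + s ^ 2)) * (2 * b * ℓ ^ (b - 1)) := by
      ring
    rw [e]
    have : 0 ≤ 2 * (s ^ 2 / √(1 + s ^ 2)) * (2 * b * ℓ ^ (b - 1)) := by positivity
    linarith
  have h7 : phi b s = |s| * ℓ ^ b := rfl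
  rw [h7]
  rcases le_total 1 |s| with h | h
  · have h8 : 7 / 10 * |s| ≤ s ^ 2 / √(1 + s ^ 2) := by
      rw [le_div_iff₀ hs]
      have h9 : √(1 + s ^ 2) ≤ 10 / 7 * |s| := by
        rw [Real.sqrt_le_left (by positivity)]
        rw [mul_pow, sq_abs]
        have : 1 ≤ s ^ 2 := by
          rw [← sq_abs]
          nlinarith
        nlinarith
      have h10 : |s| * |s| = s ^ 2 := by rw [← sq, sq_abs]
      nlinarith [abs_nonneg s]
    nlinarith [abs_nonneg s]
  · have h8 : ℓ ^ b ≤ ℓ := by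
      calc ℓ ^ b ≤ ℓ ^ (1 : ℝ) := Real.rpow_le_rpow_of_exponent_le hl hb1
        _ = ℓ := Real.rpow_one _
    have h9 : ℓ ≤ 2 := by
      have : Real.log (1 + s ^ 2) ≤ s ^ 2 := by
        have := Real.log_le_sub_one_of_pos h0
        linarith
      have : s ^ 2 ≤ 1 := by
        rw [← sq_abs]
        nlinarith [abs_nonneg s]
      linarith
    have h10 : 0 ≤ 2 * (s ^ 2 / √(1 + s ^ 2)) * ℓ ^ b := by positivity
    have h11 : |s| * ℓ ^ b ≤ 1 * 2 := mul_le_mul h (h8.trans h9) (by linarith) (by norm_num)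
    linarith

theorem exp_dPhi_le {α : ℝ} (hα : 1 ≤ α) {A : ℝ} (hA : 0 < A) (s : ℝ) :
    Real.exp ((|A * dPhi (1 / α) s| / (12 * A)) ^ α) ≤ 2 * (1 + |s|) := by
  have hl := ell_one_le s
  have h0 : (0 : ℝ) < 1 + s ^ 2 := by positivity
  have hb : 0 ≤ 1 / α := by positivity
  have hb1 : 1 / α ≤ 1 := by
    rw [div_le_one (by linarith)]
    exact hα
  have h1 := abs_dPhi_le hb hb1 s
  have h2 : |A * dPhi (1 / α) s| / (12 * A) ≤ 1 / 2 * (1 + Real.log (1 + s ^ 2)) ^ (1 / α) := by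
    rw [abs_mul, abs_of_pos hA, div_le_iff₀ (by positivity)]
    nlinarith
  have h3 : (|A * dPhi (1 / α) s| / (12 * A)) ^ α ≤ 1 / 2 * (1 + Real.log (1 + s ^ 2)) := by
    calc (|A * dPhi (1 / α) s| / (12 * A)) ^ α ≤
        (1 / 2 * (1 + Real.log (1 + s ^ 2)) ^ (1 / α)) ^ α :=
          Real.rpow_le_rpow (by positivity) h2 (by linarith)
      _ = (1 / 2) ^ α * (1 + Real.log (1 + s ^ 2)) := by
          rw [Real.mul_rpow (by norm_num) (Real.rpow_nonneg (by linarith) _), ← Real.rpow_mul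
            (by linarith), one_div_mul_cancel (by linarith), Real.rpow_one]
      _ ≤ 1 / 2 * (1 + Real.log (1 + s ^ 2)) := by
          refine mul_le_mul_of_nonneg_right ?_ (by linarith)
          calc (1 / 2 : ℝ) ^ α ≤ (1 / 2 : ℝ) ^ (1 : ℝ) :=
              Real.rpow_le_rpow_of_exponent_ge (by norm_num) (by norm_num) hα
            _ = 1 / 2 := Real.rpow_one _
  have h4 : Real.exp (1 / 2 * (1 + Real.log (1 + s ^ 2))) = Real.exp (1 / 2) * √(1 + s ^ 2) := by
    rw [mul_add, mul_one, Real.exp_add]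
    congr 1
    rw [Real.sqrt_eq_rpow, Real.rpow_def_of_pos h0]
    ring_nf
  have h5 : √(1 + s ^ 2) ≤ 1 + |s| := by
    rw [Real.sqrt_le_left (by positivity)]
    nlinarith [abs_nonneg s, sq_abs s]
  have h6 : Real.exp (1 / 2) ≤ 2 := by
    have h7 : Real.exp (1 / 2) ^ 2 = Real.exp 1 := by
      rw [← Real.exp_nat_mul]
      norm_num
    have h8 := Real.exp_one_lt_d9
    have h9 := Real.exp_pos (1 / 2)
    nlinarith
  calc Real.exp ((|A * dPhi (1 / α) s| / (12 * A)) ^ α) ≤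
      Real.exp (1 / 2 * (1 + Real.log (1 + s ^ 2))) := Real.exp_le_exp.2 h3
    _ = Real.exp (1 / 2) * √(1 + s ^ 2) := h4
    _ ≤ 2 * (1 + |s|) := mul_le_mul h6 h5 (Real.sqrt_nonneg _) (by norm_num)

theorem continuous_Phi (b : ℝ) : Continuous (Phi b) :=
  continuous_iff_continuousAt.2 fun s => (hasDerivAt_Phi b s).continuousAt

section

variable {V E : Type*} [Fintype V] [Fintype E]

/-- The functional which is minimised. -/
noncomputable def Jfun (src tgt : E → V) (v₀ : V) (α : E → ℝ) (W : V → ℝ) (A : ℝ)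
    (F : V → ℝ) : ℝ :=
  A * ∑ e, Phi (1 / α e) (F (src e) - F (tgt e)) - ∑ v, W v * F v + F v₀ ^ 2

theorem continuous_Jfun (src tgt : E → V) (v₀ : V) (α : E → ℝ) (W : V → ℝ) (A : ℝ) :
    Continuous (Jfun src tgt v₀ α W A) := by
  unfold Jfun
  refine ((continuous_const.mul (continuous_finsetSum _ fun e _ => ?_)).sub
    (continuous_finsetSum _ fun v _ => continuous_const.mul (continuous_apply v))).add
    ((continuous_apply v₀).pow 2)
  exact (continuous_Phi _).comp ((continuous_apply _).sub (continuous_apply _))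

theorem Jfun_lower (src tgt : E → V) (v₀ : V)
    (hconn : ∀ (F : V → ℝ) (v : V), |F v| ≤ |F v₀| + ∑ e, |F (src e) - F (tgt e)|)
    (α : E → ℝ) (hb : ∀ e, 0 ≤ 1 / α e) (W : V → ℝ) {A N : ℝ} (hA : 0 < A) (F : V → ℝ)
    (h : ∑ v, W v * F v ≤ A * (∑ e, phi (1 / α e) (F (src e) - F (tgt e)) + N)) :
    min A 1 * ‖F‖ - (A * N + 1) ≤ Jfun src tgt v₀ α W A F := by
  have h2 : ∑ e, phi (1 / α e) (F (src e) - F (tgt e)) + ∑ e, |F (src e) - F (tgt e)| ≤
      ∑ e, Phi (1 / α e) (F (src e) - F (tgt e)) := by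
    rw [← Finset.sum_add_distrib]
    refine Finset.sum_le_sum fun e _ => ?_
    have a1 := phi_le_Phi (1 / α e) (F (src e) - F (tgt e))
    have a2 := abs_le_phi (hb e) (F (src e) - F (tgt e))
    linarith
  have h3 : A * ∑ e, |F (src e) - F (tgt e)| - A * N + (|F v₀| - 1) ≤
      Jfun src tgt v₀ α W A F := by
    unfold Jfun
    have a1 := mul_le_mul_of_nonneg_left h2 hA.le
    have a2 : |F v₀| - 1 ≤ F v₀ ^ 2 := by
      rw [← sq_abs]
      nlinarith [sq_nonneg (|F v₀| - 1), abs_nonneg (F v₀)]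
    rw [mul_add] at a1 h
    linarith
  have h4 : ‖F‖ ≤ |F v₀| + ∑ e, |F (src e) - F (tgt e)| := by
    rw [pi_norm_le_iff_of_nonneg (add_nonneg (abs_nonneg _)
      (Finset.sum_nonneg fun e _ => abs_nonneg _))]
    intro v
    exact hconn F v
  have h5 : 0 ≤ ∑ e, |F (src e) - F (tgt e)| := Finset.sum_nonneg fun e _ => abs_nonneg _
  have h6 : min A 1 * ‖F‖ ≤ |F v₀| + A * ∑ e, |F (src e) - F (tgt e)| := by
    have hm0 : 0 < min A 1 := lt_min hA one_pos
    calc min A 1 * ‖F‖ ≤ min A 1 * (|F v₀| + ∑ e, |F (src e) - F (tgt e)|) :=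
          mul_le_mul_of_nonneg_left h4 hm0.le
      _ = min A 1 * |F v₀| + min A 1 * ∑ e, |F (src e) - F (tgt e)| := by ring
      _ ≤ 1 * |F v₀| + A * ∑ e, |F (src e) - F (tgt e)| :=
          add_le_add (mul_le_mul_of_nonneg_right (min_le_right _ _) (abs_nonneg _))
            (mul_le_mul_of_nonneg_right (min_le_left _ _) h5)
      _ = _ := by ring
  linarith

theorem hasDerivAt_Jfun (src tgt : E → V) (v₀ : V) (α : E → ℝ) (W : V → ℝ) (A : ℝ)
    (F₀ H : V → ℝ) :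
    HasDerivAt (fun t : ℝ => Jfun src tgt v₀ α W A (fun v => F₀ v + t * H v))
      (A * ∑ e, dPhi (1 / α e) (F₀ (src e) - F₀ (tgt e)) * (H (src e) - H (tgt e)) -
        ∑ v, W v * H v + 2 * F₀ v₀ * H v₀) 0 := by
  unfold Jfun
  refine HasDerivAt.add (HasDerivAt.sub (HasDerivAt.const_mul A ?_) ?_) ?_
  · refine HasDerivAt.fun_sum fun e _ => ?_
    have h1 : HasDerivAt (fun t : ℝ => (F₀ (src e) + t * H (src e)) -
        (F₀ (tgt e) + t * H (tgt e))) (H (src e) - H (tgt e)) 0 := by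
      have a1 := ((hasDerivAt_id (0 : ℝ)).mul_const (H (src e))).const_add (F₀ (src e))
      have a2 := ((hasDerivAt_id (0 : ℝ)).mul_const (H (tgt e))).const_add (F₀ (tgt e))
      have a3 := a1.fun_sub a2
      simpa using a3
    have h2 := hasDerivAt_Phi (1 / α e) ((F₀ (src e) + 0 * H (src e)) -
        (F₀ (tgt e) + 0 * H (tgt e)))
    have h3 := HasDerivAt.comp (0 : ℝ) h2 h1
    have e0 : (F₀ (src e) + 0 * H (src e)) - (F₀ (tgt e) + 0 * H (tgt e)) =
        F₀ (src e) - F₀ (tgt e) := by ring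
    rw [e0] at h3
    exact h3
  · refine HasDerivAt.fun_sum fun v _ => ?_
    have a1 := (((hasDerivAt_id (0 : ℝ)).mul_const (H v)).const_add (F₀ v)).const_mul (W v)
    simpa using a1
  · have a1 := (((hasDerivAt_id (0 : ℝ)).mul_const (H v₀)).const_add (F₀ v₀)).fun_pow 2
    simpa using a1

/-- DUAL INEQUALITY TO FLOW on a finite connected graph. -/
theorem graph_flow (src tgt : E → V) (v₀ : V)
    (hconn : ∀ (F : V → ℝ) (v : V), |F v| ≤ |F v₀| + ∑ e, |F (src e) - F (tgt e)|)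
    (α : E → ℝ) (hα : ∀ e, 1 ≤ α e) (W : V → ℝ) {A N : ℝ} (hA : 0 < A)
    (h : ∀ F : V → ℝ, ∑ v, W v * F v ≤ A * (∑ e, phi (1 / α e) (F (src e) - F (tgt e)) + N)) :
    ∃ f : E → ℝ, (∀ F : V → ℝ, ∑ v, W v * F v = ∑ e, f e * (F (src e) - F (tgt e))) ∧
      ∑ e, Real.exp ((|f e| / (12 * A)) ^ α e) ≤ 17 * (N + Fintype.card E) := by
  have hb : ∀ e, 0 ≤ 1 / α e := fun e => by
    have := hα e
    positivity
  have hb1 : ∀ e, 1 / α e ≤ 1 := fun e => by
    rw [div_le_one (by linarith [hα e])]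
    exact hα e
  -- total mass zero
  have hW : ∑ v, W v = 0 := by
    have key : ∀ t : ℝ, t * ∑ v, W v ≤ A * N := by
      intro t
      have h1 := h (fun _ => t)
      simp only [sub_self, phi_zero, Finset.sum_const_zero, zero_add] at h1
      rw [← Finset.sum_mul] at h1
      linarith
    by_contra hne
    have h2 := key ((A * N + 1) / ∑ v, W v)
    rw [div_mul_cancel₀ _ hne] at h2
    linarith
  have hJtend : Filter.Tendsto (Jfun src tgt v₀ α W A) (Filter.cocompact (V → ℝ))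
      Filter.atTop := by
    refine Filter.tendsto_atTop_mono
      (fun F => Jfun_lower src tgt v₀ hconn α hb W hA F (h F)) ?_
    refine Filter.tendsto_atTop_add_const_right _ _ ?_
    exact (tendsto_norm_cocompact_atTop).const_mul_atTop (lt_min hA one_pos)
  obtain ⟨F₀, hF₀⟩ := (continuous_Jfun src tgt v₀ α W A).exists_forall_le hJtend
  -- first variation
  have hvar : ∀ H : V → ℝ, A * ∑ e, dPhi (1 / α e) (F₀ (src e) - F₀ (tgt e)) *
      (H (src e) - H (tgt e)) - ∑ v, W v * H v + 2 * F₀ v₀ * H v₀ = 0 := by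
    intro H
    have hmin : IsLocalMin
        (fun t : ℝ => Jfun src tgt v₀ α W A (fun v => F₀ v + t * H v)) 0 := by
      refine Filter.Eventually.of_forall fun t => ?_
      simp only [zero_mul, add_zero]
      exact hF₀ _
    exact hmin.hasDerivAt_eq_zero (hasDerivAt_Jfun src tgt v₀ α W A F₀ H)
  have hv0 : F₀ v₀ = 0 := by
    have := hvar (fun _ => 1)
    simp only [sub_self, mul_zero, Finset.sum_const_zero, mul_one, hW] at this
    linarith
  refine ⟨fun e => A * dPhi (1 / α e) (F₀ (src e) - F₀ (tgt e)), ?_, ?_⟩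
  · intro F
    have := hvar F
    rw [hv0] at this
    simp only [mul_zero, zero_mul, add_zero] at this
    have e : ∑ e, A * dPhi (1 / α e) (F₀ (src e) - F₀ (tgt e)) * (F (src e) - F (tgt e)) =
        A * ∑ e, dPhi (1 / α e) (F₀ (src e) - F₀ (tgt e)) * (F (src e) - F (tgt e)) := by
      rw [Finset.mul_sum]
      refine Finset.sum_congr rfl fun e _ => ?_
      ring
    rw [e]
    linarith
  · -- energy bound
    have h1 := hvar F₀
    rw [hv0] at h1
    simp only [mul_zero, add_zero] at h1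
    have h2 := h F₀
    have h3 : ∑ e, dPhi (1 / α e) (F₀ (src e) - F₀ (tgt e)) * (F₀ (src e) - F₀ (tgt e)) ≤
        ∑ e, phi (1 / α e) (F₀ (src e) - F₀ (tgt e)) + N := by
      have : A * ∑ e, dPhi (1 / α e) (F₀ (src e) - F₀ (tgt e)) * (F₀ (src e) - F₀ (tgt e)) ≤
          A * (∑ e, phi (1 / α e) (F₀ (src e) - F₀ (tgt e)) + N) := by linarith
      exact le_of_mul_le_mul_left this hA
    have h4 : ∑ e, (2 / 5 * |F₀ (src e) - F₀ (tgt e)| - 3) ≤ N := by
      have h5 : ∑ e, (2 / 5 * |F₀ (src e) - F₀ (tgt e)| - 3) ≤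
          ∑ e, (dPhi (1 / α e) (F₀ (src e) - F₀ (tgt e)) * (F₀ (src e) - F₀ (tgt e)) -
            phi (1 / α e) (F₀ (src e) - F₀ (tgt e))) := by
        refine Finset.sum_le_sum fun e _ => ?_
        have := mul_dPhi_ge (hb e) (hb1 e) (F₀ (src e) - F₀ (tgt e))
        linarith
      have h6 : ∑ e, (dPhi (1 / α e) (F₀ (src e) - F₀ (tgt e)) *
          (F₀ (src e) - F₀ (tgt e)) - phi (1 / α e) (F₀ (src e) - F₀ (tgt e))) =
          ∑ e, dPhi (1 / α e) (F₀ (src e) - F₀ (tgt e)) * (F₀ (src e) - F₀ (tgt e)) -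
          ∑ e, phi (1 / α e) (F₀ (src e) - F₀ (tgt e)) := Finset.sum_sub_distrib _ _
      linarith
    rw [Finset.sum_sub_distrib, ← Finset.mul_sum, Finset.sum_const, Finset.card_univ,
      nsmul_eq_mul] at h4
    calc ∑ e, Real.exp ((|A * dPhi (1 / α e) (F₀ (src e) - F₀ (tgt e))| / (12 * A)) ^ α e)
        ≤ ∑ e, 2 * (1 + |F₀ (src e) - F₀ (tgt e)|) :=
          Finset.sum_le_sum fun e _ => exp_dPhi_le (hα e) hA _
      _ = 2 * Fintype.card E + 2 * ∑ e, |F₀ (src e) - F₀ (tgt e)| := by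
          rw [← Finset.mul_sum, Finset.sum_add_distrib, Finset.sum_const, Finset.card_univ,
            nsmul_eq_mul]
          ring
      _ ≤ 17 * (N + Fintype.card E) := by
          have : (0 : ℝ) ≤ Fintype.card E := by positivity
          have hN : 0 ≤ N := by
            have h1 := h (fun _ => 0)
            simp only [mul_zero, Finset.sum_const_zero, sub_self, phi_zero, zero_add] at h1
            nlinarith
          linarith

end

end Pool.UMC
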