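import Mathlib

/-!
Finite couplings, their composition and the lift of a coupling of cell masses to a permutation
of points (Birkhoff-von Neumann).
-/

open Finset

namespace Pool.UMC

/-- `π` is a coupling of the mass functions `ρ` and `ρ'` on the finite set `S`. -/
structure IsCpl {V : Type*} (S : Finset V) (ρ ρ' : V → ℝ) (π : V → V → ℝ) : Prop where
  nonneg : ∀ x ∈ S, ∀ y ∈ S, 0 ≤ π x y
  left : ∀ x ∈ S, ∑ y ∈ S, π x y = ρ x
  right : ∀ y ∈ S, ∑ x ∈ S, π x y = ρ' y

/-- Composition of two couplings through the middle mass function `ρ`. -/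
noncomputable def comp {V : Type*} (S : Finset V) (ρ : V → ℝ) (P π : V → V → ℝ) : V → V → ℝ :=
  fun x y => ∑ z ∈ S, P x z * π z y / ρ z

theorem IsCpl.comp {V : Type*} {S : Finset V} {ρ₀ ρ ρ' : V → ℝ} {P π : V → V → ℝ}
    (hP : IsCpl S ρ₀ ρ P) (hπ : IsCpl S ρ ρ' π) (hρ : ∀ x ∈ S, 0 < ρ x) :
    IsCpl S ρ₀ ρ' (comp S ρ P π) := by
  refine ⟨?_, ?_, ?_⟩
  · intro x hx y hy
    exact Finset.sum_nonneg fun z hz =>
      div_nonneg (mul_nonneg (hP.nonneg x hx z hz) (hπ.nonneg z hz y hy)) (hρ z hz).le
  · intro x hx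
    unfold Pool.UMC.comp
    rw [Finset.sum_comm]
    rw [← hP.left x hx]
    refine Finset.sum_congr rfl fun z hz => ?_
    rw [← Finset.sum_div, ← Finset.mul_sum, hπ.left z hz]
    field_simp [(hρ z hz).ne']
  · intro y hy
    unfold Pool.UMC.comp
    rw [Finset.sum_comm]
    rw [← hπ.right y hy]
    refine Finset.sum_congr rfl fun z hz => ?_
    rw [← Finset.sum_div, ← Finset.sum_mul, hP.right z hz]
    field_simp [(hρ z hz).ne']

theorem comp_cost {V : Type*} {S : Finset V} {ρ₀ ρ ρ' : V → ℝ} {P π : V → V → ℝ}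
    (hP : IsCpl S ρ₀ ρ P) (hπ : IsCpl S ρ ρ' π) (hρ : ∀ x ∈ S, 0 < ρ x)
    (H' H : V → V → ℝ) (C : V → ℝ)
    (h : ∀ x ∈ S, ∀ z ∈ S, ∀ y ∈ S, P x z ≠ 0 → π z y ≠ 0 → H' x y ≤ H x z + C z) :
    ∑ x ∈ S, ∑ y ∈ S, Pool.UMC.comp S ρ P π x y * H' x y ≤
      ∑ x ∈ S, ∑ z ∈ S, P x z * H x z + ∑ z ∈ S, ρ z * C z := by
  have e1 : ∑ x ∈ S, ∑ z ∈ S, P x z * H x z + ∑ z ∈ S, ρ z * C z =
      ∑ x ∈ S, ∑ z ∈ S, P x z * (H x z + C z) := by
    have : ∑ z ∈ S, ρ z * C z = ∑ x ∈ S, ∑ z ∈ S, P x z * C z := by
      rw [Finset.sum_comm]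
      refine Finset.sum_congr rfl fun z hz => ?_
      rw [← Finset.sum_mul, hP.right z hz]
    rw [this, ← Finset.sum_add_distrib]
    refine Finset.sum_congr rfl fun x _ => ?_
    rw [← Finset.sum_add_distrib]
    refine Finset.sum_congr rfl fun z _ => ?_
    ring
  rw [e1]
  refine Finset.sum_le_sum fun x hx => ?_
  have e2 : ∀ z ∈ S, P x z * (H x z + C z) = ∑ y ∈ S, P x z * π z y / ρ z * (H x z + C z) := by
    intro z hz
    rw [← Finset.sum_mul, ← Finset.sum_div, ← Finset.mul_sum, hπ.left z hz]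
    have := (hρ z hz).ne'
    field_simp
  rw [Finset.sum_congr rfl e2, Finset.sum_comm]
  refine Finset.sum_le_sum fun y hy => ?_
  unfold Pool.UMC.comp
  rw [Finset.sum_mul]
  refine Finset.sum_le_sum fun z hz => ?_
  by_cases h1 : P x z = 0
  · simp [h1]
  by_cases h2 : π z y = 0
  · simp [h2]
  · exact mul_le_mul_of_nonneg_left (h x hx z hz y hy h1 h2)
      (div_nonneg (mul_nonneg (hP.nonneg x hx z hz) (hπ.nonneg z hz y hy)) (hρ z hz).le)

/-- The diagonal coupling. -/
noncomputable def diag {V : Type*} [DecidableEq V] (ρ : V → ℝ) : V → V → ℝ :=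
  fun x y => if x = y then ρ x else 0

theorem isCpl_diag {V : Type*} [DecidableEq V] {S : Finset V} {ρ : V → ℝ}
    (hρ : ∀ x ∈ S, 0 ≤ ρ x) : IsCpl S ρ ρ (diag ρ) := by
  refine ⟨?_, ?_, ?_⟩
  · intro x hx y _
    unfold diag
    split_ifs
    · exact hρ x hx
    · exact le_rfl
  · intro x hx
    unfold diag
    rw [Finset.sum_ite_eq]
    simp [hx]
  · intro y hy
    unfold diag
    rw [Finset.sum_ite_eq']
    simp [hy]

/-- A doubly stochastic matrix gives a permutation which is at least as good as the average. -/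
theorem exists_perm_le {n : ℕ} (M c : Fin n → Fin n → ℝ) (h0 : ∀ i j, 0 ≤ M i j)
    (h1 : ∀ i, ∑ j, M i j = 1) (h2 : ∀ j, ∑ i, M i j = 1) :
    ∃ σ : Equiv.Perm (Fin n), ∑ i, c i (σ i) ≤ ∑ i, ∑ j, M i j * c i j := by
  have hM : (Matrix.of M) ∈ doublyStochastic ℝ (Fin n) := by
    rw [mem_doublyStochastic_iff_sum]
    exact ⟨h0, h1, h2⟩
  obtain ⟨w, hw0, hw1, hw⟩ := exists_eq_sum_perm_of_mem_doublyStochastic hM
  by_contra hcon
  push Not at hcon
  have e : ∑ i, ∑ j, M i j * c i j = ∑ σ : Equiv.Perm (Fin n), w σ * ∑ i, c i (σ i) := by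
    have e1 : ∀ i j, M i j = ∑ σ : Equiv.Perm (Fin n), w σ * (if σ i = j then 1 else 0) := by
      intro i j
      have := congrFun (congrFun hw i) j
      rw [Matrix.sum_apply] at this
      simp only [Matrix.smul_apply, smul_eq_mul, Matrix.of_apply] at this
      rw [← this]
      refine Finset.sum_congr rfl fun σ _ => ?_
      simp [Equiv.Perm.permMatrix, Equiv.toPEquiv, PEquiv.toMatrix]
    calc ∑ i, ∑ j, M i j * c i j
        = ∑ i, ∑ j, ∑ σ : Equiv.Perm (Fin n), w σ * (if σ i = j then 1 else 0) * c i j := by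
          refine Finset.sum_congr rfl fun i _ => Finset.sum_congr rfl fun j _ => ?_
          rw [e1 i j, Finset.sum_mul]
      _ = ∑ i, ∑ σ : Equiv.Perm (Fin n), w σ * c i (σ i) := by
          refine Finset.sum_congr rfl fun i _ => ?_
          rw [Finset.sum_comm]
          refine Finset.sum_congr rfl fun σ _ => ?_
          simp [mul_ite, ite_mul]
      _ = _ := by
          rw [Finset.sum_comm]
          refine Finset.sum_congr rfl fun σ _ => ?_
          rw [Finset.mul_sum]
  have : ∑ σ : Equiv.Perm (Fin n), w σ * (∑ i, ∑ j, M i j * c i j) <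
      ∑ σ : Equiv.Perm (Fin n), w σ * ∑ i, c i (σ i) := by
    have hpos : ∃ σ : Equiv.Perm (Fin n), 0 < w σ := by
      by_contra hno
      push Not at hno
      have : ∑ σ : Equiv.Perm (Fin n), w σ ≤ 0 := Finset.sum_nonpos fun σ _ => hno σ
      linarith
    obtain ⟨σ₀, hσ₀⟩ := hpos
    refine Finset.sum_lt_sum (fun σ _ => ?_) ⟨σ₀, Finset.mem_univ _, ?_⟩
    · exact mul_le_mul_of_nonneg_left (hcon σ).le (hw0 σ)
    · exact mul_lt_mul_of_pos_left (hcon σ₀) hσ₀
  rw [← Finset.sum_mul, hw1, one_mul, e] at this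
  exact lt_irrefl _ this

/-- Lift of a coupling of cell masses to a permutation of points. -/
theorem lift_perm {V Q : Type*} [DecidableEq Q] {n : ℕ} {S : Finset V} (cell : V → Q)
    (cx cy : Fin n → Q) {ρ₀ ρ₁ : V → ℝ} {P : V → V → ℝ} (hP : IsCpl S ρ₀ ρ₁ P)
    (hx : ∀ i, ∑ x ∈ S with cell x = cx i, ρ₀ x = ((univ.filter fun k => cx k = cx i).card : ℝ))
    (hy : ∀ i, ∑ x ∈ S with cell x = cy i, ρ₁ x = ((univ.filter fun k => cy k = cy i).card : ℝ))
    (hxS : ∀ x ∈ S, ∃ i, cx i = cell x) (hyS : ∀ x ∈ S, ∃ i, cy i = cell x)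
    (c : Fin n → Fin n → ℝ) (G : V → V → ℝ)
    (hc : ∀ i j, ∀ x ∈ S, ∀ y ∈ S, cell x = cx i → cell y = cy j → c i j ≤ G x y) :
    ∃ σ : Equiv.Perm (Fin n), ∑ i, c i (σ i) ≤ ∑ x ∈ S, ∑ y ∈ S, P x y * G x y := by
  classical
  set NX : Q → ℝ := fun q => ((univ.filter fun k => cx k = q).card : ℝ) with hNX
  set NY : Q → ℝ := fun q => ((univ.filter fun k => cy k = q).card : ℝ) with hNY
  have hNXpos : ∀ x ∈ S, 0 < NX (cell x) := by
    intro x hxS'
    obtain ⟨i, hi⟩ := hxS x hxS'
    have : 0 < (univ.filter fun k => cx k = cell x).card :=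
      Finset.card_pos.2 ⟨i, by simp [hi]⟩
    exact Nat.cast_pos.2 this
  have hNYpos : ∀ x ∈ S, 0 < NY (cell x) := by
    intro x hxS'
    obtain ⟨i, hi⟩ := hyS x hxS'
    have : 0 < (univ.filter fun k => cy k = cell x).card :=
      Finset.card_pos.2 ⟨i, by simp [hi]⟩
    exact Nat.cast_pos.2 this
  -- the matrix
  set M : Fin n → Fin n → ℝ := fun i j => ∑ x ∈ S, ∑ y ∈ S,
    (if cell x = cx i then (1 : ℝ) else 0) * (if cell y = cy j then (1 : ℝ) else 0) *
      (P x y / (NX (cell x) * NY (cell y))) with hM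
  have hcntX : ∀ q, ∑ i, (if q = cx i then (1 : ℝ) else 0) = NX q := by
    intro q
    rw [hNX]
    simp only
    rw [Finset.card_filter]
    push_cast
    refine Finset.sum_congr rfl fun i _ => ?_
    by_cases h : q = cx i
    · simp [h]
    · simp [h, Ne.symm h]
  have hcntY : ∀ q, ∑ i, (if q = cy i then (1 : ℝ) else 0) = NY q := by
    intro q
    rw [hNY]
    simp only
    rw [Finset.card_filter]
    push_cast
    refine Finset.sum_congr rfl fun i _ => ?_
    by_cases h : q = cy i
    · simp [h]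
    · simp [h, Ne.symm h]
  have hMnn : ∀ i j, 0 ≤ M i j := by
    intro i j
    refine Finset.sum_nonneg fun x hx' => Finset.sum_nonneg fun y hy' => ?_
    refine mul_nonneg (mul_nonneg ?_ ?_) (div_nonneg (hP.nonneg x hx' y hy')
      (mul_nonneg (hNXpos x hx').le (hNYpos y hy').le))
    · split_ifs <;> norm_num
    · split_ifs <;> norm_num
  have hMrow : ∀ i, ∑ j, M i j = 1 := by
    intro i
    calc ∑ j, M i j = ∑ x ∈ S, ∑ y ∈ S, ∑ j, (if cell x = cx i then (1 : ℝ) else 0) *
          (if cell y = cy j then (1 : ℝ) else 0) * (P x y / (NX (cell x) * NY (cell y))) := by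
          rw [hM]
          simp only
          rw [Finset.sum_comm]
          refine Finset.sum_congr rfl fun x _ => ?_
          rw [Finset.sum_comm]
      _ = ∑ x ∈ S, ∑ y ∈ S, (if cell x = cx i then (1 : ℝ) else 0) * (P x y / NX (cell x)) := by
          refine Finset.sum_congr rfl fun x _ => Finset.sum_congr rfl fun y hy' => ?_
          rw [← Finset.sum_mul, ← Finset.mul_sum, hcntY]
          have := (hNYpos y hy').ne'
          field_simp
      _ = ∑ x ∈ S, (if cell x = cx i then (1 : ℝ) else 0) * (ρ₀ x / NX (cell x)) := by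
          refine Finset.sum_congr rfl fun x hx' => ?_
          rw [← Finset.mul_sum, ← Finset.sum_div, hP.left x hx']
      _ = ∑ x ∈ S with cell x = cx i, ρ₀ x / NX (cx i) := by
          rw [Finset.sum_filter]
          refine Finset.sum_congr rfl fun x _ => ?_
          by_cases h : cell x = cx i
          · simp [h]
          · simp [h]
      _ = 1 := by
          rw [← Finset.sum_div, hx i]
          have : (0 : ℝ) < NX (cx i) := by
            have : 0 < (univ.filter fun k => cx k = cx i).card :=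
              Finset.card_pos.2 ⟨i, by simp⟩
            exact Nat.cast_pos.2 this
          exact div_self this.ne'
  have hMcol : ∀ j, ∑ i, M i j = 1 := by
    intro j
    calc ∑ i, M i j = ∑ x ∈ S, ∑ y ∈ S, ∑ i, (if cell x = cx i then (1 : ℝ) else 0) *
          (if cell y = cy j then (1 : ℝ) else 0) * (P x y / (NX (cell x) * NY (cell y))) := by
          rw [hM]
          simp only
          rw [Finset.sum_comm]
          refine Finset.sum_congr rfl fun x _ => ?_
          rw [Finset.sum_comm]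
      _ = ∑ x ∈ S, ∑ y ∈ S, (if cell y = cy j then (1 : ℝ) else 0) * (P x y / NY (cell y)) := by
          refine Finset.sum_congr rfl fun x hx' => Finset.sum_congr rfl fun y _ => ?_
          rw [← Finset.sum_mul, ← Finset.sum_mul, hcntX]
          have := (hNXpos x hx').ne'
          field_simp
      _ = ∑ y ∈ S, (if cell y = cy j then (1 : ℝ) else 0) * (ρ₁ y / NY (cell y)) := by
          rw [Finset.sum_comm]
          refine Finset.sum_congr rfl fun y hy' => ?_
          rw [← Finset.mul_sum, ← Finset.sum_div, hP.right y hy']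
      _ = ∑ y ∈ S with cell y = cy j, ρ₁ y / NY (cy j) := by
          rw [Finset.sum_filter]
          refine Finset.sum_congr rfl fun y _ => ?_
          by_cases h : cell y = cy j
          · simp [h]
          · simp [h]
      _ = 1 := by
          rw [← Finset.sum_div, hy j]
          have : (0 : ℝ) < NY (cy j) := by
            have : 0 < (univ.filter fun k => cy k = cy j).card :=
              Finset.card_pos.2 ⟨j, by simp⟩
            exact Nat.cast_pos.2 this
          exact div_self this.ne'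
  obtain ⟨σ, hσ⟩ := exists_perm_le M c hMnn hMrow hMcol
  refine ⟨σ, hσ.trans ?_⟩
  calc ∑ i, ∑ j, M i j * c i j
      = ∑ i, ∑ j, ∑ x ∈ S, ∑ y ∈ S, (if cell x = cx i then (1 : ℝ) else 0) *
          (if cell y = cy j then (1 : ℝ) else 0) *
            (P x y / (NX (cell x) * NY (cell y))) * c i j := by
        refine Finset.sum_congr rfl fun i _ => Finset.sum_congr rfl fun j _ => ?_
        rw [hM]
        simp only
        rw [Finset.sum_mul]
        refine Finset.sum_congr rfl fun x _ => ?_
        rw [Finset.sum_mul]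
    _ ≤ ∑ i, ∑ j, ∑ x ∈ S, ∑ y ∈ S, (if cell x = cx i then (1 : ℝ) else 0) *
          (if cell y = cy j then (1 : ℝ) else 0) *
            (P x y / (NX (cell x) * NY (cell y))) * G x y := by
        refine Finset.sum_le_sum fun i _ => Finset.sum_le_sum fun j _ =>
          Finset.sum_le_sum fun x hx' => Finset.sum_le_sum fun y hy' => ?_
        by_cases h : cell x = cx i
        · by_cases h' : cell y = cy j
          · simp only [h, h', if_true, one_mul]
            rw [← h, ← h']
            exact mul_le_mul_of_nonneg_left (hc i j x hx' y hy' h h')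
              (div_nonneg (hP.nonneg x hx' y hy') (mul_nonneg (hNXpos x hx').le (hNYpos y hy').le))
          · simp [h']
        · simp [h]
    _ = ∑ x ∈ S, ∑ y ∈ S, ∑ i, ∑ j, (if cell x = cx i then (1 : ℝ) else 0) *
          (if cell y = cy j then (1 : ℝ) else 0) *
            (P x y / (NX (cell x) * NY (cell y))) * G x y := by
        have s1 : ∀ i : Fin n, ∑ j : Fin n, ∑ x ∈ S, ∑ y ∈ S,
            (if cell x = cx i then (1 : ℝ) else 0) * (if cell y = cy j then (1 : ℝ) else 0) *
            (P x y / (NX (cell x) * NY (cell y))) * G x y =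
            ∑ x ∈ S, ∑ y ∈ S, ∑ j : Fin n, (if cell x = cx i then (1 : ℝ) else 0) *
            (if cell y = cy j then (1 : ℝ) else 0) *
            (P x y / (NX (cell x) * NY (cell y))) * G x y := by
          intro i
          rw [Finset.sum_comm]
          refine Finset.sum_congr rfl fun x _ => ?_
          rw [Finset.sum_comm]
        rw [Finset.sum_congr rfl fun i _ => s1 i, Finset.sum_comm]
        refine Finset.sum_congr rfl fun x _ => ?_
        rw [Finset.sum_comm]
    _ = ∑ x ∈ S, ∑ y ∈ S, P x y * G x y := by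
        refine Finset.sum_congr rfl fun x hx' => Finset.sum_congr rfl fun y hy' => ?_
        have s2 : ∀ i : Fin n, ∑ j : Fin n, (if cell x = cx i then (1 : ℝ) else 0) *
            (if cell y = cy j then (1 : ℝ) else 0) *
            (P x y / (NX (cell x) * NY (cell y))) * G x y =
            (if cell x = cx i then (1 : ℝ) else 0) * (NY (cell y) *
            (P x y / (NX (cell x) * NY (cell y))) * G x y) := by
          intro i
          rw [← Finset.sum_mul, ← Finset.sum_mul, ← Finset.mul_sum, hcntY]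
          ring
        rw [Finset.sum_congr rfl fun i _ => s2 i, ← Finset.sum_mul, hcntX]
        have a1 := (hNXpos x hx').ne'
        have a2 := (hNYpos y hy').ne'
        field_simp

end Pool.UMC
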