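import Pool.Agent.H85.UMC.Glue

/-!
The monotone coupling of two mass functions on a line and on the rows of a grid.
-/

open Finset

namespace Pool.UMC

/-- Length of the intersection of the intervals `[p, q]` and `[u, v]`. -/
noncomputable def inter (p q u v : ℝ) : ℝ := max 0 (min q v - max p u)

theorem inter_nonneg (p q u v : ℝ) : 0 ≤ inter p q u v := le_max_left _ _

theorem inter_comm (p q u v : ℝ) : inter p q u v = inter u v p q := by
  unfold inter
  rw [min_comm, max_comm p u]

theorem inter_eq {p q u v : ℝ} (hpq : p ≤ q) (huv : u ≤ v) :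
    inter p q u v = max p (min q v) - max p (min q u) := by
  unfold inter
  simp only [max_def, min_def]
  split_ifs <;> linarith

theorem inter_pos {p q u v : ℝ} (h : inter p q u v ≠ 0) : p < v ∧ u < q := by
  unfold inter at h
  have h1 : 0 < min q v - max p u := by
    by_contra hc
    push Not at hc
    exact h (max_eq_left hc)
  have h2 : max p u < min q v := by linarith
  exact ⟨(le_max_left p u).trans_lt (h2.trans_le (min_le_right q v)),
    (le_max_right p u).trans_lt (h2.trans_le (min_le_left q v))⟩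

/-- Cumulative sums. -/
noncomputable def cum (a : ℕ → ℝ) (i : ℕ) : ℝ := ∑ k ∈ range i, a k

theorem cum_zero (a : ℕ → ℝ) : cum a 0 = 0 := by simp [cum]

theorem cum_succ (a : ℕ → ℝ) (i : ℕ) : cum a (i + 1) = cum a i + a i := by
  simp [cum, Finset.sum_range_succ]

theorem cum_add_le {a : ℕ → ℝ} {L : ℕ} {β : ℝ} (ha : ∀ i < L, β ≤ a i) {i j : ℕ} (hij : i ≤ j)
    (hj : j ≤ L) : cum a i + β * ((j : ℝ) - i) ≤ cum a j := by
  induction j, hij using Nat.le_induction with
  | base => simp
  | succ j hij ih =>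
    have h1 := ih (by omega)
    have h2 := ha j (by omega)
    rw [cum_succ]
    push_cast
    nlinarith

/-- The monotone coupling. -/
noncomputable def mono1 (a b : ℕ → ℝ) (i j : ℕ) : ℝ :=
  inter (cum a i) (cum a (i + 1)) (cum b j) (cum b (j + 1))

theorem mono1_nonneg (a b : ℕ → ℝ) (i j : ℕ) : 0 ≤ mono1 a b i j := inter_nonneg _ _ _ _

theorem mono1_comm (a b : ℕ → ℝ) (i j : ℕ) : mono1 a b i j = mono1 b a j i := inter_comm _ _ _ _

theorem mono1_left {a b : ℕ → ℝ} {L : ℕ} (ha : ∀ i < L, 0 ≤ a i) (hb : ∀ i < L, 0 ≤ b i)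
    (hL : cum a L = cum b L) {i : ℕ} (hi : i < L) : ∑ j ∈ range L, mono1 a b i j = a i := by
  have hp : 0 ≤ cum a i := by
    have := cum_add_le (a := a) (L := L) (β := 0) ha (Nat.zero_le i) hi.le
    rw [cum_zero] at this
    linarith
  have hpq : cum a i ≤ cum a (i + 1) := by
    rw [cum_succ]
    linarith [ha i hi]
  have hq : cum a (i + 1) ≤ cum b L := by
    have := cum_add_le (a := a) (L := L) (β := 0) ha (show i + 1 ≤ L by omega) le_rfl
    rw [← hL]
    linarith
  have e : ∀ j ∈ range L, mono1 a b i j =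
      max (cum a i) (min (cum a (i + 1)) (cum b (j + 1))) -
        max (cum a i) (min (cum a (i + 1)) (cum b j)) := by
    intro j hj
    refine inter_eq hpq ?_
    rw [cum_succ]
    linarith [hb j (Finset.mem_range.1 hj)]
  rw [Finset.sum_congr rfl e,
    Finset.sum_range_sub (fun j => max (cum a i) (min (cum a (i + 1)) (cum b j))), cum_zero,
    min_eq_left hq, max_eq_right hpq, min_eq_right (hp.trans hpq), max_eq_left hp, cum_succ]
  ring

theorem mono1_right {a b : ℕ → ℝ} {L : ℕ} (ha : ∀ i < L, 0 ≤ a i) (hb : ∀ i < L, 0 ≤ b i)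
    (hL : cum a L = cum b L) {j : ℕ} (hj : j < L) : ∑ i ∈ range L, mono1 a b i j = b j := by
  rw [← mono1_left hb ha hL.symm hj]
  exact Finset.sum_congr rfl fun i _ => mono1_comm _ _ _ _

theorem mono1_disp {a b : ℕ → ℝ} {L : ℕ} {β δ : ℝ} (hβ : 0 < β) (hb : ∀ i < L, β ≤ b i)
    {i j : ℕ} (hi : i < L) (hj : j < L) (h0 : |cum a i - cum b i| ≤ δ)
    (h1 : |cum a (i + 1) - cum b (i + 1)| ≤ δ) (h : mono1 a b i j ≠ 0) :
    |(i : ℝ) - j| ≤ 1 + δ / β := by
  have hδ : 0 ≤ δ := (abs_nonneg _).trans h0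
  have hδβ : 0 ≤ δ / β := div_nonneg hδ hβ.le
  obtain ⟨hA, hB⟩ := inter_pos h
  rcases lt_trichotomy i j with hij | hij | hij
  · have h2 := cum_add_le hb (show i + 1 ≤ j by omega) hj.le
    have h3 : β * ((j : ℝ) - (i + 1 : ℕ)) < δ := by
      have := le_abs_self (cum a (i + 1) - cum b (i + 1))
      linarith
    have h4 : (j : ℝ) - (i + 1 : ℕ) < δ / β := by
      rw [lt_div_iff₀ hβ]
      linarith
    have h5 : (i : ℝ) < j := by exact_mod_cast hij
    rw [abs_of_neg (by linarith)]
    push_cast at h4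
    linarith
  · subst hij
    simp
    linarith
  · have h2 := cum_add_le hb (show j + 1 ≤ i by omega) hi.le
    have h3 : β * ((i : ℝ) - (j + 1 : ℕ)) < δ := by
      have := neg_abs_le (cum a i - cum b i)
      linarith
    have h4 : (i : ℝ) - (j + 1 : ℕ) < δ / β := by
      rw [lt_div_iff₀ hβ]
      linarith
    have h5 : (j : ℝ) < i := by exact_mod_cast hij
    rw [abs_of_pos (by linarith)]
    push_cast at h4
    linarith

/-- Monotone coupling in the rows of a square grid. -/
noncomputable def hcpl (ρ ρ' : ℕ × ℕ → ℝ) : ℕ × ℕ → ℕ × ℕ → ℝ := fun x y =>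
  if x.2 = y.2 then mono1 (fun i => ρ (i, x.2)) (fun i => ρ' (i, x.2)) x.1 y.1 else 0

/-- Monotone coupling in the columns of a square grid. -/
noncomputable def vcpl (ρ ρ' : ℕ × ℕ → ℝ) : ℕ × ℕ → ℕ × ℕ → ℝ := fun x y =>
  hcpl (fun z => ρ z.swap) (fun z => ρ' z.swap) x.swap y.swap

theorem isCpl_hcpl {L : ℕ} {ρ ρ' : ℕ × ℕ → ℝ} (h0 : ∀ x ∈ range L ×ˢ range L, 0 ≤ ρ x)
    (h1 : ∀ x ∈ range L ×ˢ range L, 0 ≤ ρ' x)
    (hs : ∀ j < L, cum (fun i => ρ (i, j)) L = cum (fun i => ρ' (i, j)) L) :
    IsCpl (range L ×ˢ range L) ρ ρ' (hcpl ρ ρ') := by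
  refine ⟨?_, ?_, ?_⟩
  · intro x _ y _
    unfold hcpl
    split_ifs
    · exact mono1_nonneg _ _ _ _
    · exact le_rfl
  · rintro ⟨i, j⟩ hx
    rw [Finset.mem_product, Finset.mem_range, Finset.mem_range] at hx
    unfold hcpl
    rw [Finset.sum_product]
    simp only
    rw [← mono1_left (a := fun i => ρ (i, j)) (b := fun i => ρ' (i, j)) (L := L)
      (fun k hk => h0 _ (by simp [hk, hx.2])) (fun k hk => h1 _ (by simp [hk, hx.2]))
      (hs j hx.2) hx.1]
    refine Finset.sum_congr rfl fun k _ => ?_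
    rw [Finset.sum_ite_eq]
    simp [hx.2]
  · rintro ⟨i, j⟩ hx
    rw [Finset.mem_product, Finset.mem_range, Finset.mem_range] at hx
    unfold hcpl
    rw [Finset.sum_product]
    simp only
    rw [← mono1_right (a := fun i => ρ (i, j)) (b := fun i => ρ' (i, j)) (L := L)
      (fun k hk => h0 _ (by simp [hk, hx.2])) (fun k hk => h1 _ (by simp [hk, hx.2]))
      (hs j hx.2) hx.1]
    refine Finset.sum_congr rfl fun k _ => ?_
    rw [Finset.sum_ite_eq']
    simp [hx.2]

theorem sum_swap (L : ℕ) (F : ℕ × ℕ → ℝ) :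
    ∑ x ∈ range L ×ˢ range L, F x.swap = ∑ x ∈ range L ×ˢ range L, F x := by
  rw [Finset.sum_product, Finset.sum_product_right]
  rfl

theorem isCpl_vcpl {L : ℕ} {ρ ρ' : ℕ × ℕ → ℝ} (h0 : ∀ x ∈ range L ×ˢ range L, 0 ≤ ρ x)
    (h1 : ∀ x ∈ range L ×ˢ range L, 0 ≤ ρ' x)
    (hs : ∀ i < L, cum (fun j => ρ (i, j)) L = cum (fun j => ρ' (i, j)) L) :
    IsCpl (range L ×ˢ range L) ρ ρ' (vcpl ρ ρ') := by
  have hsw : ∀ x : ℕ × ℕ, x ∈ range L ×ˢ range L → x.swap ∈ range L ×ˢ range L := by
    rintro ⟨i, j⟩ hx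
    simp only [Finset.mem_product, Finset.mem_range, Prod.swap_prod_mk] at hx ⊢
    exact ⟨hx.2, hx.1⟩
  have key := isCpl_hcpl (L := L) (ρ := fun z => ρ z.swap) (ρ' := fun z => ρ' z.swap)
    (fun x hx => h0 _ (hsw x hx)) (fun x hx => h1 _ (hsw x hx)) hs
  refine ⟨?_, ?_, ?_⟩
  · intro x hx y hy
    exact key.nonneg _ (hsw x hx) _ (hsw y hy)
  · intro x hx
    have := key.left _ (hsw x hx)
    rw [Prod.swap_swap] at this
    rw [← this, ← sum_swap L]
    refine Finset.sum_congr rfl fun y _ => ?_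
    unfold vcpl
    rw [Prod.swap_swap]
  · intro x hx
    have := key.right _ (hsw x hx)
    rw [Prod.swap_swap] at this
    rw [← this, ← sum_swap L]
    refine Finset.sum_congr rfl fun y _ => ?_
    unfold vcpl
    rw [Prod.swap_swap]

/-- Fine masses: every cell is divided in `K × K` equal parts. -/
noncomputable def fine (K : ℕ) (r : ℕ → ℕ → ℝ) : ℕ × ℕ → ℝ :=
  fun x => r (x.1 / K) (x.2 / K) / (K : ℝ) ^ 2

theorem cum_fine {K : ℕ} (hK : 0 < K) {T : ℝ} {r r' f : ℕ → ℕ → ℝ}
    (h : ∀ a b, r a b - r' a b = (f (a + 1) b - f a b) / T) (j i : ℕ) (hf : f 0 (j / K) = 0) :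
    cum (fun k => fine K r (k, j)) i - cum (fun k => fine K r' (k, j)) i =
      (((K : ℝ) - (i % K : ℕ)) * f (i / K) (j / K) + (i % K : ℕ) * f (i / K + 1) (j / K)) /
        (T * (K : ℝ) ^ 2) := by
  have hK' : (K : ℝ) ≠ 0 := by positivity
  induction i with
  | zero => simp [cum_zero, hf]
  | succ i ih =>
    rw [cum_succ, cum_succ]
    have e : fine K r (i, j) - fine K r' (i, j) =
        (f (i / K + 1) (j / K) - f (i / K) (j / K)) / (T * (K : ℝ) ^ 2) := by
      unfold fine
      simp only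
      rw [← sub_div, h, div_div]
    have e2 : cum (fun k => fine K r (k, j)) i + fine K r (i, j) -
        (cum (fun k => fine K r' (k, j)) i + fine K r' (i, j)) =
        (cum (fun k => fine K r (k, j)) i - cum (fun k => fine K r' (k, j)) i) +
        (fine K r (i, j) - fine K r' (i, j)) := by ring
    rw [e2, ih, e, ← add_div]
    congr 1
    have hlt : i % K < K := Nat.mod_lt _ hK
    rcases Nat.lt_or_ge (i % K + 1) K with hc | hc
    · have d1 : (i + 1) / K = i / K := by
        rw [Nat.succ_div]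
        have : ¬ K ∣ i + 1 := by
          intro hd
          have := Nat.mod_eq_zero_of_dvd hd
          rw [Nat.add_mod] at this
          have h1 : (i % K + 1 % K) = i % K + 1 := by
            rw [Nat.mod_eq_of_lt (show 1 < K by omega)]
          rw [h1, Nat.mod_eq_of_lt hc] at this
          omega
        simp [this]
      have d2 : (i + 1) % K = i % K + 1 := by
        have h1 : (i % K + 1 % K) = i % K + 1 := by
          rw [Nat.mod_eq_of_lt (show 1 < K by omega)]
        rw [Nat.add_mod, h1, Nat.mod_eq_of_lt hc]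
      rw [d1, d2]
      push_cast
      ring
    · have hmod : i % K = K - 1 := by omega
      have hdvd : K ∣ i + 1 := by
        have := Nat.div_add_mod i K
        refine ⟨i / K + 1, ?_⟩
        rw [Nat.mul_add]
        omega
      have d1 : (i + 1) / K = i / K + 1 := by
        rw [Nat.succ_div]
        simp [hdvd]
      have d2 : (i + 1) % K = 0 := Nat.mod_eq_zero_of_dvd hdvd
      rw [d1, d2, hmod]
      rw [Nat.cast_sub (by omega : 1 ≤ K)]
      push_cast
      ring

theorem cum_fine_abs {K : ℕ} (hK : 0 < K) {T : ℝ} (hT : 0 < T) {r r' f : ℕ → ℕ → ℝ}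
    (h : ∀ a b, r a b - r' a b = (f (a + 1) b - f a b) / T) (j i : ℕ) (hf : f 0 (j / K) = 0) :
    |cum (fun k => fine K r (k, j)) i - cum (fun k => fine K r' (k, j)) i| ≤
      max |f (i / K) (j / K)| |f (i / K + 1) (j / K)| / (T * K) ∧
    |cum (fun k => fine K r (k, j)) (i + 1) - cum (fun k => fine K r' (k, j)) (i + 1)| ≤
      max |f (i / K) (j / K)| |f (i / K + 1) (j / K)| / (T * K) := by
  have hK' : (0 : ℝ) < K := by exact_mod_cast hK
  set M := max |f (i / K) (j / K)| |f (i / K + 1) (j / K)| with hM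
  have m1 : |f (i / K) (j / K)| ≤ M := le_max_left _ _
  have m2 : |f (i / K + 1) (j / K)| ≤ M := le_max_right _ _
  have gen : ∀ s t : ℝ, 0 ≤ s → s ≤ K →
      t = (((K : ℝ) - s) * f (i / K) (j / K) + s * f (i / K + 1) (j / K)) / (T * (K : ℝ) ^ 2) →
      |t| ≤ M / (T * K) := by
    intro s t hs0 hs1 ht
    rw [ht, abs_div, abs_of_pos (show (0 : ℝ) < T * (K : ℝ) ^ 2 by positivity)]
    rw [div_le_div_iff₀ (by positivity) (by positivity)]
    have : |((K : ℝ) - s) * f (i / K) (j / K) + s * f (i / K + 1) (j / K)| ≤ K * M := by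
      calc |((K : ℝ) - s) * f (i / K) (j / K) + s * f (i / K + 1) (j / K)|
          ≤ |((K : ℝ) - s) * f (i / K) (j / K)| + |s * f (i / K + 1) (j / K)| := abs_add_le _ _
        _ = ((K : ℝ) - s) * |f (i / K) (j / K)| + s * |f (i / K + 1) (j / K)| := by
            rw [abs_mul, abs_mul, abs_of_nonneg (show (0 : ℝ) ≤ (K : ℝ) - s by linarith),
              abs_of_nonneg hs0]
        _ ≤ ((K : ℝ) - s) * M + s * M := by
            have := mul_le_mul_of_nonneg_left m1 (show (0 : ℝ) ≤ (K : ℝ) - s by linarith)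
            have := mul_le_mul_of_nonneg_left m2 hs0
            linarith
        _ = K * M := by ring
    calc _ ≤ K * M * (T * K) := mul_le_mul_of_nonneg_right this (by positivity)
      _ = M * (T * (K : ℝ) ^ 2) := by ring
  constructor
  · refine gen ((i % K : ℕ) : ℝ) _ (by positivity) ?_ (cum_fine hK h j i hf)
    exact_mod_cast (Nat.mod_lt i hK).le
  · refine gen ((i % K : ℕ) + 1 : ℝ) _ (by positivity) ?_ ?_
    · exact_mod_cast Nat.mod_lt i hK
    · have e : fine K r (i, j) - fine K r' (i, j) =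
          (f (i / K + 1) (j / K) - f (i / K) (j / K)) / (T * (K : ℝ) ^ 2) := by
        unfold fine
        simp only
        rw [← sub_div, h, div_div]
      have e1 := cum_fine hK h j i hf
      rw [cum_succ, cum_succ]
      have e2 : cum (fun k => fine K r (k, j)) i + fine K r (i, j) -
          (cum (fun k => fine K r' (k, j)) i + fine K r' (i, j)) =
          (cum (fun k => fine K r (k, j)) i - cum (fun k => fine K r' (k, j)) i) +
          (fine K r (i, j) - fine K r' (i, j)) := by ring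
      rw [e2, e1, e, ← add_div]
      congr 1
      ring

end Pool.UMC
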