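import Pool.Agent.H85.UMC.Chain

/-!
The transfer theorem: a flow on the `m × m` grid of cells with divergence `N_X - N_Y` gives a
permutation with small cost.
-/

open Finset

namespace Pool.UMC

theorem sum_fine1 (m K : ℕ) (hK : 0 < K) (g : ℕ → ℝ) :
    ∑ i ∈ range (m * K), g (i / K) = K * ∑ a ∈ range m, g a := by
  induction m with
  | zero => simp
  | succ m ih =>
    rw [Nat.succ_mul, Finset.sum_range_add, ih, Finset.sum_range_succ, mul_add]
    congr 1
    have : ∀ s ∈ range K, g ((m * K + s) / K) = g m := by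
      intro s hs
      have hs' := Finset.mem_range.1 hs
      rw [Nat.add_comm, Nat.add_mul_div_right _ _ hK, Nat.div_eq_of_lt hs', Nat.zero_add]
    rw [Finset.sum_congr rfl this, Finset.sum_const, Finset.card_range, nsmul_eq_mul]

theorem sum_fine2 (m K : ℕ) (hK : 0 < K) (g : ℕ → ℕ → ℝ) :
    ∑ x ∈ range (m * K) ×ˢ range (m * K), g (x.1 / K) (x.2 / K) =
      (K : ℝ) ^ 2 * ∑ a ∈ range m, ∑ b ∈ range m, g a b := by
  rw [Finset.sum_product]
  simp only
  have : ∀ i ∈ range (m * K), ∑ j ∈ range (m * K), g (i / K) (j / K) =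
      K * ∑ b ∈ range m, g (i / K) b := fun i _ => sum_fine1 m K hK (fun b => g (i / K) b)
  rw [Finset.sum_congr rfl this, ← Finset.mul_sum,
    sum_fine1 m K hK (fun a => ∑ b ∈ range m, g a b)]
  ring

theorem div_cell_abs {K : ℕ} (hK : 0 < K) (i j : ℕ) :
    |((i / K : ℕ) : ℝ) - ((j / K : ℕ) : ℝ)| ≤ 1 + |(i : ℝ) / K - (j : ℝ) / K| := by
  have hK' : (0 : ℝ) < K := by exact_mod_cast hK
  have key : ∀ i : ℕ, ((i / K : ℕ) : ℝ) ≤ (i : ℝ) / K ∧ (i : ℝ) / K < ((i / K : ℕ) : ℝ) + 1 := by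
    intro i
    refine ⟨Nat.cast_div_le, ?_⟩
    rw [div_lt_iff₀ hK']
    have h1 := Nat.div_add_mod i K
    have h2 := Nat.mod_lt i hK
    have h3 : i < (i / K + 1) * K := by
      rw [Nat.add_mul, Nat.mul_comm (i / K) K]
      omega
    exact_mod_cast h3
  have h1 := key i
  have h2 := key j
  have h3 := le_abs_self ((i : ℝ) / K - (j : ℝ) / K)
  have h4 := neg_abs_le ((i : ℝ) / K - (j : ℝ) / K)
  rw [abs_le]
  constructor <;> linarith

/-- Mass of the cell `(a, b)` at time `k / K`. -/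
noncomputable def rk (NX f1 f2 : ℕ → ℕ → ℝ) (K k : ℕ) (a b : ℕ) : ℝ :=
  NX a b - (k : ℝ) / K * ((f1 (a + 1) b - f1 a b) + (f2 a (b + 1) - f2 a b))

/-- Mass of the cell `(a, b)` after the horizontal half of step `k`. -/
noncomputable def rk' (NX f1 f2 : ℕ → ℕ → ℝ) (K k : ℕ) (a b : ℕ) : ℝ :=
  rk NX f1 f2 K k a b - (f1 (a + 1) b - f1 a b) / K

theorem rk_succ (NX f1 f2 : ℕ → ℕ → ℝ) (K k : ℕ) (a b : ℕ) :
    rk NX f1 f2 K (k + 1) a b = rk' NX f1 f2 K k a b - (f2 a (b + 1) - f2 a b) / K := by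
  unfold rk' rk
  push_cast
  ring

/-- The step coupling moves by a controlled distance. -/
theorem hcpl_disp {m K : ℕ} (hK : 0 < K) {lam : ℝ} (hlam : 0 < lam) {r r' f : ℕ → ℕ → ℝ}
    (h : ∀ a b, r a b - r' a b = (f (a + 1) b - f a b) / K)
    (hf : ∀ b < m, f 0 b = 0) (hr' : ∀ a < m, ∀ b < m, lam / 2 ≤ r' a b)
    {z y : ℕ × ℕ} (hz : z ∈ range (m * K) ×ˢ range (m * K))
    (hy : y ∈ range (m * K) ×ˢ range (m * K))
    (hne : hcpl (fine K r) (fine K r') z y ≠ 0) :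
    z.2 = y.2 ∧ |(z.1 : ℝ) / K - (y.1 : ℝ) / K| ≤
      (1 + 2 * max |f (z.1 / K) (z.2 / K)| |f (z.1 / K + 1) (z.2 / K)| / lam) / K := by
  have hK' : (0 : ℝ) < K := by exact_mod_cast hK
  rw [Finset.mem_product, Finset.mem_range, Finset.mem_range] at hz hy
  have hlt : ∀ i, i < m * K → i / K < m := fun i hi => Nat.div_lt_of_lt_mul (by rwa [Nat.mul_comm])
  unfold hcpl at hne
  split_ifs at hne with h2
  · refine ⟨h2, ?_⟩
    have hfl := cum_fine_abs hK hK' h z.2 z.1 (hf _ (hlt _ hz.2))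
    have hd := mono1_disp (a := fun i => fine K r (i, z.2)) (b := fun i => fine K r' (i, z.2))
      (L := m * K) (β := lam / 2 / (K : ℝ) ^ 2) (by positivity)
      (by
        intro i hi
        unfold fine
        simp only
        exact div_le_div_of_nonneg_right (hr' _ (hlt _ hi) _ (hlt _ hz.2)) (by positivity))
      hz.1 hy.1 hfl.1 hfl.2 hne
    have e : max |f (z.1 / K) (z.2 / K)| |f (z.1 / K + 1) (z.2 / K)| / ((K : ℝ) * K) /
        (lam / 2 / (K : ℝ) ^ 2) = 2 * max |f (z.1 / K) (z.2 / K)| |f (z.1 / K + 1) (z.2 / K)| / lam := by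
      field_simp
    rw [e] at hd
    rw [← sub_div, abs_div, abs_of_pos hK']
    exact div_le_div_of_nonneg_right hd hK'.le
  · exact absurd rfl hne

theorem vcpl_disp {m K : ℕ} (hK : 0 < K) {lam : ℝ} (hlam : 0 < lam) {r r' f : ℕ → ℕ → ℝ}
    (h : ∀ a b, r a b - r' a b = (f a (b + 1) - f a b) / K)
    (hf : ∀ a < m, f a 0 = 0) (hr' : ∀ a < m, ∀ b < m, lam / 2 ≤ r' a b)
    {z y : ℕ × ℕ} (hz : z ∈ range (m * K) ×ˢ range (m * K))
    (hy : y ∈ range (m * K) ×ˢ range (m * K))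
    (hne : vcpl (fine K r) (fine K r') z y ≠ 0) :
    z.1 = y.1 ∧ |(z.2 : ℝ) / K - (y.2 : ℝ) / K| ≤
      (1 + 2 * max |f (z.1 / K) (z.2 / K)| |f (z.1 / K) (z.2 / K + 1)| / lam) / K := by
  have hsw : ∀ x : ℕ × ℕ, x ∈ range (m * K) ×ˢ range (m * K) →
      x.swap ∈ range (m * K) ×ˢ range (m * K) := by
    rintro ⟨i, j⟩ hx
    simp only [Finset.mem_product, Finset.mem_range, Prod.swap_prod_mk] at hx ⊢
    exact ⟨hx.2, hx.1⟩
  have := hcpl_disp (m := m) hK hlam (r := fun a b => r b a) (r' := fun a b => r' b a)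
    (f := fun a b => f b a) (fun a b => h b a) hf (fun a ha b hb => hr' b hb a ha)
    (hsw z hz) (hsw y hy) hne
  exact this

theorem isCpl_h {m K : ℕ} (hK : 0 < K) {r r' f : ℕ → ℕ → ℝ}
    (h : ∀ a b, r a b - r' a b = (f (a + 1) b - f a b) / K)
    (hf : ∀ b < m, f 0 b = 0 ∧ f m b = 0) (hr : ∀ a < m, ∀ b < m, 0 ≤ r a b)
    (hr' : ∀ a < m, ∀ b < m, 0 ≤ r' a b) :
    IsCpl (range (m * K) ×ˢ range (m * K)) (fine K r) (fine K r')
      (hcpl (fine K r) (fine K r')) := by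
  have hlt : ∀ i, i < m * K → i / K < m := fun i hi => Nat.div_lt_of_lt_mul (by rwa [Nat.mul_comm])
  refine isCpl_hcpl ?_ ?_ ?_
  · intro x hx
    rw [Finset.mem_product, Finset.mem_range, Finset.mem_range] at hx
    exact div_nonneg (hr _ (hlt _ hx.1) _ (hlt _ hx.2)) (by positivity)
  · intro x hx
    rw [Finset.mem_product, Finset.mem_range, Finset.mem_range] at hx
    exact div_nonneg (hr' _ (hlt _ hx.1) _ (hlt _ hx.2)) (by positivity)
  · intro j hj
    have e := cum_fine hK h j (m * K) (hf _ (hlt _ hj)).1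
    rw [Nat.mul_div_cancel _ hK, Nat.mul_mod_left, (hf _ (hlt _ hj)).2] at e
    simp only [Nat.cast_zero, sub_zero, mul_zero, zero_mul, add_zero, zero_div] at e
    linarith

theorem isCpl_v {m K : ℕ} (hK : 0 < K) {r r' f : ℕ → ℕ → ℝ}
    (h : ∀ a b, r a b - r' a b = (f a (b + 1) - f a b) / K)
    (hf : ∀ a < m, f a 0 = 0 ∧ f a m = 0) (hr : ∀ a < m, ∀ b < m, 0 ≤ r a b)
    (hr' : ∀ a < m, ∀ b < m, 0 ≤ r' a b) :
    IsCpl (range (m * K) ×ˢ range (m * K)) (fine K r) (fine K r')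
      (vcpl (fine K r) (fine K r')) := by
  have hlt : ∀ i, i < m * K → i / K < m := fun i hi => Nat.div_lt_of_lt_mul (by rwa [Nat.mul_comm])
  refine isCpl_vcpl ?_ ?_ ?_
  · intro x hx
    rw [Finset.mem_product, Finset.mem_range, Finset.mem_range] at hx
    exact div_nonneg (hr _ (hlt _ hx.1) _ (hlt _ hx.2)) (by positivity)
  · intro x hx
    rw [Finset.mem_product, Finset.mem_range, Finset.mem_range] at hx
    exact div_nonneg (hr' _ (hlt _ hx.1) _ (hlt _ hx.2)) (by positivity)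
  · intro i hi
    have e := cum_fine (r := fun a b => r b a) (r' := fun a b => r' b a) (f := fun a b => f b a)
      hK (fun a b => h b a) i (m * K) (hf _ (hlt _ hi)).1
    rw [Nat.mul_div_cancel _ hK, Nat.mul_mod_left, (hf _ (hlt _ hi)).2] at e
    simp only [Nat.cast_zero, sub_zero, mul_zero, zero_mul, add_zero, zero_div] at e
    have e' : cum (fun k => fine K (fun a b => r b a) (k, i)) (m * K) =
        cum (fun j => fine K r (i, j)) (m * K) := rfl
    have e'' : cum (fun k => fine K (fun a b => r' b a) (k, i)) (m * K) =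
        cum (fun j => fine K r' (i, j)) (m * K) := rfl
    rw [e', e''] at e
    linarith

theorem convexOn_shift {g : ℝ → ℝ} (hg : ConvexOn ℝ (Set.Ici 0) g) :
    ConvexOn ℝ (Set.Ici 0) (fun u => g (2 + u)) := by
  refine ⟨convex_Ici 0, ?_⟩
  intro x hx y hy a b ha hb hab
  have hx' : (0 : ℝ) ≤ x := hx
  have hy' : (0 : ℝ) ≤ y := hy
  have := hg.2 (show (0 : ℝ) ≤ 2 + x by positivity) (show (0 : ℝ) ≤ 2 + y by positivity) ha hb hab
  simp only [smul_eq_mul] at this ⊢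
  have e : a * (2 + x) + b * (2 + y) = 2 + (a * x + b * y) := by
    linear_combination 2 * hab
  rwa [e] at this

theorem monotoneOn_shift {g : ℝ → ℝ} (hg : MonotoneOn g (Set.Ici 0)) :
    MonotoneOn (fun u => g (2 + u)) (Set.Ici 0) := by
  intro x hx y hy hxy
  have hx' : (0 : ℝ) ≤ x := hx
  have hy' : (0 : ℝ) ≤ y := hy
  exact hg (show (0 : ℝ) ≤ 2 + x by positivity) (show (0 : ℝ) ≤ 2 + y by positivity) (by linarith)

/-- Final bound for the cost of one coordinate. -/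
theorem cost_sum {m K : ℕ} (hK : 0 < K) {lam : ℝ} (hlam : 0 < lam) (r : ℕ → ℕ → ℕ → ℝ)
    (hr : ∀ k < K, ∀ a < m, ∀ b < m, r k a b ≤ 3 / 2 * lam) (F : ℕ → ℕ → ℝ)
    (hF : ∀ a b, 0 ≤ F a b) {g : ℝ → ℝ} (hg : MonotoneOn g (Set.Ici 0)) (hg0 : 0 ≤ g 0) :
    1 / (K : ℝ) * ∑ j ∈ range K, ∑ z ∈ range (m * K) ×ˢ range (m * K),
      fine K (r j) z * g (2 + K * ((1 + 2 * F (z.1 / K) (z.2 / K) / lam) / K)) ≤
      3 / 2 * lam * ∑ a ∈ range m, ∑ b ∈ range m, g (3 + 2 * F a b / lam) := by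
  have hK' : (0 : ℝ) < K := by exact_mod_cast hK
  have hlt : ∀ i, i < m * K → i / K < m := fun i hi => Nat.div_lt_of_lt_mul (by rwa [Nat.mul_comm])
  have e : ∀ z : ℕ × ℕ, 2 + K * ((1 + 2 * F (z.1 / K) (z.2 / K) / lam) / K) =
      3 + 2 * F (z.1 / K) (z.2 / K) / lam := by
    intro z
    field_simp
    ring
  have h1 : ∀ j ∈ range K, ∑ z ∈ range (m * K) ×ˢ range (m * K),
      fine K (r j) z * g (2 + K * ((1 + 2 * F (z.1 / K) (z.2 / K) / lam) / K)) ≤
      3 / 2 * lam * ∑ a ∈ range m, ∑ b ∈ range m, g (3 + 2 * F a b / lam) := by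
    intro j hj
    have hj' := Finset.mem_range.1 hj
    calc ∑ z ∈ range (m * K) ×ˢ range (m * K),
          fine K (r j) z * g (2 + K * ((1 + 2 * F (z.1 / K) (z.2 / K) / lam) / K))
        ≤ ∑ z ∈ range (m * K) ×ˢ range (m * K),
          (3 / 2 * lam / (K : ℝ) ^ 2) * g (3 + 2 * F (z.1 / K) (z.2 / K) / lam) := by
          refine Finset.sum_le_sum fun z hz => ?_
          rw [Finset.mem_product, Finset.mem_range, Finset.mem_range] at hz
          rw [e z]
          have hpos : (0 : ℝ) ≤ 3 + 2 * F (z.1 / K) (z.2 / K) / lam := by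
            have := hF (z.1 / K) (z.2 / K)
            positivity
          refine mul_le_mul_of_nonneg_right ?_ (hg0.trans (hg (show (0 : ℝ) ≤ 0 from le_rfl)
            hpos hpos))
          exact div_le_div_of_nonneg_right (hr j hj' _ (hlt _ hz.1) _ (hlt _ hz.2)) (by positivity)
      _ = 3 / 2 * lam * ∑ a ∈ range m, ∑ b ∈ range m, g (3 + 2 * F a b / lam) := by
          rw [← Finset.mul_sum, sum_fine2 m K hK (fun a b => g (3 + 2 * F a b / lam))]
          field_simp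
  calc _ ≤ 1 / (K : ℝ) * ∑ j ∈ range K,
        3 / 2 * lam * ∑ a ∈ range m, ∑ b ∈ range m, g (3 + 2 * F a b / lam) :=
        mul_le_mul_of_nonneg_left (Finset.sum_le_sum h1) (by positivity)
    _ = _ := by
        rw [Finset.sum_const, Finset.card_range, nsmul_eq_mul]
        field_simp

theorem exists_steps (m : ℕ) {lam : ℝ} (hlam : 0 < lam) (d : ℕ → ℕ → ℝ) :
    ∃ K : ℕ, 0 < K ∧ ∀ a < m, ∀ b < m, |d a b / K| ≤ lam / 4 := by
  obtain ⟨K, hK⟩ := exists_nat_gt (4 / lam * ∑ x ∈ range m ×ˢ range m, |d x.1 x.2|)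
  have h0 : 0 ≤ ∑ x ∈ range m ×ˢ range m, |d x.1 x.2| := Finset.sum_nonneg fun x _ => abs_nonneg _
  have hK' : (0 : ℝ) < K := lt_of_le_of_lt (by positivity) hK
  refine ⟨K, by exact_mod_cast hK', ?_⟩
  intro a ha b hb
  have h1 : |d a b| ≤ ∑ x ∈ range m ×ˢ range m, |d x.1 x.2| :=
    Finset.single_le_sum (f := fun x : ℕ × ℕ => |d x.1 x.2|) (fun x _ => abs_nonneg _)
      (show (a, b) ∈ range m ×ˢ range m by simp [ha, hb])
  rw [abs_div, abs_of_pos hK', div_le_iff₀ hK']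
  have h2 : 4 / lam * |d a b| < K := lt_of_le_of_lt (mul_le_mul_of_nonneg_left h1 (by positivity)) hK
  have h3 : 4 / lam * |d a b| * (lam / 4) = |d a b| := by field_simp
  nlinarith

/-- TRANSFER: from a flow on cells to a permutation of points. -/
theorem transfer {m n : ℕ} {lam : ℝ} (hlam : 0 < lam) (cx cy : Fin n → ℕ × ℕ)
    (hX : ∀ a < m, ∀ b < m, 3 / 4 * lam ≤ ((univ.filter fun k => cx k = (a, b)).card : ℝ) ∧
      ((univ.filter fun k => cx k = (a, b)).card : ℝ) ≤ 5 / 4 * lam)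
    (hY : ∀ a < m, ∀ b < m, 3 / 4 * lam ≤ ((univ.filter fun k => cy k = (a, b)).card : ℝ) ∧
      ((univ.filter fun k => cy k = (a, b)).card : ℝ) ≤ 5 / 4 * lam)
    (hcx : ∀ i, (cx i).1 < m ∧ (cx i).2 < m) (hcy : ∀ i, (cy i).1 < m ∧ (cy i).2 < m)
    (f1 f2 : ℕ → ℕ → ℝ) (h1 : ∀ b < m, f1 0 b = 0 ∧ f1 m b = 0)
    (h2 : ∀ a < m, f2 a 0 = 0 ∧ f2 a m = 0)
    (hdiv : ∀ a < m, ∀ b < m, (f1 (a + 1) b - f1 a b) + (f2 a (b + 1) - f2 a b) =
      ((univ.filter fun k => cx k = (a, b)).card : ℝ) -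
        ((univ.filter fun k => cy k = (a, b)).card : ℝ))
    (g1 g2 : ℝ → ℝ) (hg1 : ConvexOn ℝ (Set.Ici 0) g1) (hg2 : ConvexOn ℝ (Set.Ici 0) g2)
    (hm1 : MonotoneOn g1 (Set.Ici 0)) (hm2 : MonotoneOn g2 (Set.Ici 0))
    (h01 : 0 ≤ g1 0) (h02 : 0 ≤ g2 0) (c : Fin n → Fin n → ℝ)
    (hc : ∀ i j, c i j ≤ g1 (1 + |((cx i).1 : ℝ) - (cy j).1|) +
      g2 (1 + |((cx i).2 : ℝ) - (cy j).2|)) :
    ∃ σ : Equiv.Perm (Fin n), ∑ i, c i (σ i) ≤ 3 / 2 * lam * ∑ a ∈ range m, ∑ b ∈ range m,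
      (g1 (3 + 2 * max |f1 a b| |f1 (a + 1) b| / lam) +
        g2 (3 + 2 * max |f2 a b| |f2 a (b + 1)| / lam)) := by
  obtain ⟨K, hK, hsteps⟩ := exists_steps m hlam (fun a b => f1 (a + 1) b - f1 a b)
  have hK' : (0 : ℝ) < K := by exact_mod_cast hK
  set NX : ℕ → ℕ → ℝ := fun a b => ((univ.filter fun k => cx k = (a, b)).card : ℝ) with hNX
  set NY : ℕ → ℕ → ℝ := fun a b => ((univ.filter fun k => cy k = (a, b)).card : ℝ) with hNY
  have hlt : ∀ i, i < m * K → i / K < m := fun i hi => Nat.div_lt_of_lt_mul (by rwa [Nat.mul_comm])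
  -- bounds for the masses
  have rb : ∀ k ≤ K, ∀ a < m, ∀ b < m, 3 / 4 * lam ≤ rk NX f1 f2 K k a b ∧
      rk NX f1 f2 K k a b ≤ 5 / 4 * lam := by
    intro k hk a ha b hb
    have e : rk NX f1 f2 K k a b = (1 - (k : ℝ) / K) * NX a b + (k : ℝ) / K * NY a b := by
      unfold rk
      rw [hdiv a ha b hb]
      ring
    have ht0 : 0 ≤ (k : ℝ) / K := by positivity
    have ht1 : (k : ℝ) / K ≤ 1 := by
      rw [div_le_one hK']
      exact_mod_cast hk
    have x1 := (hX a ha b hb).1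
    have x2 := (hX a ha b hb).2
    have y1 := (hY a ha b hb).1
    have y2 := (hY a ha b hb).2
    change 3 / 4 * lam ≤ NX a b at x1
    change NX a b ≤ 5 / 4 * lam at x2
    change 3 / 4 * lam ≤ NY a b at y1
    change NY a b ≤ 5 / 4 * lam at y2
    rw [e]
    constructor
    · nlinarith
    · nlinarith
  have rb' : ∀ k ≤ K, ∀ a < m, ∀ b < m, lam / 2 ≤ rk' NX f1 f2 K k a b ∧
      rk' NX f1 f2 K k a b ≤ 3 / 2 * lam := by
    intro k hk a ha b hb
    have := rb k hk a ha b hb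
    have h3 := abs_le.1 (hsteps a ha b hb)
    unfold rk'
    constructor
    · linarith [h3.2]
    · linarith [h3.1]
  set ρ : ℕ → ℕ × ℕ → ℝ := fun k => fine K (rk NX f1 f2 K k) with hρdef
  set ρ' : ℕ → ℕ × ℕ → ℝ := fun k => fine K (rk' NX f1 f2 K k) with hρ'def
  set h : ℕ → ℕ × ℕ → ℕ × ℕ → ℝ := fun k => hcpl (ρ k) (ρ' k) with hhdef
  set v : ℕ → ℕ × ℕ → ℕ × ℕ → ℝ := fun k => vcpl (ρ' k) (ρ (k + 1)) with hvdef
  set S := range (m * K) ×ˢ range (m * K) with hS
  have hSm : ∀ x ∈ S, x.1 / K < m ∧ x.2 / K < m := by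
    intro x hx
    rw [hS, Finset.mem_product, Finset.mem_range, Finset.mem_range] at hx
    exact ⟨hlt _ hx.1, hlt _ hx.2⟩
  have ρpos : ∀ k ≤ K, ∀ x ∈ S, 0 < ρ k x := by
    intro k hk x hx
    have := (rb k hk _ (hSm x hx).1 _ (hSm x hx).2).1
    exact div_pos (by linarith) (by positivity)
  have ρ'pos : ∀ k ≤ K, ∀ x ∈ S, 0 < ρ' k x := by
    intro k hk x hx
    have := (rb' k hk _ (hSm x hx).1 _ (hSm x hx).2).1
    exact div_pos (by linarith) (by positivity)
  have rel1 : ∀ k, ∀ a b, rk NX f1 f2 K k a b - rk' NX f1 f2 K k a b =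
      (f1 (a + 1) b - f1 a b) / K := by
    intro k a b
    unfold rk'
    ring
  have rel2 : ∀ k, ∀ a b, rk' NX f1 f2 K k a b - rk NX f1 f2 K (k + 1) a b =
      (f2 a (b + 1) - f2 a b) / K := by
    intro k a b
    rw [rk_succ]
    ring
  have hh : ∀ k < K, IsCpl S (ρ k) (ρ' k) (h k) := by
    intro k hk
    exact isCpl_h hK (rel1 k) h1 (fun a ha b hb => by linarith [(rb k hk.le a ha b hb).1])
      (fun a ha b hb => by linarith [(rb' k hk.le a ha b hb).1])
  have hv : ∀ k < K, IsCpl S (ρ' k) (ρ (k + 1)) (v k) := by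
    intro k hk
    exact isCpl_v hK (rel2 k) h2 (fun a ha b hb => by linarith [(rb' k hk.le a ha b hb).1])
      (fun a ha b hb => by linarith [(rb (k + 1) hk a ha b hb).1])
  have hcpl0 := chain_cpl (fun x hx => (ρpos 0 (by omega) x hx).le)
    (fun k hk => ρpos k hk.le) (fun k hk => ρ'pos k hk.le) hh hv K le_rfl
  have cost1 := chain_cost1 (fun x hx => (ρpos 0 (by omega) x hx).le)
    (fun k hk => ρpos k hk.le) (fun k hk => ρ'pos k hk.le) hh hv (fun z => (z.1 : ℝ) / K)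
    (fun z => (1 + 2 * max |f1 (z.1 / K) (z.2 / K)| |f1 (z.1 / K + 1) (z.2 / K)| / lam) / K)
    (fun z _ => by
      have : 0 ≤ max |f1 (z.1 / K) (z.2 / K)| |f1 (z.1 / K + 1) (z.2 / K)| :=
        (abs_nonneg _).trans (le_max_left _ _)
      positivity)
    (fun k hk z hz y hy hne => (hcpl_disp hK hlam (rel1 k) (fun b hb => (h1 b hb).1)
      (fun a ha b hb => (rb' k hk.le a ha b hb).1) hz hy hne).2)
    (fun k hk z hz y hy hne => by
      have := (vcpl_disp hK hlam (rel2 k) (fun b hb => (h2 b hb).1)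
        (fun a ha b hb => by linarith [(rb (k + 1) hk a ha b hb).1]) hz hy hne).1
      rw [this])
    K hK le_rfl (fun u => g1 (2 + u)) (convexOn_shift hg1) (monotoneOn_shift hm1)
  have cost2 := chain_cost2 (fun x hx => (ρpos 0 (by omega) x hx).le)
    (fun k hk => ρpos k hk.le) (fun k hk => ρ'pos k hk.le) hh hv (fun z => (z.2 : ℝ) / K)
    (fun z => (1 + 2 * max |f2 (z.1 / K) (z.2 / K)| |f2 (z.1 / K) (z.2 / K + 1)| / lam) / K)
    (fun z _ => by
      have : 0 ≤ max |f2 (z.1 / K) (z.2 / K)| |f2 (z.1 / K) (z.2 / K + 1)| :=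
        (abs_nonneg _).trans (le_max_left _ _)
      positivity)
    (fun k hk z hz y hy hne => by
      have := (hcpl_disp hK hlam (rel1 k) (fun b hb => (h1 b hb).1)
        (fun a ha b hb => (rb' k hk.le a ha b hb).1) hz hy hne).1
      rw [this])
    (fun k hk z hz y hy hne => (vcpl_disp hK hlam (rel2 k) (fun b hb => (h2 b hb).1)
        (fun a ha b hb => by linarith [(rb (k + 1) hk a ha b hb).1]) hz hy hne).2)
    K hK le_rfl (fun u => g2 (2 + u)) (convexOn_shift hg2) (monotoneOn_shift hm2)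
  have b1 := cost_sum hK hlam (fun k => rk NX f1 f2 K k)
    (fun k hk a ha b hb => by linarith [(rb k hk.le a ha b hb).2])
    (fun a b => max |f1 a b| |f1 (a + 1) b|) (fun a b => (abs_nonneg _).trans (le_max_left _ _))
    hm1 h01
  have b2 := cost_sum hK hlam (fun k => rk' NX f1 f2 K k)
    (fun k hk a ha b hb => (rb' k hk.le a ha b hb).2)
    (fun a b => max |f2 a b| |f2 a (b + 1)|) (fun a b => (abs_nonneg _).trans (le_max_left _ _))
    hm2 h02
  -- lift to points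
  have marg : ∀ (r : ℕ → ℕ → ℝ) (q : ℕ × ℕ), q.1 < m → q.2 < m →
      ∑ x ∈ S with (x.1 / K, x.2 / K) = q, fine K r x = r q.1 q.2 := by
    intro r q hq1 hq2
    rw [Finset.sum_filter]
    have e := sum_fine2 m K hK (fun a b => if (a, b) = q then r a b / (K : ℝ) ^ 2 else 0)
    unfold fine
    rw [e]
    have e2 : ∀ a ∈ range m, ∑ b ∈ range m, (if (a, b) = q then r a b / (K : ℝ) ^ 2 else 0) =
        if a = q.1 then r q.1 q.2 / (K : ℝ) ^ 2 else 0 := by
      intro a _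
      by_cases ha : a = q.1
      · subst ha
        rw [Finset.sum_eq_single q.2]
        · simp
        · intro b _ hb
          rw [if_neg]
          intro hq
          exact hb (by rw [← hq])
        · intro hq
          exact absurd (Finset.mem_range.2 hq2) hq
      · rw [if_neg ha]
        refine Finset.sum_eq_zero fun b _ => ?_
        rw [if_neg]
        intro hq
        exact ha (by rw [← hq])
    rw [Finset.sum_congr rfl e2, Finset.sum_ite_eq']
    simp only [Finset.mem_range, hq1, if_true]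
    field_simp
  have hr0 : ∀ a b, rk NX f1 f2 K 0 a b = NX a b := by
    intro a b
    simp [rk]
  have hrK : ∀ a < m, ∀ b < m, rk NX f1 f2 K K a b = NY a b := by
    intro a ha b hb
    unfold rk
    rw [hdiv a ha b hb, div_self hK'.ne']
    ring
  obtain ⟨σ, hσ⟩ := lift_perm (S := S) (fun x : ℕ × ℕ => (x.1 / K, x.2 / K)) cx cy hcpl0
    (by
      intro i
      have := marg (rk NX f1 f2 K 0) (cx i) (hcx i).1 (hcx i).2
      rw [hr0] at this
      exact this)
    (by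
      intro i
      have := marg (rk NX f1 f2 K K) (cy i) (hcy i).1 (hcy i).2
      rw [hrK _ (hcy i).1 _ (hcy i).2] at this
      exact this)
    (by
      intro x hx
      have h3 := (hX _ (hSm x hx).1 _ (hSm x hx).2).1
      have h4 : (0 : ℝ) < ((univ.filter fun k => cx k = (x.1 / K, x.2 / K)).card : ℝ) := by
        linarith
      obtain ⟨i, hi⟩ := Finset.card_pos.1 (Nat.cast_pos.1 h4)
      exact ⟨i, by simpa using hi⟩)
    (by
      intro x hx
      have h3 := (hY _ (hSm x hx).1 _ (hSm x hx).2).1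
      have h4 : (0 : ℝ) < ((univ.filter fun k => cy k = (x.1 / K, x.2 / K)).card : ℝ) := by
        linarith
      obtain ⟨i, hi⟩ := Finset.card_pos.1 (Nat.cast_pos.1 h4)
      exact ⟨i, by simpa using hi⟩)
    c (fun x y => g1 (2 + |(x.1 : ℝ) / K - (y.1 : ℝ) / K|) +
      g2 (2 + |(x.2 : ℝ) / K - (y.2 : ℝ) / K|))
    (by
      intro i j x _ y _ hx hy
      refine (hc i j).trans ?_
      rw [← hx, ← hy]
      simp only
      have d1 := div_cell_abs hK x.1 y.1
      have d2 := div_cell_abs hK x.2 y.2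
      refine add_le_add (hm1 ?_ ?_ (by linarith)) (hm2 ?_ ?_ (by linarith))
      · show (0 : ℝ) ≤ _
        positivity
      · show (0 : ℝ) ≤ _
        positivity
      · show (0 : ℝ) ≤ _
        positivity
      · show (0 : ℝ) ≤ _
        positivity)
  refine ⟨σ, hσ.trans ?_⟩
  have split : ∑ x ∈ S, ∑ y ∈ S, chain S ρ ρ' h v K x y *
      (g1 (2 + |(x.1 : ℝ) / K - (y.1 : ℝ) / K|) + g2 (2 + |(x.2 : ℝ) / K - (y.2 : ℝ) / K|)) =
      ∑ x ∈ S, ∑ y ∈ S, chain S ρ ρ' h v K x y * g1 (2 + |(x.1 : ℝ) / K - (y.1 : ℝ) / K|) +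
      ∑ x ∈ S, ∑ y ∈ S, chain S ρ ρ' h v K x y * g2 (2 + |(x.2 : ℝ) / K - (y.2 : ℝ) / K|) := by
    rw [← Finset.sum_add_distrib]
    refine Finset.sum_congr rfl fun x _ => ?_
    rw [← Finset.sum_add_distrib]
    refine Finset.sum_congr rfl fun y _ => ?_
    ring
  rw [split]
  have split2 : 3 / 2 * lam * ∑ a ∈ range m, ∑ b ∈ range m,
      (g1 (3 + 2 * max |f1 a b| |f1 (a + 1) b| / lam) +
        g2 (3 + 2 * max |f2 a b| |f2 a (b + 1)| / lam)) =
      3 / 2 * lam * ∑ a ∈ range m, ∑ b ∈ range m, g1 (3 + 2 * max |f1 a b| |f1 (a + 1) b| / lam) +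
      3 / 2 * lam * ∑ a ∈ range m, ∑ b ∈ range m,
        g2 (3 + 2 * max |f2 a b| |f2 a (b + 1)| / lam) := by
    rw [← mul_add, ← Finset.sum_add_distrib]
    congr 1
    refine Finset.sum_congr rfl fun a _ => ?_
    rw [← Finset.sum_add_distrib]
  rw [split2]
  exact add_le_add (cost1.trans b1) (cost2.trans b2)

end Pool.UMC
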